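import Mathlib
import Pool.Agent.H592W.Upper
import Pool.Agent.H592W.Thin

set_option autoImplicit false
open scoped ENNReal BigOperators
open MeasureTheory ProbabilityTheory

/-!
# Poisson animals on the integer lattice: no percolation at small intensity

General weights in the multiscale argument of `H592W/Upper.lean`.
-/

namespace Pool.Agent.R958.Animal

open Pool.Agent.H592

noncomputable section

variable {d : ℕ}

section Prob

variable {Ω : Type*} [mΩ : MeasurableSpace Ω]

theorem union_bound' (P : Measure Ω) (ξ : V d × Finset (V d) → Ω → Bool) (v : ℝ≥0∞)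
    (w : V d × Finset (V d) → ℝ≥0∞)
    (hp : ∀ k, P {ω | ξ k ω = true} ≤ v * w k) (p : V d × Finset (V d) → Prop) :
    P {ω | ∃ k ∈ Qs ξ ω, p k} ≤ v * ∑' k, w k * one? (p k) := by
  have h1 : {ω | ∃ k ∈ Qs ξ ω, p k} = ⋃ k, {ω | ξ k ω = true ∧ p k} := by
    ext ω; simp [Qs]
  rw [h1]
  refine (measure_iUnion_le _).trans ?_
  rw [← ENNReal.tsum_mul_left]
  refine ENNReal.tsum_le_tsum fun k => ?_
  by_cases hk : p k
  · rw [one?_true hk, mul_one]
    refine le_trans (measure_mono ?_) (hp k)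
    intro ω hω
    exact hω.1
  · have : {ω | ξ k ω = true ∧ p k} = ∅ := by ext ω; simp [hk]
    rw [this]
    simp

theorem E_rec' (P : Measure Ω) [IsProbabilityMeasure P] (ξ : V d × Finset (V d) → Ω → Bool)
    (hm : ∀ k, Measurable (ξ k)) (hi : iIndepFun ξ P) (v : ℝ≥0∞)
    (w : V d × Finset (V d) → ℝ≥0∞)
    (hp : ∀ k, P {ω | ξ k ω = true} ≤ v * w k) (r : ℕ) (hr : 1 ≤ r) (q : ℝ≥0∞)
    (hq : ∀ c, P {ω | E (Qs ξ ω) c r} ≤ q) (c : V d) :
    P {ω | E (Qs ξ ω) c (8 * r)} ≤ v * (∑' k, w k * one? (bad c r k)) +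
      (49 ^ d : ℕ) * (49 ^ d : ℕ) * (q * q) := by
  have hsub : {ω | E (Qs ξ ω) c (8 * r)} ⊆ {ω | ∃ k ∈ Qs ξ ω, bad c r k} ∪
      ⋃ y1 ∈ gr c r 24, ⋃ y2 ∈ gr c r 24,
        {ω | (∃ j, (6 * r : ℤ) < |y1 j - y2 j|) ∧ E (Qs ξ ω) y1 r ∧ E (Qs ξ ω) y2 r} := by
    intro ω hω
    by_cases hb : ∃ k ∈ Qs ξ ω, bad c r k
    · exact Or.inl hb
    · right
      push Not at hb
      obtain ⟨y1, hy1, y2, hy2, hj, h1, h2⟩ := geom_step hr hb hω
      rw [Set.mem_iUnion₂]
      refine ⟨y1, hy1, ?_⟩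
      rw [Set.mem_iUnion₂]
      exact ⟨y2, hy2, hj, h1, h2⟩
  refine (measure_mono hsub).trans ((measure_union_le _ _).trans ?_)
  refine add_le_add ?_ ?_
  · exact union_bound' P ξ v w hp (bad c r)
  · refine (measure_biUnion_finset_le _ _).trans ?_
    have hin : ∀ y1 ∈ gr c r 24, P (⋃ y2 ∈ gr c r 24,
        {ω | (∃ j, (6 * r : ℤ) < |y1 j - y2 j|) ∧ E (Qs ξ ω) y1 r ∧ E (Qs ξ ω) y2 r})
          ≤ (49 ^ d : ℕ) * (q * q) := by
      intro y1 _
      refine (measure_biUnion_finset_le _ _).trans ?_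
      have hin2 : ∀ y2 ∈ gr c r 24, P {ω | (∃ j, (6 * r : ℤ) < |y1 j - y2 j|) ∧
          E (Qs ξ ω) y1 r ∧ E (Qs ξ ω) y2 r} ≤ q * q := by
        intro y2 _
        by_cases hj : ∃ j, (6 * r : ℤ) < |y1 j - y2 j|
        · have : {ω | (∃ j, (6 * r : ℤ) < |y1 j - y2 j|) ∧ E (Qs ξ ω) y1 r ∧ E (Qs ξ ω) y2 r}
              = {ω | E (Qs ξ ω) y1 r ∧ E (Qs ξ ω) y2 r} := by
            ext ω; simp only [Set.mem_ofPred_eq, hj, true_and]
          rw [this, E_indep P ξ hm hi y1 y2 r hj]
          exact mul_le_mul' (hq y1) (hq y2)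
        · have : {ω | (∃ j, (6 * r : ℤ) < |y1 j - y2 j|) ∧ E (Qs ξ ω) y1 r ∧ E (Qs ξ ω) y2 r}
              = ∅ := by
            ext ω; simp only [Set.mem_ofPred_eq, hj, false_and, Set.mem_empty_iff_false]
          rw [this]; simp
      calc _ ≤ ∑ y2 ∈ gr c r 24, q * q := Finset.sum_le_sum hin2
        _ = ((gr c r 24).card : ℝ≥0∞) * (q * q) := by rw [Finset.sum_const, nsmul_eq_mul]
        _ ≤ _ := by
            gcongr
            have := card_gr c r 24
            simpa using this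
    calc _ ≤ ∑ y1 ∈ gr c r 24, ((49 ^ d : ℕ) : ℝ≥0∞) * (q * q) := Finset.sum_le_sum hin
      _ = ((gr c r 24).card : ℝ≥0∞) * (((49 ^ d : ℕ) : ℝ≥0∞) * (q * q)) := by
          rw [Finset.sum_const, nsmul_eq_mul]
      _ ≤ ((49 ^ d : ℕ) : ℝ≥0∞) * (((49 ^ d : ℕ) : ℝ≥0∞) * (q * q)) := by
          gcongr
          have := card_gr c r 24
          simpa using this
      _ = _ := by ring

theorem E_base' (P : Measure Ω) (ξ : V d × Finset (V d) → Ω → Bool) (v : ℝ≥0∞)
    (w : V d × Finset (V d) → ℝ≥0∞)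
    (hp : ∀ k, P {ω | ξ k ω = true} ≤ v * w k) (c : V d) :
    P {ω | E (Qs ξ ω) c 1} ≤ v * ∑' k, w k * one? (k.1 ∈ Bx c 3) := by
  have hsub : {ω | E (Qs ξ ω) c 1} ⊆ {ω | ∃ k ∈ Qs ξ ω, k.1 ∈ Bx c 3} := by
    intro ω hω
    obtain ⟨p, q, hp, hq, hc⟩ := hω
    have hne : p ≠ q := by
      rintro rfl
      apply hq
      rw [mem_Bx] at *
      intro j
      have := hp j
      push_cast at *
      linarith
    rcases Relation.ReflTransGen.cases_tail hc with h | ⟨w, _, hw⟩
    · exact absurd h.symm hne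
    · obtain ⟨k, ⟨hk1, hk⟩, hqk⟩ := hw.2.1
      rw [Finset.mem_coe, mem_T] at hk
      exact ⟨k, hk1, hk.1⟩
  exact (measure_mono hsub).trans (union_bound' P ξ v w hp (fun k => k.1 ∈ Bx c 3))

/-- no percolation at small intensity, general weights -/
theorem upper_gen [NeZero d] (w : V d × Finset (V d) → ℝ≥0∞) (H : ℝ)
    (HB : ∀ (c : V d) (r : ℕ), 1 ≤ r → ∑' k, w k * one? (bad c r k) ≤ ENNReal.ofReal H)
    (Hbox : ∀ c : V d, ∑' k, w k * one? (k.1 ∈ Bx c 3) ≤ ENNReal.ofReal (7 ^ d)) :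
    ∃ v : ℝ, 0 < v ∧ ∀ (Ω : Type) [MeasurableSpace Ω] (P : Measure Ω) [IsProbabilityMeasure P]
      (ξ : V d × Finset (V d) → Ω → Bool), (∀ k, Measurable (ξ k)) → iIndepFun ξ P →
      (∀ k, P {ω | ξ k ω = true} ≤ ENNReal.ofReal v * w k) →
      P {ω | perc (occ (Qs ξ ω))} = 0 := by
  set H' : ℝ := max H (7 ^ d) with hH'
  have hH1 : 1 ≤ H' := le_trans (one_le_pow₀ (by norm_num)) (le_max_right _ _)
  set N0 : ℝ := 49 ^ d * 49 ^ d with hN0
  have hN1 : 1 ≤ N0 := by
    rw [hN0]
    have : (1 : ℝ) ≤ 49 ^ d := one_le_pow₀ (by norm_num)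
    nlinarith
  set v : ℝ := 1 / (8 * N0 * H') with hv
  have hv0 : 0 < v := by positivity
  have hvH : v * H' * (8 * N0) = 1 := by rw [hv]; field_simp
  refine ⟨v, hv0, ?_⟩
  intro Ω _ P _ ξ hm hi hp
  set q : ℝ := 2 * v * H' with hq
  have hq0 : 0 < q := by positivity
  have hstep : ∀ k : ℕ, ∀ c : V d, P {ω | E (Qs ξ ω) c (8 ^ k)} ≤ ENNReal.ofReal q := by
    intro k
    induction k with
    | zero =>
      intro c
      rw [pow_zero]
      refine (E_base' P ξ _ w hp c).trans ?_
      refine (mul_le_mul' le_rfl (Hbox c)).trans ?_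
      rw [← ENNReal.ofReal_mul hv0.le]
      refine ENNReal.ofReal_le_ofReal ?_
      have : (7 : ℝ) ^ d ≤ H' := le_max_right _ _
      nlinarith
    | succ k ih =>
      intro c
      have h8 : 1 ≤ 8 ^ k := Nat.one_le_pow _ _ (by norm_num)
      have h1 := E_rec' P ξ hm hi _ w hp (8 ^ k) h8 _ ih c
      rw [pow_succ, mul_comm]
      refine h1.trans ?_
      calc ENNReal.ofReal v * (∑' κ, w κ * one? (bad c (8 ^ k) κ)) +
            (49 ^ d : ℕ) * (49 ^ d : ℕ) * (ENNReal.ofReal q * ENNReal.ofReal q)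
          ≤ ENNReal.ofReal v * ENNReal.ofReal H' + (49 ^ d : ℕ) * (49 ^ d : ℕ) *
            (ENNReal.ofReal q * ENNReal.ofReal q) := by
            gcongr
            exact (HB c _ h8).trans (ENNReal.ofReal_le_ofReal (le_max_left _ _))
        _ = ENNReal.ofReal (v * H' + N0 * (q * q)) := by
            have h49 : ((49 ^ d : ℕ) : ℝ≥0∞) = ENNReal.ofReal (49 ^ d) := by
              rw [← ENNReal.ofReal_natCast]; push_cast; rfl
            rw [h49, ← ENNReal.ofReal_mul hv0.le, ← ENNReal.ofReal_mul (by positivity),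
              ← ENNReal.ofReal_mul hq0.le, ← ENNReal.ofReal_mul (by positivity),
              ← ENNReal.ofReal_add (by positivity) (by positivity)]
        _ ≤ ENNReal.ofReal q := by
            refine ENNReal.ofReal_le_ofReal ?_
            have h2 : N0 * (q * q) = v * H' / 2 := by
              have : N0 * (q * q) = (v * H' * (8 * N0)) * (v * H') / 2 := by rw [hq]; ring
              rw [this, hvH, one_mul]
            rw [h2, hq]
            nlinarith [mul_pos hv0 (by linarith : (0 : ℝ) < H')]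
  have hbadp : ∀ k : ℕ, P {ω | ∃ κ ∈ Qs ξ ω, bad (0 : V d) (8 ^ k) κ} ≤ ENNReal.ofReal (v * H') := by
    intro k
    have h8 : 1 ≤ 8 ^ k := Nat.one_le_pow _ _ (by norm_num)
    refine (union_bound' P ξ _ w hp (bad (0 : V d) (8 ^ k))).trans ?_
    rw [ENNReal.ofReal_mul hv0.le]
    gcongr
    exact (HB 0 _ h8).trans (ENNReal.ofReal_le_ofReal (le_max_left _ _))
  -- percolation from the box
  set A : ℕ → Set Ω := fun k => {ω | ∃ y ∈ Bx (0 : V d) (8 ^ k),
    {z | conn (occ (Qs ξ ω)) y z}.Infinite} with hA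
  have hAmono : Monotone A := by
    intro a b hab ω hω
    obtain ⟨y, hy, hinf⟩ := hω
    refine ⟨y, ?_, hinf⟩
    rw [mem_Bx] at *
    intro j
    refine (hy j).trans ?_
    exact_mod_cast Nat.pow_le_pow_right (by norm_num) hab
  have hAP : ∀ k, P (A k) ≤ ENNReal.ofReal (3 / 8) := by
    intro k
    have hsub : A k ⊆ {ω | E (Qs ξ ω) 0 (8 ^ k)} ∪ {ω | ∃ κ ∈ Qs ξ ω, bad (0 : V d) (8 ^ k) κ} := by
      rintro ω ⟨y, hy, hinf⟩
      by_cases hb : ∃ κ ∈ Qs ξ ω, bad (0 : V d) (8 ^ k) κ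
      · exact Or.inr hb
      · left
        push Not at hb
        obtain ⟨z, hz, hzB⟩ := hinf.exists_notMem_finset (Bx (0 : V d) (2 * 8 ^ k))
        exact cross_local (Nat.one_le_pow _ _ (by norm_num)) hb ⟨y, z, hy, hzB, hz⟩
    refine (measure_mono hsub).trans ((measure_union_le _ _).trans ?_)
    refine (add_le_add (hstep k 0) (hbadp k)).trans ?_
    rw [← ENNReal.ofReal_add (by positivity) (by positivity)]
    refine ENNReal.ofReal_le_ofReal ?_
    have h3 : v * H' ≤ 1 / 8 := by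
      have : v * H' * 8 ≤ v * H' * (8 * N0) := by
        have := mul_pos hv0 (by linarith : (0 : ℝ) < H')
        nlinarith
      rw [hvH] at this
      linarith
    rw [hq]
    nlinarith
  have hperc : {ω | perc (occ (Qs ξ ω))} = ⋃ k, A k := by
    ext ω
    simp only [perc, Set.mem_ofPred_eq, Set.mem_iUnion, hA]
    constructor
    · rintro ⟨y, hy⟩
      refine ⟨(Finset.univ.sup fun j => (y j).natAbs), y, ?_, hy⟩
      rw [mem_Bx]
      intro j
      have h1 : (y j).natAbs ≤ Finset.univ.sup fun j => (y j).natAbs :=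
        Finset.le_sup (f := fun j => (y j).natAbs) (Finset.mem_univ j)
      have h2 : (Finset.univ.sup fun j => (y j).natAbs)
          < 8 ^ (Finset.univ.sup fun j => (y j).natAbs) := Nat.lt_pow_self (by norm_num)
      have h3 : ((y j).natAbs : ℤ) = |y j| := Int.natCast_natAbs _
      simp only [Pi.zero_apply, sub_zero]
      rw [← h3]
      exact_mod_cast (h1.trans h2.le)
    · rintro ⟨k, y, _, hy⟩
      exact ⟨y, hy⟩
  rcases zero_one P ξ hm hi with h0 | h1
  · exact h0
  · exfalso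
    rw [hperc, hAmono.measure_iUnion] at h1
    have : (1 : ℝ≥0∞) ≤ ENNReal.ofReal (3 / 8) := by
      rw [← h1]
      exact iSup_le hAP
    rw [ENNReal.one_le_ofReal] at this
    norm_num at this

end Prob

/-! ### Thinning for marks with a discrete law -/

section Thinning

variable {X M : Type} [MeasurableSpace M] [DiscreteMeasurableSpace M]

/-- the law of the marks: Poisson numbers and independent marks -/
def markedLaw (X : Type) {M : Type} [MeasurableSpace M] (v : NNReal) (ρ : Measure M)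
    [IsProbabilityMeasure ρ] : Measure ((X → ℕ) × (X × ℕ → M)) :=
  (Measure.infinitePi (fun _ : X => (poissonPMF v).toMeasure)).prod
    (Measure.infinitePi (fun _ : X × ℕ => ρ))

instance (v : NNReal) (ρ : Measure M) [IsProbabilityMeasure ρ] :
    IsProbabilityMeasure (markedLaw X v ρ) := by
  unfold markedLaw; infer_instance

theorem avoidM [Countable X] (v : NNReal) (ρ : Measure M)
    [IsProbabilityMeasure ρ] (J : Finset X) (A : X → Set M) :
    markedLaw X v ρ {ω | ∀ x ∈ J, ∀ i < ω.1 x, ω.2 (x, i) ∉ A x}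
      = ∏ x ∈ J, ENNReal.ofReal (Real.exp (-(v * (ρ (A x)).toReal))) := by
  classical
  unfold markedLaw
  have hms : MeasurableSet {ω : (X → ℕ) × (X × ℕ → M) | ∀ x ∈ J, ∀ i < ω.1 x,
      ω.2 (x, i) ∉ A x} := by
    have : {ω : (X → ℕ) × (X × ℕ → M) | ∀ x ∈ J, ∀ i < ω.1 x, ω.2 (x, i) ∉ A x}
        = ⋂ x ∈ J, ⋂ i : ℕ, ({ω | i < ω.1 x}ᶜ ∪ {ω | ω.2 (x, i) ∈ A x}ᶜ) := by
      ext ω
      simp only [Set.mem_ofPred_eq, Set.mem_iInter, Set.mem_union, Set.mem_compl_iff]
      constructor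
      · intro h x hx i
        by_cases hi : i < ω.1 x
        · exact Or.inr (h x hx i hi)
        · exact Or.inl hi
      · intro h x hx i hi
        rcases h x hx i with h1 | h1
        · exact absurd hi h1
        · exact h1
    rw [this]
    refine Finset.measurableSet_biInter J fun x _ => MeasurableSet.iInter fun i => ?_
    refine MeasurableSet.union (MeasurableSet.compl ?_) (MeasurableSet.compl ?_)
    · have h1 : Measurable (fun ω : (X → ℕ) × (X × ℕ → M) => ω.1 x) := by fun_prop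
      exact h1 (measurableSet_Ioi (a := i))
    · have h1 : Measurable (fun ω : (X → ℕ) × (X × ℕ → M) => ω.2 (x, i)) := by fun_prop
      exact h1 (MeasurableSet.of_discrete (s := A x))
  rw [Measure.prod_apply hms]
  have h1 : ∀ N : X → ℕ, (Measure.infinitePi (fun _ : X × ℕ => ρ))
      (Prod.mk N ⁻¹' {ω : (X → ℕ) × (X × ℕ → M) | ∀ x ∈ J, ∀ i < ω.1 x, ω.2 (x, i) ∉ A x})
      = ∏ x ∈ J, (1 - ρ (A x)) ^ (N x) := by
    intro N
    set J' : Finset (X × ℕ) := J.biUnion fun x => (Finset.range (N x)).image fun i => (x, i) with hJ'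
    have h2 : Prod.mk N ⁻¹' {ω : (X → ℕ) × (X × ℕ → M) | ∀ x ∈ J, ∀ i < ω.1 x, ω.2 (x, i) ∉ A x}
        = (J' : Set (X × ℕ)).pi fun j => (A j.1)ᶜ := by
      ext w
      simp only [Set.mem_preimage, Set.mem_ofPred_eq, hJ', Set.mem_pi, Finset.mem_coe,
        Finset.mem_biUnion, Finset.mem_image, Finset.mem_range, Set.mem_compl_iff]
      constructor
      · rintro h j ⟨x, hx, i, hi, rfl⟩
        exact h x hx i hi
      · intro h x hx i hi
        exact h (x, i) ⟨x, hx, i, hi, rfl⟩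
    rw [h2, Measure.infinitePi_pi _ fun j _ => MeasurableSet.of_discrete]
    rw [hJ', Finset.prod_biUnion]
    · refine Finset.prod_congr rfl fun x _ => ?_
      rw [Finset.prod_image (by intro a _ b _ h; simpa using h)]
      have h5 : ∀ i ∈ Finset.range (N x), ρ (A (x, i).1)ᶜ = 1 - ρ (A x) :=
        fun i _ => prob_compl_eq_one_sub (MeasurableSet.of_discrete (s := A x))
      rw [Finset.prod_congr rfl h5]
      simp
    · intro x _ y _ hxy
      simp only [Function.onFun]
      rw [Finset.disjoint_left]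
      intro j hj1 hj2
      rw [Finset.mem_image] at hj1 hj2
      obtain ⟨i, _, rfl⟩ := hj1
      obtain ⟨i', _, h⟩ := hj2
      simp only [Prod.mk.injEq] at h
      exact hxy h.1.symm
  simp_rw [h1]
  rw [lintegral_prod_eq_prod_lintegral_of_indepFun J
    (fun x (N : X → ℕ) => (1 - ρ (A x)) ^ (N x))
    (iIndepFun_infinitePi (P := fun _ : X => (poissonPMF v).toMeasure)
      (X := fun x n => (1 - ρ (A x)) ^ n)
      (fun x => measurable_from_nat))
    (fun x => (measurable_from_nat (f := fun n => (1 - ρ (A x)) ^ n)).comp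
      (measurable_pi_apply x))]
  refine Finset.prod_congr rfl fun x _ => ?_
  have h4 := lintegral_map (μ := Measure.infinitePi (fun _ : X => (poissonPMF v).toMeasure))
    (f := fun n => (1 - ρ (A x)) ^ n)
    (g := fun N : X → ℕ => N x) measurable_from_nat (measurable_pi_apply x)
  rw [Measure.infinitePi_map_eval] at h4
  rw [← h4]
  have h6 : ρ (A x) = ENNReal.ofReal (ρ (A x)).toReal :=
    (ENNReal.ofReal_toReal (measure_ne_top _ _)).symm
  conv_lhs => rw [h6]
  rw [poisson_gf v _ ENNReal.toReal_nonneg (by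
    have := ENNReal.toReal_mono (by simp) (prob_le_one (μ := ρ) (s := A x))
    simpa using this)]

variable (φ : X ≃ V d) (sh : M → Finset (V d))

/-- presence indicator of the animal `k.2` rooted at `k.1` -/
def xiM (k : V d × Finset (V d)) (ω : (X → ℕ) × (X × ℕ → M)) : Bool :=
  open Classical in decide (∃ i < ω.1 (φ.symm k.1), sh (ω.2 (φ.symm k.1, i)) = k.2)

theorem xiM_false_iff (k : V d × Finset (V d)) (ω : (X → ℕ) × (X × ℕ → M)) :
    xiM φ sh k ω = false ↔ ∀ i < ω.1 (φ.symm k.1), sh (ω.2 (φ.symm k.1, i)) ≠ k.2 := by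
  unfold xiM
  simp

theorem xiM_true_iff (k : V d × Finset (V d)) (ω : (X → ℕ) × (X × ℕ → M)) :
    xiM φ sh k ω = true ↔ ∃ i < ω.1 (φ.symm k.1), sh (ω.2 (φ.symm k.1, i)) = k.2 := by
  unfold xiM
  simp

/-- joint absence probabilities -/
theorem absentM [Countable X] (v : NNReal) (ρ : Measure M) [IsProbabilityMeasure ρ]
    (J : Finset (V d × Finset (V d))) :
    markedLaw X v ρ (⋂ k ∈ J, {ω | xiM φ sh k ω = false})
      = ∏ k ∈ J, ENNReal.ofReal (Real.exp (-(v * (ρ (sh ⁻¹' {k.2})).toReal))) := by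
  classical
  set B : X → Finset (Finset (V d)) := fun x => (J.filter fun k => φ.symm k.1 = x).image Prod.snd
    with hB
  have hset : (⋂ k ∈ J, {ω | xiM φ sh k ω = false})
      = {ω | ∀ x ∈ J.image (fun k => φ.symm k.1), ∀ i < ω.1 x,
          ω.2 (x, i) ∉ sh ⁻¹' ((B x : Finset (Finset (V d))) : Set (Finset (V d)))} := by
    ext ω
    simp only [Set.mem_iInter, Set.mem_ofPred_eq, Finset.mem_image, hB, Finset.coe_image,
      Finset.coe_filter, Set.mem_preimage, Set.mem_image, not_exists, not_and]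
    constructor
    · rintro h x ⟨k, hk, rfl⟩ i hi k' ⟨hk', hx⟩ heq
      have := (xiM_false_iff φ sh k' ω).mp (h k' hk')
      rw [hx] at this
      exact this i hi heq.symm
    · intro h k hk
      rw [xiM_false_iff]
      intro i hi heq
      exact h (φ.symm k.1) ⟨k, hk, rfl⟩ i hi k ⟨hk, rfl⟩ heq.symm
  rw [hset, avoidM v ρ _ fun x => sh ⁻¹' (B x : Set (Finset (V d)))]
  have hx : ∀ x ∈ J.image (fun k => φ.symm k.1),
      ENNReal.ofReal (Real.exp (-(v * (ρ (sh ⁻¹' (B x : Set (Finset (V d))))).toReal)))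
      = ∏ k ∈ J.filter (fun k => φ.symm k.1 = x),
        ENNReal.ofReal (Real.exp (-(v * (ρ (sh ⁻¹' {k.2})).toReal))) := by
    intro x _
    have h1 : ρ (sh ⁻¹' (B x : Set (Finset (V d)))) = ∑ A ∈ B x, ρ (sh ⁻¹' {A}) := by
      have h2 : sh ⁻¹' (B x : Set (Finset (V d))) = ⋃ A ∈ B x, sh ⁻¹' {A} := by
        ext s; simp
      rw [h2, measure_biUnion_finset]
      · intro A _ A' _ hne
        refine Set.disjoint_left.mpr fun s hs hs' => hne ?_
        simp only [Set.mem_preimage, Set.mem_singleton_iff] at hs hs'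
        rw [← hs, hs']
      · intro A _
        exact MeasurableSet.of_discrete
    rw [h1, ENNReal.toReal_sum (fun A _ => measure_ne_top _ _)]
    rw [← ENNReal.ofReal_prod_of_nonneg (fun k _ => (Real.exp_pos _).le), ← Real.exp_sum]
    congr 2
    rw [Finset.sum_neg_distrib, ← Finset.mul_sum, hB]
    dsimp only
    rw [Finset.sum_image]
    intro k hk k' hk' heq
    simp only [Finset.coe_filter, Set.mem_ofPred_eq] at hk hk'
    have h2 : k.1 = k'.1 := φ.symm.injective (hk.2.trans hk'.2.symm)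
    exact Prod.ext h2 heq
  rw [Finset.prod_congr rfl hx]
  exact Finset.prod_fiberwise_of_maps_to (fun k hk => Finset.mem_image_of_mem _ hk) _

theorem xiM_measurableSet (k : V d × Finset (V d)) :
    MeasurableSet {ω : (X → ℕ) × (X × ℕ → M) | xiM φ sh k ω = false} := by
  have : {ω : (X → ℕ) × (X × ℕ → M) | xiM φ sh k ω = false}
      = ⋂ i : ℕ, ({ω | i < ω.1 (φ.symm k.1)}ᶜ ∪
      {ω | ω.2 (φ.symm k.1, i) ∈ sh ⁻¹' {k.2}}ᶜ) := by
    ext ω
    simp only [Set.mem_ofPred_eq, Set.mem_iInter, Set.mem_union, Set.mem_compl_iff,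
      Set.mem_preimage, Set.mem_singleton_iff]
    rw [xiM_false_iff]
    constructor
    · intro h i
      by_cases hi : i < ω.1 (φ.symm k.1)
      · exact Or.inr (h i hi)
      · exact Or.inl hi
    · intro h i hi
      rcases h i with h1 | h1
      · exact absurd hi h1
      · exact h1
  rw [this]
  refine MeasurableSet.iInter fun i => MeasurableSet.union (MeasurableSet.compl ?_)
    (MeasurableSet.compl ?_)
  · have h1 : Measurable (fun ω : (X → ℕ) × (X × ℕ → M) => ω.1 (φ.symm k.1)) := by fun_prop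
    exact h1 (measurableSet_Ioi (a := i))
  · have h1 : Measurable (fun ω : (X → ℕ) × (X × ℕ → M) => ω.2 (φ.symm k.1, i)) := by fun_prop
    exact h1 (MeasurableSet.of_discrete (s := sh ⁻¹' {k.2}))

theorem xiM_measurable (k : V d × Finset (V d)) : Measurable (xiM (M := M) φ sh k) := by
  refine measurable_to_bool ?_
  have : xiM (M := M) φ sh k ⁻¹' {true} = {ω | xiM φ sh k ω = false}ᶜ := by
    ext ω; simp
  rw [this]
  exact (xiM_measurableSet φ sh k).compl

theorem xiM_prob [Countable X] (v : NNReal) (ρ : Measure M) [IsProbabilityMeasure ρ]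
    (k : V d × Finset (V d)) :
    markedLaw X v ρ {ω | xiM φ sh k ω = true}
      = ENNReal.ofReal (1 - Real.exp (-(v * (ρ (sh ⁻¹' {k.2})).toReal))) := by
  have h1 := absentM φ sh v ρ {k}
  simp only [Finset.mem_singleton, Set.iInter_iInter_eq_left, Finset.prod_singleton] at h1
  have h2 : {ω | xiM (M := M) φ sh k ω = true} = {ω | xiM φ sh k ω = false}ᶜ := by
    ext ω; simp
  rw [h2, prob_compl_eq_one_sub (xiM_measurableSet φ sh k), h1,
    ENNReal.ofReal_sub _ (Real.exp_pos _).le, ENNReal.ofReal_one]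

theorem xiM_indep [Countable X] (v : NNReal) (ρ : Measure M) [IsProbabilityMeasure ρ] :
    iIndepFun (xiM (M := M) φ sh) (markedLaw X v ρ) := by
  have h1 : iIndepSet (fun k => {ω | xiM (M := M) φ sh k ω = false}) (markedLaw X v ρ) := by
    rw [iIndepSet_iff_meas_biInter (xiM_measurableSet φ sh)]
    intro J
    rw [absentM φ sh v ρ J]
    refine Finset.prod_congr rfl fun k _ => ?_
    have h2 := absentM φ sh v ρ {k}
    simp only [Finset.mem_singleton, Set.iInter_iInter_eq_left, Finset.prod_singleton] at h2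
    exact h2.symm
  have h3 := iIndepSet.iIndepFun_indicator (β := ℕ) (m := Nat.instMeasurableSpace) h1
  have h4 := h3.comp (fun _ n => decide (n = 0)) (fun _ => measurable_from_nat)
  convert h4 using 1
  funext k ω
  simp only [Function.comp_apply, Set.indicator_apply, Set.mem_ofPred_eq]
  by_cases h : xiM φ sh k ω = false
  · rw [if_pos h, h]; simp
  · rw [if_neg h]
    simpa using h

/-- sum over keys against the law of the marks -/
theorem sum_keys [Countable M] (ρ : Measure M) [IsProbabilityMeasure ρ]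
    (G : V d × Finset (V d) → ℝ≥0∞) :
    ∑' k : V d × Finset (V d), ρ (sh ⁻¹' {k.2}) * G k
      = ∑' a : M, ρ {a} * ∑' x, G (x, sh a) := by
  classical
  have h1 : ∀ A : Finset (V d), ρ (sh ⁻¹' {A}) = ∑' a : M, ρ {a} * one? (sh a = A) := by
    intro A
    rw [← lintegral_indicator_one (MeasurableSet.of_discrete), lintegral_countable']
    refine tsum_congr fun a => ?_
    rw [mul_comm]
    congr 1
  rw [ENNReal.tsum_prod']
  have h2 : ∀ x : V d, ∑' A : Finset (V d), ρ (sh ⁻¹' {A}) * G (x, A)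
      = ∑' a : M, ρ {a} * G (x, sh a) := by
    intro x
    simp_rw [h1, ← ENNReal.tsum_mul_right]
    rw [ENNReal.tsum_comm]
    refine tsum_congr fun a => ?_
    rw [tsum_eq_single (sh a)]
    · rw [one?_true rfl, mul_one]
    · intro A hA
      rw [one?_false (fun h => hA h.symm), mul_zero, zero_mul]
  simp_rw [h2]
  rw [ENNReal.tsum_comm]
  refine tsum_congr fun a => ?_
  rw [ENNReal.tsum_mul_left]

end Thinning

end

end Pool.Agent.R958.Animal
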