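import Mathlib

/-!
Analytic part of the recursion for blocks with generic elements.
-/

set_option autoImplicit false

open MeasureTheory ProbabilityTheory Set Filter
open scoped ENNReal NNReal Topology

namespace Pool.Agent.R958.Grp

lemma exp_neg_le {y : ℝ} (hy : 0 ≤ y) : Real.exp (-y) ≤ 1 - y + y ^ 2 / 2 := by
  have h1 := Real.quadratic_le_exp_of_nonneg hy
  have h2 : 0 < 1 - y + y ^ 2 / 2 := by nlinarith [sq_nonneg (y - 1)]
  rw [Real.exp_neg, inv_le_comm₀ (Real.exp_pos y) h2]
  refine le_trans ?_ h1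
  rw [inv_le_iff_one_le_mul₀ h2]
  nlinarith [pow_nonneg hy 4]

/-- the pointwise estimate behind one step -/
lemma mix_le {k q X : ℝ} (hk0 : 0 ≤ k) (hk : k ≤ 1 / 2) (hq0 : 0 ≤ q) (hq1 : q ≤ 1) (hX : 0 ≤ X) :
    (1 - q) * Real.exp (-(X * (1 - k * q))) + q * Real.exp (-(X * (1 - k * q + k))) ≤
      Real.exp (-X) + 4 * k ^ 2 := by
  set y := k * X with hy
  have hy0 : 0 ≤ y := mul_nonneg hk0 hX
  have e1 : Real.exp (-(X * (1 - k * q))) = Real.exp (-X) * Real.exp (q * y) := by
    rw [← Real.exp_add]; congr 1; rw [hy]; ring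
  have e2 : Real.exp (-(X * (1 - k * q + k))) = Real.exp (-X) * (Real.exp (q * y) * Real.exp (-y)) := by
    rw [← Real.exp_add, ← Real.exp_add]; congr 1; rw [hy]; ring
  rw [e1, e2]
  have h1 : (1 - q) + q * Real.exp (-y) ≤ (1 - q * y) + y ^ 2 / 2 := by
    have := mul_le_mul_of_nonneg_left (exp_neg_le hy0) hq0
    nlinarith [sq_nonneg y]
  have h2 : (1 - q * y) * Real.exp (q * y) ≤ 1 := by
    have := Real.one_sub_le_exp_neg (q * y)
    have h3 := mul_le_mul_of_nonneg_right this (Real.exp_pos (q * y)).le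
    rwa [← Real.exp_add, neg_add_cancel, Real.exp_zero] at h3
  have h3 : Real.exp (q * y) ≤ Real.exp (X / 2) := by
    apply Real.exp_le_exp.mpr
    have : q * y ≤ y := by nlinarith
    have : y ≤ X / 2 := by rw [hy]; nlinarith
    linarith
  have h4 : Real.exp (q * y) * ((1 - q) + q * Real.exp (-y)) ≤ 1 + y ^ 2 / 2 * Real.exp (X / 2) := by
    calc Real.exp (q * y) * ((1 - q) + q * Real.exp (-y))
        ≤ Real.exp (q * y) * ((1 - q * y) + y ^ 2 / 2) :=
          mul_le_mul_of_nonneg_left h1 (Real.exp_pos _).le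
      _ = (1 - q * y) * Real.exp (q * y) + y ^ 2 / 2 * Real.exp (q * y) := by ring
      _ ≤ 1 + y ^ 2 / 2 * Real.exp (X / 2) := by
          apply add_le_add h2
          exact mul_le_mul_of_nonneg_left h3 (by positivity)
  have h5 : Real.exp (-X) * (y ^ 2 / 2 * Real.exp (X / 2)) ≤ 4 * k ^ 2 := by
    have e3 : Real.exp (-X) * (y ^ 2 / 2 * Real.exp (X / 2)) = k ^ 2 / 2 * (X ^ 2 * Real.exp (-(X / 2))) := by
      have : Real.exp (-X) * Real.exp (X / 2) = Real.exp (-(X / 2)) := by
        rw [← Real.exp_add]; congr 1; ring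
      rw [← this, hy]; ring
    rw [e3]
    have h6 : X ^ 2 * Real.exp (-(X / 2)) ≤ 8 := by
      have h7 := Real.quadratic_le_exp_of_nonneg (by positivity : 0 ≤ X / 2)
      have h8 : X ^ 2 ≤ 8 * Real.exp (X / 2) := by nlinarith
      calc X ^ 2 * Real.exp (-(X / 2)) ≤ 8 * Real.exp (X / 2) * Real.exp (-(X / 2)) :=
            mul_le_mul_of_nonneg_right h8 (Real.exp_pos _).le
        _ = 8 := by rw [mul_assoc, ← Real.exp_add, add_neg_cancel, Real.exp_zero, mul_one]
    nlinarith [sq_nonneg k]
  calc (1 - q) * (Real.exp (-X) * Real.exp (q * y)) + q * (Real.exp (-X) * (Real.exp (q * y) * Real.exp (-y)))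
      = Real.exp (-X) * (Real.exp (q * y) * ((1 - q) + q * Real.exp (-y))) := by ring
    _ ≤ Real.exp (-X) * (1 + y ^ 2 / 2 * Real.exp (X / 2)) :=
        mul_le_mul_of_nonneg_left h4 (Real.exp_pos _).le
    _ = Real.exp (-X) + Real.exp (-X) * (y ^ 2 / 2 * Real.exp (X / 2)) := by ring
    _ ≤ Real.exp (-X) + 4 * k ^ 2 := by linarith

/-- concavity of `u ↦ 1 - exp (-u c)` -/
lemma concave_le {r X : ℝ} (hr0 : 0 ≤ r) (hr1 : r ≤ 1) :
    r * (1 - Real.exp (-X)) ≤ 1 - Real.exp (-(r * X)) := by
  have h := convexOn_exp.2 (mem_univ (-X)) (mem_univ (0:ℝ)) hr0 (by linarith : 0 ≤ 1 - r) (by ring)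
  simp only [smul_eq_mul, mul_zero, add_zero, Real.exp_zero, mul_one] at h
  have e : r * -X = -(r * X) := by ring
  rw [e] at h
  linarith

section Laplace

variable {Ω : Type*} [MeasurableSpace Ω] (P : Measure Ω) [IsProbabilityMeasure P]

/-- the Laplace transform of a random size -/
noncomputable def lap (c : Ω → ℕ) (u : ℝ) : ℝ := ∫ ω, Real.exp (-(u * c ω)) ∂P

variable {P} {c : Ω → ℕ}

lemma integrable_exp (hc : Measurable c) {u : ℝ} (hu : 0 ≤ u) :
    Integrable (fun ω => Real.exp (-(u * c ω))) P := by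
  refine Integrable.of_bound (C := 1) ?_ ?_
  · apply Measurable.aestronglyMeasurable
    have : Measurable fun ω => (c ω : ℝ) := (measurable_from_top (f := fun n : ℕ => (n : ℝ))).comp hc
    fun_prop
  · refine Eventually.of_forall fun ω => ?_
    rw [Real.norm_of_nonneg (Real.exp_pos _).le]
    apply Real.exp_le_one_iff.mpr
    have : 0 ≤ u * c ω := by positivity
    linarith

lemma lap_mix (hc : Measurable c) {k q u : ℝ} (hk0 : 0 ≤ k) (hk : k ≤ 1 / 2) (hq0 : 0 ≤ q)
    (hq1 : q ≤ 1) (hu : 0 ≤ u) :
    (1 - q) * lap P c (u * (1 - k * q)) + q * lap P c (u * (1 - k * q + k)) ≤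
      lap P c u + 4 * k ^ 2 := by
  have hkq : 0 ≤ 1 - k * q := by nlinarith
  have i1 := integrable_exp (P := P) hc (mul_nonneg hu hkq)
  have i2 := integrable_exp (P := P) hc (mul_nonneg hu (by linarith : 0 ≤ 1 - k * q + k))
  have i3 := integrable_exp (P := P) hc hu
  unfold lap
  rw [← integral_const_mul, ← integral_const_mul, ← integral_add (i1.const_mul _) (i2.const_mul _)]
  have e : ∫ ω, Real.exp (-(u * c ω)) ∂P + 4 * k ^ 2 = ∫ ω, (Real.exp (-(u * c ω)) + 4 * k ^ 2) ∂P := by
    rw [integral_add i3 (integrable_const _)]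
    simp
  rw [e]
  refine integral_mono ((i1.const_mul _).add (i2.const_mul _)) (i3.add (integrable_const _)) ?_
  intro ω
  have h := mix_le hk0 hk hq0 hq1 (X := u * c ω) (by positivity)
  have e1 : u * (1 - k * q) * (c ω : ℝ) = u * c ω * (1 - k * q) := by ring
  have e2 : u * (1 - k * q + k) * (c ω : ℝ) = u * c ω * (1 - k * q + k) := by ring
  simp only
  rw [e1, e2]
  exact h

lemma lap_concave (hc : Measurable c) {r u : ℝ} (hr0 : 0 ≤ r) (hr1 : r ≤ 1) (hu : 0 ≤ u) :
    r * (1 - lap P c u) ≤ 1 - lap P c (r * u) := by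
  have i1 := integrable_exp (P := P) hc hu
  have i2 := integrable_exp (P := P) hc (mul_nonneg hr0 hu)
  have e1 : 1 - lap P c u = ∫ ω, (1 - Real.exp (-(u * c ω))) ∂P := by
    rw [integral_sub (integrable_const _) i1]; simp [lap]
  have e2 : 1 - lap P c (r * u) = ∫ ω, (1 - Real.exp (-(r * u * c ω))) ∂P := by
    rw [integral_sub (integrable_const _) i2]; simp [lap]
  rw [e1, e2, ← integral_const_mul]
  refine integral_mono (((integrable_const _).sub i1).const_mul _) ((integrable_const _).sub i2) ?_
  intro ω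
  have h := concave_le hr0 hr1 (X := u * c ω)
  simp only
  rw [mul_assoc]
  exact h

lemma lap_anti (hc : Measurable c) {u v : ℝ} (hu : 0 ≤ u) (huv : u ≤ v) :
    lap P c v ≤ lap P c u := by
  refine integral_mono (integrable_exp hc (hu.trans huv)) (integrable_exp hc hu) ?_
  intro ω
  apply Real.exp_le_exp.mpr
  have : u * (c ω : ℝ) ≤ v * c ω := mul_le_mul_of_nonneg_right huv (by positivity)
  linarith

omit [IsProbabilityMeasure P] in
lemma lap_nonneg (u : ℝ) : 0 ≤ lap P c u := integral_nonneg fun _ => (Real.exp_pos _).le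

/-- a large Laplace defect at a small argument forces large values -/
lemma large_of_lap (hc : Measurable c) {u : ℝ} (hu : 0 ≤ u) (N : ℕ) :
    1 - lap P c u - u * N ≤ P.real {ω | N ≤ c ω} := by
  have i1 := integrable_exp (P := P) hc hu
  have hm : MeasurableSet {ω | N ≤ c ω} := measurableSet_le measurable_const hc
  have e1 : 1 - lap P c u = ∫ ω, (1 - Real.exp (-(u * c ω))) ∂P := by
    rw [integral_sub (integrable_const _) i1]; simp [lap]
  have e2 : P.real {ω | N ≤ c ω} + u * N =
      ∫ ω, (indicator {ω | N ≤ c ω} (fun _ => (1:ℝ)) ω + u * N) ∂P := by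
    rw [integral_add ((integrable_const _).indicator hm) (integrable_const _),
      integral_indicator_const _ hm]
    simp
  have h : 1 - lap P c u ≤ P.real {ω | N ≤ c ω} + u * N := by
    rw [e1, e2]
    refine integral_mono ((integrable_const _).sub i1)
      (((integrable_const _).indicator hm).add (integrable_const _)) ?_
    intro ω
    simp only [Pi.add_apply]
    by_cases h : N ≤ c ω
    · rw [indicator_of_mem (by exact h)]
      have := Real.exp_pos (-(u * c ω))
      have : 0 ≤ u * N := by positivity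
      linarith
    · rw [indicator_of_notMem (by exact h), zero_add]
      have h1 := Real.one_sub_le_exp_neg (u * c ω)
      have h2 : u * (c ω : ℝ) ≤ u * N :=
        mul_le_mul_of_nonneg_left (by exact_mod_cast (not_le.mp h).le) hu
      linarith
  linarith

end Laplace

/-- the parameters of the recursion -/
noncomputable def kap (k : ℝ) (j : ℕ) : ℝ := k / (j + 1)

/-- the arguments of the recursion -/
noncomputable def useq (k th u0 : ℝ) : ℕ → ℝ
  | 0 => u0
  | j + 1 => useq k th u0 j / (1 + kap k j * th)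

section seq

variable {k th u0 : ℝ}

lemma kap_pos (hk : 0 < k) (j : ℕ) : 0 < kap k j := by unfold kap; positivity

lemma kap_le (hk : 0 < k) (j : ℕ) : kap k j ≤ k := by
  unfold kap
  apply div_le_self hk.le
  have : (0:ℝ) ≤ j := by positivity
  linarith

lemma useq_pos (hk : 0 < k) (hth : 0 < th) (hu : 0 < u0) (j : ℕ) : 0 < useq k th u0 j := by
  induction j with
  | zero => exact hu
  | succ n ih =>
    have := kap_pos hk n
    unfold useq
    positivity

lemma sum_kap_sq (j : ℕ) : ∑ i ∈ Finset.range j, kap k i ^ 2 ≤ 2 * k ^ 2 := by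
  have h : ∀ n : ℕ, ∑ i ∈ Finset.range (n + 1), kap k i ^ 2 ≤ (2 - 1 / ((n:ℝ) + 1)) * k ^ 2 := by
    intro n
    induction n with
    | zero =>
      simp [kap]
      linarith
    | succ n ih =>
      rw [Finset.sum_range_succ]
      have e : kap k (n + 1) ^ 2 = (1 / ((n:ℝ) + 1 + 1)) ^ 2 * k ^ 2 := by
        unfold kap; push_cast; ring
      rw [e]
      have h1 : (1 / ((n:ℝ) + 1 + 1)) ^ 2 ≤ 1 / ((n:ℝ) + 1) - 1 / ((n:ℝ) + 1 + 1) := by
        rw [div_sub_div _ _ (by positivity) (by positivity), one_div, inv_pow, inv_eq_one_div,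
          div_le_div_iff₀ (by positivity) (by positivity)]
        ring_nf
        have : (0:ℝ) ≤ n := by positivity
        nlinarith
      have h2 := mul_le_mul_of_nonneg_right h1 (sq_nonneg k)
      push_cast
      nlinarith
  cases j with
  | zero => simp; positivity
  | succ n =>
    refine (h n).trans ?_
    apply mul_le_mul_of_nonneg_right _ (sq_nonneg k)
    have : 0 ≤ 1 / ((n:ℝ) + 1) := by positivity
    linarith

lemma sum_b (hk : 0 < k) (hth : 0 < th) (hu : 0 < u0) (n : ℕ) :
    ∑ j ∈ Finset.range n, kap k j * useq k th u0 j ≤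
      (1 + k * th) * (u0 - useq k th u0 n) / th := by
  induction n with
  | zero => simp [useq]
  | succ n ih =>
    rw [Finset.sum_range_succ]
    have h0 := kap_pos hk n
    have h1 := useq_pos hk hth hu n
    have h2 := kap_le hk n
    have e : kap k n * useq k th u0 n =
        (useq k th u0 n - useq k th u0 (n + 1)) * (1 + kap k n * th) / th := by
      rw [useq]
      field_simp
      ring
    have h3 : 0 ≤ useq k th u0 n - useq k th u0 (n + 1) := by
      rw [useq, sub_nonneg]
      apply div_le_self h1.le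
      have : 0 < kap k n * th := by positivity
      linarith
    have h4 : kap k n * useq k th u0 n ≤
        (useq k th u0 n - useq k th u0 (n + 1)) * (1 + k * th) / th := by
      rw [e]
      gcongr
    calc _ ≤ (1 + k * th) * (u0 - useq k th u0 n) / th +
          (useq k th u0 n - useq k th u0 (n + 1)) * (1 + k * th) / th := add_le_add ih h4
      _ = _ := by ring

lemma useq_tendsto (hk : 0 < k) (hth : 0 < th) (hu : 0 < u0) :
    Tendsto (useq k th u0) atTop (𝓝 0) := by
  have h : ∀ n : ℕ, useq k th u0 n * (1 + th * ∑ i ∈ Finset.range n, kap k i) ≤ u0 := by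
    intro n
    induction n with
    | zero => simp [useq]
    | succ n ih =>
      refine le_trans ?_ ih
      rw [Finset.sum_range_succ, useq]
      have h0 := kap_pos hk n
      have h1 := useq_pos hk hth hu n
      set S := ∑ i ∈ Finset.range n, kap k i with hS
      have hS0 : 0 ≤ S := Finset.sum_nonneg fun i _ => (kap_pos hk i).le
      rw [div_mul_eq_mul_div, div_le_iff₀ (by positivity), mul_assoc]
      apply mul_le_mul_of_nonneg_left _ h1.le
      have : 0 ≤ th * S * (kap k n * th) := by positivity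
      nlinarith
  have hS : Tendsto (fun n => 1 + th * ∑ i ∈ Finset.range n, kap k i) atTop atTop := by
    apply tendsto_atTop_add_const_left
    apply Tendsto.const_mul_atTop hth
    have h1 := (Real.tendsto_sum_range_one_div_nat_succ_atTop).const_mul_atTop hk
    refine h1.congr fun n => ?_
    rw [Finset.mul_sum]
    refine Finset.sum_congr rfl fun i _ => ?_
    unfold kap
    ring
  have h2 : Tendsto (fun n => u0 / (1 + th * ∑ i ∈ Finset.range n, kap k i)) atTop (𝓝 0) :=
    Tendsto.div_atTop tendsto_const_nhds hS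
  refine squeeze_zero (fun n => (useq_pos hk hth hu n).le) (fun n => ?_) h2
  rw [le_div_iff₀]
  · exact h n
  · have : 0 ≤ ∑ i ∈ Finset.range n, kap k i := Finset.sum_nonneg fun i _ => (kap_pos hk i).le
    positivity

end seq

theorem lap_rec {Ω : Type*} [MeasurableSpace Ω] (P : Measure Ω) [IsProbabilityMeasure P]
    {c : ℕ → Ω → ℕ} (hc : ∀ j, Measurable (c j)) {k th u0 : ℝ} (hk : 0 < k) (hk2 : k ≤ 1 / 2)
    (hth : 0 < th) (hth1 : th ≤ 1) (hu : 0 < u0)
    (hstep : ∀ j v, 0 ≤ v → lap P (c (j + 1)) v ≤ lap P (c j) v -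
      (1 - lap P (c j) v) * (lap P (c j) v - lap P (c j) (v + kap k j * useq k th u0 j)))
    (h0 : lap P (c 0) u0 + 8 * k ^ 2 + th ≤ 1) (j : ℕ) :
    lap P (c j) (useq k th u0 j) ≤ 1 - th := by
  have h : ∀ j, lap P (c j) (useq k th u0 j) ≤
      lap P (c 0) u0 + 4 * ∑ i ∈ Finset.range j, kap k i ^ 2 := by
    intro j
    induction j with
    | zero => simp [useq]
    | succ n ih =>
      set u := useq k th u0 n with hudef
      have hupos : 0 < u := useq_pos hk hth hu n
      have hkn := kap_pos hk n
      have hkn2 := (kap_le hk n).trans hk2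
      set κ := kap k n with hκ
      have hle : lap P (c n) u ≤ 1 - th := by
        have := sum_kap_sq (k := k) n
        linarith
      set q := th / (1 + κ * th) with hq
      have hden : 0 < 1 + κ * th := by positivity
      have hq0 : 0 ≤ q := by positivity
      have hq1 : q ≤ 1 := by
        rw [hq, div_le_one hden]
        have : 0 < κ * th := by positivity
        linarith
      have hkq : 1 - κ * q = (1 + κ * th)⁻¹ := by
        rw [hq]; field_simp; ring
      have hu' : useq k th u0 (n + 1) = u * (1 - κ * q) := by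
        rw [useq, hkq, div_eq_mul_inv]
      have hv0 : 0 ≤ u * (1 - κ * q) := by rw [hkq]; positivity
      rw [Finset.sum_range_succ, hu']
      have h1 := hstep n _ hv0
      have e1 : u * (1 - κ * q) + κ * u = u * (1 - κ * q + κ) := by ring
      rw [← hudef, ← hκ, e1] at h1
      have h2 := lap_mix (P := P) (hc n) hkn.le hkn2 hq0 hq1 hupos.le
      have h3 : q ≤ 1 - lap P (c n) (u * (1 - κ * q)) := by
        have hr0 : 0 ≤ 1 - κ * q := by rw [hkq]; positivity
        have hr1 : 1 - κ * q ≤ 1 := by nlinarith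
        have h4 := lap_concave (P := P) (hc n) hr0 hr1 hupos.le
        rw [mul_comm] at h4
        rw [mul_comm u]
        refine le_trans ?_ h4
        rw [hkq, hq, div_eq_mul_inv]
        exact mul_le_mul_of_nonneg_right (by linarith) (by positivity)
      have h5 : 0 ≤ lap P (c n) (u * (1 - κ * q)) - lap P (c n) (u * (1 - κ * q + κ)) := by
        rw [sub_nonneg]
        apply lap_anti (hc n) hv0
        apply mul_le_mul_of_nonneg_left _ hupos.le
        linarith
      have h6 := mul_le_mul_of_nonneg_right h3 h5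
      linarith
  have := h j
  have := sum_kap_sq (k := k) j
  linarith

end Pool.Agent.R958.Grp
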