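import Mathlib
import Pool.Agent.R958.GrpA
import Pool.Agent.Results.MP_7c03a7_pr.DimGtOne

/-!
One step of the recursion: adding to a block all its translates along one generic element.
-/

set_option autoImplicit false

open MeasureTheory ProbabilityTheory Set Filter
open scoped ENNReal NNReal Topology

namespace Pool.Agent.R958.Grp

open Pool.Agent.Results.MP_7c03a7_pr.DimGtOne

section dep

variable {ι α β γ : Type*}

/-- `f` depends only on the coordinates in `S` -/
def DepOn (S : Finset ι) (f : (ι → ℕ) → α) : Prop :=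
  ∀ ω ω' : ι → ℕ, (∀ e ∈ S, ω e = ω' e) → f ω = f ω'

lemma DepOn.mono {S T : Finset ι} {f : (ι → ℕ) → α} (hf : DepOn S f) (h : S ⊆ T) : DepOn T f :=
  fun ω ω' hω => hf ω ω' fun e he => hω e (h he)

lemma DepOn.comp {S : Finset ι} {f : (ι → ℕ) → α} (hf : DepOn S f) (g : α → β) :
    DepOn S (fun ω => g (f ω)) := fun ω ω' hω => by simp only [hf ω ω' hω]

lemma DepOn.comp₂ {S : Finset ι} {f : (ι → ℕ) → α} {g : (ι → ℕ) → β} (hf : DepOn S f)
    (hg : DepOn S g) (F : α → β → γ) : DepOn S (fun ω => F (f ω) (g ω)) :=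
  fun ω ω' hω => by simp only [hf ω ω' hω, hg ω ω' hω]

lemma DepOn.exists_factor {S : Finset ι} {f : (ι → ℕ) → α} (hf : DepOn S f) :
    ∃ g : (S → ℕ) → α, f = fun ω => g (S.restrict ω) := by
  classical
  refine ⟨fun z => f (fun e => if h : e ∈ S then z ⟨e, h⟩ else 0), ?_⟩
  funext ω
  apply hf
  intro e he
  simp [he]

lemma DepOn.measurable [MeasurableSpace α] {S : Finset ι} {f : (ι → ℕ) → α} (hf : DepOn S f) :
    Measurable f := by
  obtain ⟨g, rfl⟩ := hf.exists_factor
  exact (measurable_of_countable g).comp (Finset.measurable_restrict S)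

lemma DepOn.indep {m : ι → Measure ℕ} [∀ i, IsProbabilityMeasure (m i)] {S T : Finset ι}
    (hST : Disjoint S T) [MeasurableSpace α] [MeasurableSpace β] {f : (ι → ℕ) → α}
    {g : (ι → ℕ) → β} (hf : DepOn S f) (hg : DepOn T g) :
    IndepFun f g (Measure.infinitePi m) := by
  obtain ⟨f', rfl⟩ := hf.exists_factor
  obtain ⟨g', rfl⟩ := hg.exists_factor
  have h := iIndepFun_infinitePi (P := m) (X := fun _ ω => ω) (fun _ => measurable_id)
  have h2 := h.indepFun_finset S T hST (fun i => measurable_pi_apply i)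
  exact h2.comp (measurable_of_countable f') (measurable_of_countable g')

lemma DepOn.integrable {m : ι → Measure ℕ} [∀ i, IsProbabilityMeasure (m i)] {S : Finset ι}
    {f : (ι → ℕ) → ℝ} (hf : DepOn S f) {C : ℝ} (hC : ∀ ω, |f ω| ≤ C) :
    Integrable f (Measure.infinitePi m) :=
  Integrable.of_bound hf.measurable.aestronglyMeasurable C (Eventually.of_forall hC)

end dep

variable {Γ : Type*}

/-- pairs inside a finite set -/
noncomputable def inside (B : Finset Γ) : Finset (Pair Γ) := by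
  classical exact (B.sym2).subtype (fun e => ¬ e.IsDiag)

lemma mem_inside {B : Finset Γ} {g h : Γ} (hne : ¬ (s(g, h)).IsDiag) :
    (⟨s(g, h), hne⟩ : Pair Γ) ∈ inside B ↔ g ∈ B ∧ h ∈ B := by
  classical
  unfold inside
  rw [Finset.mem_subtype, Finset.mk_mem_sym2_iff]

lemma adj_congr {ω ω' : Pair Γ → ℕ} {a b : Γ} (h : ∀ hne, ω ⟨s(a, b), hne⟩ = ω' ⟨s(a, b), hne⟩) :
    (openGraph ω).Adj a b ↔ (openGraph ω').Adj a b := by
  show (∃ hne : ¬ (s(a, b)).IsDiag, 0 < ω ⟨s(a, b), hne⟩) ↔
    (∃ hne : ¬ (s(a, b)).IsDiag, 0 < ω' ⟨s(a, b), hne⟩)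
  simp only [h]

/-- one open step inside `B` -/
def Stp (ω : Pair Γ → ℕ) (B : Finset Γ) (a b : Γ) : Prop := (openGraph ω).Adj a b ∧ a ∈ B ∧ b ∈ B

/-- the cluster of `x` inside `B` -/
noncomputable def cl (ω : Pair Γ → ℕ) (B : Finset Γ) (x : Γ) : Finset Γ := by
  classical exact B.filter (fun y => Relation.ReflTransGen (Stp ω B) x y)

lemma mem_cl {ω : Pair Γ → ℕ} {B : Finset Γ} {x y : Γ} :
    y ∈ cl ω B x ↔ y ∈ B ∧ Relation.ReflTransGen (Stp ω B) x y := by
  unfold cl
  classical exact Finset.mem_filter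

lemma dep_stp (B : Finset Γ) : DepOn (inside B) (fun ω => Stp ω B) := by
  intro ω ω' h
  funext a b
  unfold Stp
  rw [eq_iff_iff]
  constructor
  · rintro ⟨h1, h2, h3⟩
    exact ⟨(adj_congr fun hne => h _ ((mem_inside hne).2 ⟨h2, h3⟩)).1 h1, h2, h3⟩
  · rintro ⟨h1, h2, h3⟩
    exact ⟨(adj_congr fun hne => h _ ((mem_inside hne).2 ⟨h2, h3⟩)).2 h1, h2, h3⟩

lemma dep_cl (B : Finset Γ) (x : Γ) : DepOn (inside B) (fun ω => cl ω B x) := by
  intro ω ω' h
  have := dep_stp B ω ω' h
  simp only at this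
  ext y
  rw [mem_cl, mem_cl, this]

lemma self_mem_cl {ω : Pair Γ → ℕ} {B : Finset Γ} {x : Γ} (hx : x ∈ B) : x ∈ cl ω B x :=
  mem_cl.2 ⟨hx, Relation.ReflTransGen.refl⟩

lemma cl_subset (ω : Pair Γ → ℕ) (B : Finset Γ) (x : Γ) : cl ω B x ⊆ B :=
  fun _ hy => (mem_cl.1 hy).1

lemma stp_mono {ω : Pair Γ → ℕ} {B B' : Finset Γ} (h : B ⊆ B') {a b : Γ} (hab : Stp ω B a b) :
    Stp ω B' a b := ⟨hab.1, h hab.2.1, h hab.2.2⟩

lemma rtg_mono {ω : Pair Γ → ℕ} {B B' : Finset Γ} (h : B ⊆ B') {a b : Γ}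
    (hab : Relation.ReflTransGen (Stp ω B) a b) : Relation.ReflTransGen (Stp ω B') a b :=
  Relation.ReflTransGen.mono (fun _ _ h' => stp_mono h h') _ _ hab

lemma cl_mono {ω : Pair Γ → ℕ} {B B' : Finset Γ} (h : B ⊆ B') (x : Γ) :
    cl ω B x ⊆ cl ω B' x := by
  intro y hy
  rw [mem_cl] at hy ⊢
  exact ⟨h hy.1, rtg_mono h hy.2⟩

variable [Group Γ]

/-- left translation of pairs -/
def sh (y : Γ) (e : Pair Γ) : Pair Γ :=
  ⟨Sym2.map (y * ·) e.1, by
    obtain ⟨e, he⟩ := e
    induction e with | _ a b =>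
    rw [Sym2.map_mk, Sym2.mk_isDiag_iff]
    rw [Sym2.mk_isDiag_iff] at he
    exact fun h => he (mul_left_cancel h)⟩

lemma sh_inj (y : Γ) : Function.Injective (sh (Γ := Γ) y) := by
  intro e e' h
  have h1 : Sym2.map (y * ·) e.1 = Sym2.map (y * ·) e'.1 := congrArg Subtype.val h
  exact Subtype.ext (Sym2.map.injective (mul_right_injective y) h1)

lemma adj_sh (y : Γ) (ω : Pair Γ → ℕ) (a b : Γ) :
    (openGraph fun e => ω (sh y e)).Adj a b ↔ (openGraph ω).Adj (y * a) (y * b) := by
  show (∃ hne : ¬ (s(a, b)).IsDiag, 0 < ω (sh y ⟨s(a, b), hne⟩)) ↔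
    (∃ hne : ¬ (s(y * a, y * b)).IsDiag, 0 < ω ⟨s(y * a, y * b), hne⟩)
  constructor
  · rintro ⟨h1, h2⟩
    exact ⟨(sh y ⟨s(a, b), h1⟩).2, h2⟩
  · rintro ⟨h1, h2⟩
    refine ⟨?_, h2⟩
    rw [Sym2.mk_isDiag_iff] at h1 ⊢
    exact fun h => h1 (by rw [h])

lemma cl_translate [DecidableEq Γ] (y : Γ) (ω : Pair Γ → ℕ) (B : Finset Γ) :
    cl ω (B.image (y * ·)) y = (cl (fun e => ω (sh y e)) B 1).image (y * ·) := by
  have hst : ∀ a b, Stp ω (B.image (y * ·)) (y * a) (y * b) ↔ Stp (fun e => ω (sh y e)) B a b := by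
    intro a b
    unfold Stp
    rw [adj_sh]
    simp
  have hst' : ∀ a b, Stp ω (B.image (y * ·)) a b ↔
      Stp (fun e => ω (sh y e)) B (y⁻¹ * a) (y⁻¹ * b) := by
    intro a b
    rw [← hst]
    simp
  ext z
  rw [mem_cl]
  simp only [Finset.mem_image]
  constructor
  · rintro ⟨⟨w, hw, rfl⟩, h⟩
    refine ⟨w, mem_cl.2 ⟨hw, ?_⟩, rfl⟩
    have := Relation.ReflTransGen.lift (p := Stp (fun e => ω (sh y e)) B) (y⁻¹ * ·)
      (fun a b hab => (hst' a b).1 hab) _ _ h
    simp only [Function.onFun] at this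
    simpa using this
  · rintro ⟨w, hw, rfl⟩
    rw [mem_cl] at hw
    refine ⟨⟨w, hw.1, rfl⟩, ?_⟩
    have := Relation.ReflTransGen.lift (p := Stp ω (B.image (y * ·))) (y * ·)
      (fun a b hab => (hst a b).2 hab) _ _ hw.2
    simp only [Function.onFun] at this
    simpa using this

/-- pairs `{x, x n}` with `x ∈ C`, `n ∈ N` -/
noncomputable def cross (C N : Finset Γ) : Finset (Pair Γ) := by
  classical exact ((C ×ˢ N).image (fun p => s(p.1, p.1 * p.2))).subtype (fun e => ¬ e.IsDiag)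

lemma mem_cross {C N : Finset Γ} {e : Pair Γ} :
    e ∈ cross C N ↔ ∃ x ∈ C, ∃ n ∈ N, s(x, x * n) = e.1 := by
  classical
  unfold cross
  rw [Finset.mem_subtype, Finset.mem_image]
  constructor
  · rintro ⟨⟨x, n⟩, h, he⟩
    rw [Finset.mem_product] at h
    exact ⟨x, h.1, n, h.2, he⟩
  · rintro ⟨x, hx, n, hn, he⟩
    exact ⟨⟨x, n⟩, Finset.mem_product.2 ⟨hx, hn⟩, he⟩

/-- the block `B` and the elements `N` are in general position -/
structure Sep (B N : Finset Γ) : Prop where
  one_mem : (1 : Γ) ∈ B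
  sep : ∀ a ∈ B, ∀ n ∈ N, ∀ b ∈ B, a * n * b ∉ B

namespace Sep

variable {B N : Finset Γ} (h : Sep B N)

include h

lemma notMem {a n : Γ} (ha : a ∈ B) (hn : n ∈ N) : a * n ∉ B := by
  have := h.sep a ha n hn 1 h.one_mem
  rwa [mul_one] at this

lemma ne_one {n : Γ} (hn : n ∈ N) : n ≠ 1 := by
  rintro rfl
  have := h.notMem h.one_mem hn
  rw [mul_one] at this
  exact this h.one_mem

lemma disj_cross {C : Finset Γ} (hC : C ⊆ B) : Disjoint (inside B) (cross C N) := by
  rw [Finset.disjoint_left]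
  rintro e he1 he2
  obtain ⟨x, hx, n, hn, he⟩ := mem_cross.1 he2
  obtain ⟨e, hd⟩ := e
  simp only at he
  subst he
  exact h.notMem (hC hx) hn ((mem_inside hd).1 he1).2

lemma disj_translate [DecidableEq Γ] {a n : Γ} (ha : a ∈ B) (hn : n ∈ N) [DecidableEq (Pair Γ)] :
    Disjoint (inside B ∪ cross B N) (inside (B.image (a * n * ·))) := by
  rw [Finset.disjoint_left]
  rintro e he1 he2
  obtain ⟨e, hd⟩ := e
  induction e with | _ g k =>
  rw [mem_inside] at he2
  obtain ⟨h1, h2⟩ := he2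
  rw [Finset.mem_image] at h1 h2
  obtain ⟨b1, hb1, rfl⟩ := h1
  obtain ⟨b2, hb2, rfl⟩ := h2
  rcases Finset.mem_union.1 he1 with h3 | h3
  · exact h.sep a ha n hn b1 hb1 ((mem_inside hd).1 h3).1
  · obtain ⟨x, hx, n', hn', he⟩ := mem_cross.1 h3
    simp only [Sym2.eq_iff] at he
    rcases he with ⟨h4, _⟩ | ⟨h4, _⟩
    · exact h.sep a ha n hn b1 hb1 (h4 ▸ hx)
    · exact h.sep a ha n hn b2 hb2 (h4 ▸ hx)

end Sep

/-- choice of an element -/
noncomputable def pick (q : Γ → Prop) : Option Γ := by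
  classical exact if h : ∃ y, q y then some h.choose else none

omit [Group Γ] in
lemma pick_some {q : Γ → Prop} {y : Γ} (h : pick q = some y) : q y := by
  classical
  unfold pick at h
  split_ifs at h with h1
  rw [Option.some.injEq] at h
  rw [← h]
  exact h1.choose_spec

omit [Group Γ] in
lemma pick_none {q : Γ → Prop} : pick q = none ↔ ∀ y, ¬ q y := by
  classical
  unfold pick
  split_ifs with h1
  · simp only [false_iff, not_forall, not_not]
    exact h1
  · simp only [true_iff]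
    exact fun y hy => h1 ⟨y, hy⟩

/-- `y` is joined by a cross edge to the cluster of `1` in `B` -/
def Hit (ω : Pair Γ → ℕ) (B N : Finset Γ) (y : Γ) : Prop :=
  ∃ x ∈ cl ω B 1, ∃ n ∈ N, y = x * n ∧ (openGraph ω).Adj x y

lemma dep_hit [DecidableEq (Pair Γ)] (B N : Finset Γ) :
    DepOn (inside B ∪ cross B N) (fun ω => Hit ω B N) := by
  have key : ∀ ω ω' : Pair Γ → ℕ, (∀ e ∈ inside B ∪ cross B N, ω e = ω' e) →
      ∀ y, Hit ω B N y → Hit ω' B N y := by
    intro ω ω' h y hy
    have hcl : cl ω B 1 = cl ω' B 1 :=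
      dep_cl B 1 ω ω' fun e he => h e (Finset.mem_union_left _ he)
    obtain ⟨x, hx, n, hn, rfl, hadj⟩ := hy
    refine ⟨x, hcl ▸ hx, n, hn, rfl, (adj_congr fun hne => ?_).1 hadj⟩
    refine h _ (Finset.mem_union_right _ (mem_cross.2 ⟨x, cl_subset _ _ _ hx, n, hn, rfl⟩))
  intro ω ω' h
  funext y
  rw [eq_iff_iff]
  exact ⟨key ω ω' h y, key ω' ω (fun e he => (h e he).symm) y⟩

lemma hit_none {ω : Pair Γ → ℕ} {B N : Finset Γ} :
    pick (Hit ω B N) = none ↔ ∀ e ∈ cross (cl ω B 1) N, ω e = 0 := by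
  rw [pick_none]
  constructor
  · intro h e he
    obtain ⟨x, hx, n, hn, hxe⟩ := mem_cross.1 he
    by_contra h0
    obtain ⟨e, hd⟩ := e
    simp only at hxe
    subst hxe
    exact h (x * n) ⟨x, hx, n, hn, rfl, hd, Nat.pos_of_ne_zero h0⟩
  · rintro h y ⟨x, hx, n, hn, rfl, hd, hpos⟩
    have := h ⟨s(x, x * n), hd⟩ (mem_cross.2 ⟨x, hx, n, hn, rfl⟩)
    omega

section prob

variable (m : Pair Γ → Measure ℕ) [∀ e, IsProbabilityMeasure (m e)]

omit [Group Γ] in
lemma closed_prob (S : Finset (Pair Γ)) :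
    (Measure.infinitePi m).real {ω | ∀ e ∈ S, ω e = 0} = ∏ e ∈ S, (m e).real {0} := by
  have h := Measure.infinitePi_pi (μ := m) (s := S) (t := fun _ => {0}) (fun _ _ => measurableSet_singleton _)
  have e : {ω : Pair Γ → ℕ | ∀ e ∈ S, ω e = 0} = Set.pi S (fun _ => {0}) := by
    ext ω; simp
  unfold Measure.real
  rw [e, h, ENNReal.toReal_prod]

lemma cross_prob_le {B N C : Finset Γ} (h : Sep B N) (hC : C ⊆ B) {g : Γ → ℝ} {b : ℝ}
    (hg0 : ∀ n, 0 ≤ g n) (hg : ∀ x n (hd : ¬ (s(x, x * n)).IsDiag), (m ⟨s(x, x * n), hd⟩).real {0} = g n)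
    (hb : ∏ n ∈ N, g n ≤ Real.exp (-b)) :
    (Measure.infinitePi m).real {ω | ∀ e ∈ cross C N, ω e = 0} ≤ Real.exp (-(b * C.card)) := by
  rw [closed_prob]
  have hd : ∀ p ∈ C ×ˢ N, ¬ (s(p.1, p.1 * p.2)).IsDiag := by
    intro p hp
    rw [Sym2.mk_isDiag_iff]
    intro he
    have := h.ne_one (Finset.mem_product.1 hp).2
    exact this (by simpa using he)
  have e1 : ∏ p ∈ C ×ˢ N, g p.2 = ∏ e ∈ cross C N, (m e).real {0} := by
    refine Finset.prod_bij (fun p hp => ⟨s(p.1, p.1 * p.2), hd p hp⟩) ?_ ?_ ?_ ?_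
    · intro p hp
      exact mem_cross.2 ⟨p.1, (Finset.mem_product.1 hp).1, p.2, (Finset.mem_product.1 hp).2, rfl⟩
    · intro p hp p' hp' he
      have he' : s(p.1, p.1 * p.2) = s(p'.1, p'.1 * p'.2) := congrArg Subtype.val he
      rw [Finset.mem_product] at hp hp'
      rw [Sym2.eq_iff] at he'
      rcases he' with ⟨h1, h2⟩ | ⟨h1, h2⟩
      · rw [h1] at h2
        exact Prod.ext h1 (mul_left_cancel h2)
      · exact absurd (h1 ▸ hC hp.1) (h.notMem (hC hp'.1) hp'.2)
    · intro e he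
      obtain ⟨x, hx, n, hn, hxe⟩ := mem_cross.1 he
      exact ⟨(x, n), Finset.mem_product.2 ⟨hx, hn⟩, Subtype.ext hxe⟩
    · intro p hp
      exact (hg p.1 p.2 (hd p hp)).symm
  rw [← e1, Finset.prod_product]
  simp only [Finset.prod_const]
  calc (∏ n ∈ N, g n) ^ C.card ≤ (Real.exp (-b)) ^ C.card :=
        pow_le_pow_left₀ (Finset.prod_nonneg fun n _ => hg0 n) hb _
    _ = Real.exp (-(b * C.card)) := by
        rw [← Real.exp_nat_mul]; congr 1; ring

/-- the Laplace transform of the size of the cluster of `1` in the block `B` -/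
noncomputable def LB (B : Finset Γ) (u : ℝ) : ℝ :=
  lap (Measure.infinitePi m) (fun ω => (cl ω B 1).card) u

omit [Group Γ] in
lemma meas_card (B : Finset Γ) (x : Γ) : Measurable (fun ω : Pair Γ → ℕ => (cl ω B x).card) :=
  ((dep_cl B x).comp Finset.card).measurable

lemma none_le {B N : Finset Γ} (h : Sep B N) {g : Γ → ℝ} {b : ℝ}
    (hg0 : ∀ n, 0 ≤ g n) (hg : ∀ x n (hd : ¬ (s(x, x * n)).IsDiag), (m ⟨s(x, x * n), hd⟩).real {0} = g n)
    (hb : ∏ n ∈ N, g n ≤ Real.exp (-b)) {u : ℝ} (hu : 0 ≤ u) [DecidableEq (Option Γ)] :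
    ∫ ω, Real.exp (-(u * (cl ω B 1).card)) * (if pick (Hit ω B N) = none then 1 else 0)
      ∂(Measure.infinitePi m) ≤ LB m B (u + b) := by
  classical
  set P := Measure.infinitePi m with hP
  set F : Finset Γ → (Pair Γ → ℕ) → ℝ :=
    fun C0 ω => if cl ω B 1 = C0 then Real.exp (-(u * C0.card)) else 0 with hF
  set G : Finset Γ → (Pair Γ → ℕ) → ℝ :=
    fun C0 ω => if ∀ e ∈ cross C0 N, ω e = 0 then 1 else 0 with hG
  have hexp : ∀ n : ℕ, Real.exp (-(u * n)) ≤ 1 := fun n => by
    apply Real.exp_le_one_iff.mpr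
    have : 0 ≤ u * n := by positivity
    linarith
  have dF : ∀ C0, DepOn (inside B) (F C0) := fun C0 =>
    (dep_cl B 1).comp (fun C => if C = C0 then Real.exp (-(u * C0.card)) else 0)
  have dG : ∀ C0, DepOn (cross C0 N) (G C0) := by
    intro C0 ω ω' hω
    simp only [hG]
    have : (∀ e ∈ cross C0 N, ω e = 0) ↔ (∀ e ∈ cross C0 N, ω' e = 0) :=
      forall₂_congr fun e he => by rw [hω e he]
    simp only [this]
  have F0 : ∀ C0 ω, 0 ≤ F C0 ω := fun C0 ω => by simp only [hF]; split_ifs <;> positivity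
  have F1 : ∀ C0 ω, |F C0 ω| ≤ 1 := fun C0 ω => by
    rw [abs_of_nonneg (F0 C0 ω)]
    simp only [hF]; split_ifs
    · exact hexp _
    · norm_num
  have G1 : ∀ C0 ω, |G C0 ω| ≤ 1 := fun C0 ω => by
    simp only [hG]; split_ifs <;> simp
  have iF : ∀ C0, Integrable (F C0) P := fun C0 => (dF C0).integrable (F1 C0)
  have iG : ∀ C0, Integrable (G C0) P := fun C0 => (dG C0).integrable (G1 C0)
  have iFG : ∀ C0, Integrable (fun ω => F C0 ω * G C0 ω) P := fun C0 =>
    DepOn.integrable (S := inside B ∪ cross C0 N) (C := 1)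
      (((dF C0).mono Finset.subset_union_left).comp₂ ((dG C0).mono Finset.subset_union_right)
        (fun a b => a * b)) (fun ω => by
          rw [abs_mul]
          have := F1 C0 ω
          have := G1 C0 ω
          have := abs_nonneg (F C0 ω)
          have := abs_nonneg (G C0 ω)
          nlinarith)
  have e1 : ∀ ω, Real.exp (-(u * (cl ω B 1).card)) * (if pick (Hit ω B N) = none then 1 else 0) =
      ∑ C0 ∈ B.powerset, F C0 ω * G C0 ω := by
    intro ω
    rw [Finset.sum_eq_single (cl ω B 1)]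
    · simp only [hF, hG, if_true]
      simp only [hit_none]
    · intro C0 _ hne
      simp only [hF]
      rw [if_neg (Ne.symm hne), zero_mul]
    · intro hn
      exact absurd (Finset.mem_powerset.2 (cl_subset ω B 1)) hn
  simp_rw [e1]
  rw [integral_finsetSum _ (fun C0 _ => iFG C0)]
  have e2 : ∀ C0 ∈ B.powerset, ∫ ω, F C0 ω * G C0 ω ∂P ≤
      ∫ ω, F C0 ω * Real.exp (-(b * C0.card)) ∂P := by
    intro C0 hC0
    have hC := Finset.mem_powerset.1 hC0
    have hind : IndepFun (F C0) (G C0) P := DepOn.indep (h.disj_cross hC) (dF C0) (dG C0)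
    rw [hind.integral_fun_mul_eq_mul_integral (iF C0).aestronglyMeasurable
      (iG C0).aestronglyMeasurable, integral_mul_const]
    apply mul_le_mul_of_nonneg_left _ (integral_nonneg (F0 C0))
    have hm : MeasurableSet {ω : Pair Γ → ℕ | ∀ e ∈ cross C0 N, ω e = 0} := by
      have := (dG C0).measurable (measurableSet_singleton 1)
      have e3 : G C0 ⁻¹' {1} = {ω : Pair Γ → ℕ | ∀ e ∈ cross C0 N, ω e = 0} := by
        ext ω
        simp only [mem_preimage, mem_singleton_iff, hG, mem_ofPred_eq]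
        split_ifs with h1
        · simp only [true_iff]; exact h1
        · simp only [zero_ne_one, false_iff]; exact h1
      rwa [e3] at this
    have e4 : ∫ ω, G C0 ω ∂P = P.real {ω | ∀ e ∈ cross C0 N, ω e = 0} := by
      have : G C0 = indicator {ω : Pair Γ → ℕ | ∀ e ∈ cross C0 N, ω e = 0} (fun _ => (1:ℝ)) := by
        funext ω
        simp only [hG, indicator, mem_ofPred_eq]
      rw [this, integral_indicator_const _ hm, smul_eq_mul, mul_one]
    rw [e4]
    exact cross_prob_le m h hC hg0 hg hb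
  refine (Finset.sum_le_sum e2).trans (le_of_eq ?_)
  rw [← integral_finsetSum _ (fun C0 _ => (iF C0).mul_const _)]
  unfold LB lap
  refine integral_congr_ae (Eventually.of_forall fun ω => ?_)
  simp only
  rw [Finset.sum_eq_single (cl ω B 1)]
  · simp only [hF, if_true]
    rw [← Real.exp_add]
    congr 1
    ring
  · intro C0 _ hne
    simp only [hF]
    rw [if_neg (Ne.symm hne), zero_mul]
  · intro hn
    exact absurd (Finset.mem_powerset.2 (cl_subset ω B 1)) hn

lemma translate_lap [DecidableEq Γ] (hinv : ∀ y e, m (sh y e) = m e) (B : Finset Γ) (y : Γ) (u : ℝ) :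
    ∫ ω, Real.exp (-(u * (cl ω (B.image (y * ·)) y).card)) ∂(Measure.infinitePi m) = LB m B u := by
  have h1 : ∀ ω : Pair Γ → ℕ, (cl ω (B.image (y * ·)) y).card =
      (cl (fun e => ω (sh y e)) B 1).card := by
    intro ω
    rw [cl_translate]
    exact Finset.card_image_of_injective _ (mul_right_injective y)
  simp_rw [h1]
  have h2 := Measure.map_infinitePi_infinitePi_of_inj (P := m) (sh_inj y)
  have h3 : (fun i => m (sh y i)) = m := funext fun e => hinv y e
  rw [h3] at h2
  unfold LB lap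
  conv_rhs => rw [← h2]
  rw [integral_map]
  · exact (measurable_pi_lambda _ fun i => measurable_pi_apply _).aemeasurable
  · have : Measurable fun ω : Pair Γ → ℕ => Real.exp (-(u * (cl ω B 1).card)) :=
      ((dep_cl B 1).comp fun C => Real.exp (-(u * C.card))).measurable
    exact this.aestronglyMeasurable

/-- one step of the recursion -/
theorem step {B N B' : Finset Γ} (h : Sep B N) (hB : B ⊆ B')
    (hB' : ∀ a ∈ B, ∀ n ∈ N, ∀ c ∈ B, a * n * c ∈ B') {g : Γ → ℝ} {b : ℝ}
    (hinv : ∀ y e, m (sh y e) = m e)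
    (hg0 : ∀ n, 0 ≤ g n) (hg : ∀ x n (hd : ¬ (s(x, x * n)).IsDiag), (m ⟨s(x, x * n), hd⟩).real {0} = g n)
    (hb : ∏ n ∈ N, g n ≤ Real.exp (-b)) {u : ℝ} (hu : 0 ≤ u) :
    LB m B' u ≤ LB m B u - (1 - LB m B u) * (LB m B u - LB m B (u + b)) := by
  classical
  set P := Measure.infinitePi m with hP
  have hexp : ∀ n : ℕ, Real.exp (-(u * n)) ≤ 1 := fun n => by
    apply Real.exp_le_one_iff.mpr
    have : 0 ≤ u * n := by positivity
    linarith
  set Y : Finset Γ := (B ×ˢ N).image (fun p => p.1 * p.2) with hY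
  set E : (Pair Γ → ℕ) → ℝ := fun ω => Real.exp (-(u * (cl ω B 1).card)) with hE
  set A : Γ → (Pair Γ → ℕ) → ℝ := fun y ω =>
    E ω * (if pick (Hit ω B N) = some y then 1 else 0) with hA
  set Z : Γ → (Pair Γ → ℕ) → ℝ := fun y ω =>
    1 - Real.exp (-(u * (cl ω (B.image (y * ·)) y).card)) with hZ
  have dE : DepOn (inside B) E := (dep_cl B 1).comp fun C => Real.exp (-(u * C.card))
  have dA : ∀ y, DepOn (inside B ∪ cross B N) (A y) := fun y =>
    (dE.mono Finset.subset_union_left).comp₂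
      ((dep_hit B N).comp fun q => if pick q = some y then (1:ℝ) else 0) (fun a b => a * b)
  have dZ : ∀ y, DepOn (inside (B.image (y * ·))) (Z y) := fun y =>
    (dep_cl _ y).comp fun C => 1 - Real.exp (-(u * C.card))
  have E0 : ∀ ω, 0 ≤ E ω := fun ω => (Real.exp_pos _).le
  have E1 : ∀ ω, |E ω| ≤ 1 := fun ω => by rw [abs_of_nonneg (E0 ω)]; exact hexp _
  have A0 : ∀ y ω, 0 ≤ A y ω := fun y ω => by
    simp only [hA]
    have := E0 ω
    split_ifs <;> simp [this]
  have A1 : ∀ y ω, |A y ω| ≤ 1 := fun y ω => by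
    rw [abs_of_nonneg (A0 y ω)]
    simp only [hA]
    have := E1 ω
    rw [abs_of_nonneg (E0 ω)] at this
    split_ifs <;> simp [this]
  have Z0 : ∀ y ω, 0 ≤ Z y ω := fun y ω => sub_nonneg.2 (hexp _)
  have Z1 : ∀ y ω, |Z y ω| ≤ 1 := fun y ω => by
    rw [abs_of_nonneg (Z0 y ω)]
    exact sub_le_self _ (Real.exp_pos _).le
  have iE : Integrable E P := dE.integrable E1
  have iA : ∀ y, Integrable (A y) P := fun y => (dA y).integrable (A1 y)
  have iZ : ∀ y, Integrable (Z y) P := fun y => (dZ y).integrable (Z1 y)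
  have iAZ : ∀ y, Integrable (fun ω => A y ω * Z y ω) P := fun y =>
    DepOn.integrable (S := (inside B ∪ cross B N) ∪ inside (B.image (y * ·))) (C := 1)
      (((dA y).mono Finset.subset_union_left).comp₂ ((dZ y).mono Finset.subset_union_right)
        (fun a b => a * b)) (fun ω => by
          rw [abs_mul]
          have := A1 y ω
          have := Z1 y ω
          have := abs_nonneg (A y ω)
          have := abs_nonneg (Z y ω)
          nlinarith)
  -- pointwise bound
  have hpt : ∀ ω, Real.exp (-(u * (cl ω B' 1).card)) ≤ E ω - ∑ y ∈ Y, A y ω * Z y ω := by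
    intro ω
    have hsub : cl ω B 1 ⊆ cl ω B' 1 := cl_mono hB 1
    rcases hp : pick (Hit ω B N) with _ | y0
    · have : ∑ y ∈ Y, A y ω * Z y ω = 0 := by
        refine Finset.sum_eq_zero fun y _ => ?_
        simp only [hA, hp]
        simp
      rw [this, sub_zero]
      apply Real.exp_le_exp.mpr
      have h1 : ((cl ω B 1).card : ℝ) ≤ (cl ω B' 1).card := by
        exact_mod_cast Finset.card_le_card hsub
      nlinarith
    · obtain ⟨x, hx, n, hn, rfl, hadj⟩ := pick_some hp
      have hxB := cl_subset _ _ _ hx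
      have hyY : x * n ∈ Y := Finset.mem_image.2 ⟨(x, n), Finset.mem_product.2 ⟨hxB, hn⟩, rfl⟩
      have hs : ∑ y ∈ Y, A y ω * Z y ω = E ω * Z (x * n) ω := by
        rw [Finset.sum_eq_single_of_mem _ hyY]
        · simp only [hA, hp, if_true, mul_one]
        · intro y _ hne
          simp only [hA, hp]
          rw [if_neg, mul_zero, zero_mul]
          intro he
          exact hne (Option.some.inj he).symm
      rw [hs]
      have hBy : B.image (x * n * ·) ⊆ B' := by
        intro z hz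
        obtain ⟨c, hc, rfl⟩ := Finset.mem_image.1 hz
        exact hB' x hxB n hn c hc
      have hxn : x * n ∈ B.image (x * n * ·) := Finset.mem_image.2 ⟨1, h.one_mem, mul_one _⟩
      have hsub2 : cl ω (B.image (x * n * ·)) (x * n) ⊆ cl ω B' 1 := by
        intro z hz
        rw [mem_cl] at hz ⊢
        refine ⟨hBy hz.1, ?_⟩
        have h1 := (mem_cl.1 hx).2
        have h2 : Stp ω B' x (x * n) := ⟨hadj, hB hxB, hBy hxn⟩
        exact ((rtg_mono hB h1).tail h2).trans (rtg_mono hBy hz.2)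
      have hdisj : Disjoint (cl ω B 1) (cl ω (B.image (x * n * ·)) (x * n)) := by
        rw [Finset.disjoint_left]
        intro z hz1 hz2
        obtain ⟨c, hc, rfl⟩ := Finset.mem_image.1 (cl_subset _ _ _ hz2)
        exact h.sep x hxB n hn c hc (cl_subset _ _ _ hz1)
      have hcard : (cl ω B 1).card + (cl ω (B.image (x * n * ·)) (x * n)).card ≤
          (cl ω B' 1).card := by
        rw [← Finset.card_union_of_disjoint hdisj]
        exact Finset.card_le_card (Finset.union_subset hsub hsub2)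
      have hcard' : ((cl ω B 1).card : ℝ) + (cl ω (B.image (x * n * ·)) (x * n)).card ≤
          (cl ω B' 1).card := by exact_mod_cast hcard
      have e5 : E ω - E ω * Z (x * n) ω = Real.exp (-(u * ((cl ω B 1).card +
          (cl ω (B.image (x * n * ·)) (x * n)).card))) := by
        simp only [hE, hZ]
        rw [mul_sub, mul_one, sub_sub_cancel, ← Real.exp_add]
        congr 1
        ring
      rw [e5]
      apply Real.exp_le_exp.mpr
      nlinarith
  have iL : Integrable (fun ω => Real.exp (-(u * (cl ω B' 1).card))) P :=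
    integrable_exp (meas_card B' 1) hu
  have hint : LB m B' u ≤ ∫ ω, (E ω - ∑ y ∈ Y, A y ω * Z y ω) ∂P := by
    refine integral_mono iL (iE.sub (integrable_finsetSum _ fun y _ => iAZ y)) ?_
    exact hpt
  rw [integral_sub iE (integrable_finsetSum _ fun y _ => iAZ y),
    integral_finsetSum _ (fun y _ => iAZ y)] at hint
  have hprod : ∀ y ∈ Y, ∫ ω, A y ω * Z y ω ∂P = (∫ ω, A y ω ∂P) * (1 - LB m B u) := by
    intro y hy
    obtain ⟨⟨x, n⟩, hp, rfl⟩ := Finset.mem_image.1 hy
    rw [Finset.mem_product] at hp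
    have hind : IndepFun (A (x * n)) (Z (x * n)) P :=
      DepOn.indep (h.disj_translate hp.1 hp.2) (dA _) (dZ _)
    rw [hind.integral_fun_mul_eq_mul_integral (iA _).aestronglyMeasurable
      (iZ _).aestronglyMeasurable]
    congr 1
    have iT : Integrable (fun ω => Real.exp (-(u * (cl ω (B.image (x * n * ·)) (x * n)).card))) P :=
      integrable_exp (meas_card _ _) hu
    simp only [hZ]
    rw [integral_sub (integrable_const _) iT, translate_lap m hinv B (x * n) u]
    simp
  rw [Finset.sum_congr rfl hprod, ← Finset.sum_mul, ← integral_finsetSum _ (fun y _ => iA y)] at hint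
  have hAsum : ∀ ω, ∑ y ∈ Y, A y ω = E ω - E ω * (if pick (Hit ω B N) = none then 1 else 0) := by
    intro ω
    rcases hp : pick (Hit ω B N) with _ | y0
    · simp only [hA, hp]
      simp
    · obtain ⟨x, hx, n, hn, rfl, hadj⟩ := pick_some hp
      have hxB := cl_subset _ _ _ hx
      have hyY : x * n ∈ Y := Finset.mem_image.2 ⟨(x, n), Finset.mem_product.2 ⟨hxB, hn⟩, rfl⟩
      rw [Finset.sum_eq_single_of_mem _ hyY]
      · simp only [hA, hp]
        simp
      · intro y _ hne
        simp only [hA, hp]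
        rw [if_neg, mul_zero]
        intro he
        exact hne (Option.some.inj he).symm
  have iN : Integrable (fun ω => E ω * (if pick (Hit ω B N) = none then 1 else 0)) P := by
    refine DepOn.integrable (S := inside B ∪ cross B N) (C := 1)
      ((dE.mono Finset.subset_union_left).comp₂
      ((dep_hit B N).comp fun q => if pick q = none then (1:ℝ) else 0) (fun a b => a * b)) ?_
    intro ω
    have := E1 ω
    split_ifs <;> simp [this]
  simp_rw [hAsum] at hint
  rw [integral_sub iE iN] at hint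
  have h6 := none_le m h hg0 hg hb hu
  have h7 : ∫ ω, E ω ∂P = LB m B u := rfl
  rw [h7] at hint
  have h8 : LB m B u ≤ 1 := by
    rw [← h7]
    calc ∫ ω, E ω ∂P ≤ ∫ _, (1:ℝ) ∂P := integral_mono iE (integrable_const _) fun ω => hexp _
      _ = 1 := by simp
  have h9 : (LB m B u - LB m B (u + b)) * (1 - LB m B u) ≤
      (LB m B u - ∫ ω, E ω * (if pick (Hit ω B N) = none then 1 else 0) ∂P) * (1 - LB m B u) := by
    apply mul_le_mul_of_nonneg_right _ (by linarith)
    linarith
  linarith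

end prob

end Pool.Agent.R958.Grp
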