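import Mathlib
import Pool.Agent.R958.GrpB
import Pool.Agent.Results.MP_9aa340_pr.FiniteThreshold

/-!
Generating measures with critical parameter close to one, on every infinite countable group.
-/

set_option autoImplicit false

open MeasureTheory ProbabilityTheory Set Filter
open scoped ENNReal NNReal Topology

namespace Pool.Agent.R958.Grp

open Pool.Agent.Results.MP_7c03a7_pr.DimGtOne

variable {Γ : Type*} [Group Γ]

section blocks

variable [Infinite Γ]

lemma exists_sep (B : Finset Γ) : ∃ s : Γ, ∀ a ∈ B, ∀ b ∈ B, a * s * b ∉ B ∧ a * s⁻¹ * b ∉ B := by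
  classical
  set T : Finset Γ := ((B ×ˢ B) ×ˢ B).image (fun p => p.1.1⁻¹ * p.2 * p.1.2⁻¹) with hT
  obtain ⟨s, hs⟩ := Infinite.exists_notMem_finset (T ∪ T.image (·⁻¹))
  rw [Finset.mem_union, not_or] at hs
  refine ⟨s, fun a ha b hb => ⟨fun h => hs.1 ?_, fun h => hs.2 ?_⟩⟩
  · refine Finset.mem_image.2 ⟨((a, b), a * s * b), ?_, ?_⟩
    · simp [ha, hb, h]
    · simp only
      group
  · refine Finset.mem_image.2 ⟨s⁻¹, Finset.mem_image.2 ⟨((a, b), a * s⁻¹ * b), ?_, ?_⟩, inv_inv s⟩
    · simp [ha, hb, h]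
    · simp only
      group

/-- a generic element for the block `B` -/
noncomputable def elt (B : Finset Γ) : Γ := (exists_sep B).choose

/-- the generic element and its inverse -/
noncomputable def nbs (B : Finset Γ) : Finset Γ := by
  classical exact {elt B, (elt B)⁻¹}

lemma mem_nbs {B : Finset Γ} {n : Γ} : n ∈ nbs B ↔ n = elt B ∨ n = (elt B)⁻¹ := by
  classical
  unfold nbs
  rw [Finset.mem_insert, Finset.mem_singleton]

/-- the next block -/
noncomputable def nxt (B : Finset Γ) : Finset Γ := by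
  classical exact B ∪ ((B ×ˢ nbs B) ×ˢ B).image (fun p => p.1.1 * p.1.2 * p.2)

/-- the blocks -/
noncomputable def blk (Γ : Type*) [Group Γ] [Infinite Γ] : ℕ → Finset Γ
  | 0 => {1}
  | n + 1 => nxt (blk Γ n)

lemma subset_nxt (B : Finset Γ) : B ⊆ nxt B := by
  classical
  unfold nxt
  exact Finset.subset_union_left

lemma mem_nxt {B : Finset Γ} {a n c : Γ} (ha : a ∈ B) (hn : n ∈ nbs B) (hc : c ∈ B) :
    a * n * c ∈ nxt B := by
  classical
  unfold nxt
  refine Finset.mem_union_right _ (Finset.mem_image.2 ⟨((a, n), c), ?_, rfl⟩)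
  simp [ha, hn, hc]

lemma sep_blk (j : ℕ) : Sep (blk Γ j) (nbs (blk Γ j)) := by
  refine ⟨?_, ?_⟩
  · induction j with
    | zero => exact Finset.mem_singleton_self _
    | succ n ih => exact subset_nxt _ ih
  · intro a ha n hn b hb
    have h := (exists_sep (blk Γ j)).choose_spec a ha b hb
    rcases mem_nbs.1 hn with rfl | rfl
    · exact h.1
    · exact h.2

/-- positive probability of an infinite component -/
theorem perc (m : Pair Γ → Measure ℕ) [∀ e, IsProbabilityMeasure (m e)]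
    (hinv : ∀ y e, m (sh y e) = m e) {g : Γ → ℝ}
    (hg0 : ∀ n, 0 ≤ g n) (hg : ∀ x n (hd : ¬ (s(x, x * n)).IsDiag), (m ⟨s(x, x * n), hd⟩).real {0} = g n)
    {k th u0 : ℝ} (hk : 0 < k) (hk2 : k ≤ 1 / 2) (hth : 0 < th) (hth1 : th ≤ 1) (hu : 0 < u0)
    (hb : ∀ j, ∏ n ∈ nbs (blk Γ j), g n ≤ Real.exp (-(kap k j * useq k th u0 j)))
    (h0 : Real.exp (-u0) + 8 * k ^ 2 + th ≤ 1) :
    Measure.infinitePi m {ω | HasInfiniteComponent (openGraph ω)} ≠ 0 := by
  classical
  set P := Measure.infinitePi m with hP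
  set c : ℕ → (Pair Γ → ℕ) → ℕ := fun j ω => (cl ω (blk Γ j) 1).card with hc
  have hcm : ∀ j, Measurable (c j) := fun j => meas_card _ _
  have hlap0 : lap P (c 0) u0 = Real.exp (-u0) := by
    have : ∀ ω, c 0 ω = 1 := by
      intro ω
      have h1 : cl ω (blk Γ 0) 1 = {1} := by
        refine Finset.Subset.antisymm (cl_subset _ _ _) ?_
        rw [Finset.singleton_subset_iff]
        exact self_mem_cl (Finset.mem_singleton_self _)
      simp only [hc, h1, Finset.card_singleton]
    unfold lap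
    simp only [this]
    simp
  have hmain : ∀ j, lap P (c j) (useq k th u0 j) ≤ 1 - th := by
    intro j
    refine lap_rec P hcm hk hk2 hth hth1 hu ?_ ?_ j
    · intro j v hv
      exact step m (sep_blk j) (subset_nxt _) (fun a ha n hn c hc => mem_nxt ha hn hc) hinv hg0 hg
        (hb j) hv
    · rw [hlap0]; exact h0
  set T : ℕ → Set (Pair Γ → ℕ) := fun N => ⋃ j, {ω | N ≤ c j ω} with hT
  have hTm : ∀ N, MeasurableSet (T N) := fun N =>
    MeasurableSet.iUnion fun j => measurableSet_le measurable_const (hcm j)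
  have hTP : ∀ N, ENNReal.ofReal (th / 2) ≤ P (T N) := by
    intro N
    have h1 := (useq_tendsto hk hth hu).mul_const (N : ℝ)
    rw [zero_mul] at h1
    obtain ⟨j, hj⟩ := (h1.eventually (gt_mem_nhds (half_pos hth))).exists
    have h2 := large_of_lap (P := P) (hcm j) (useq_pos hk hth hu j).le N
    have h3 := hmain j
    have h4 : th / 2 ≤ P.real {ω | N ≤ c j ω} := by linarith
    calc ENNReal.ofReal (th / 2) ≤ ENNReal.ofReal (P.real {ω | N ≤ c j ω}) :=
          ENNReal.ofReal_le_ofReal h4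
      _ = P {ω | N ≤ c j ω} := ENNReal.ofReal_toReal (measure_ne_top _ _)
      _ ≤ P (T N) := measure_mono (subset_iUnion (fun j => {ω | N ≤ c j ω}) j)
  have hTanti : Antitone T := by
    intro N M hNM ω hω
    obtain ⟨j, hj⟩ := mem_iUnion.1 hω
    exact mem_iUnion.2 ⟨j, le_trans hNM hj⟩
  have hInt : ENNReal.ofReal (th / 2) ≤ P (⋂ N, T N) := by
    rw [hTanti.measure_iInter (fun N => (hTm N).nullMeasurableSet) ⟨0, measure_ne_top _ _⟩]
    exact le_iInf hTP
  have hsub : (⋂ N, T N) ⊆ {ω | HasInfiniteComponent (openGraph ω)} := by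
    intro ω hω
    refine ⟨(openGraph ω).connectedComponentMk 1, fun hfin => ?_⟩
    obtain ⟨j, hj⟩ := mem_iUnion.1 (mem_iInter.1 hω (hfin.toFinset.card + 1))
    have h1 : cl ω (blk Γ j) 1 ⊆ hfin.toFinset := by
      intro y hy
      rw [Set.Finite.mem_toFinset, SimpleGraph.ConnectedComponent.mem_supp_iff]
      have h2 := (mem_cl.1 hy).2
      have h3 : (openGraph ω).Reachable 1 y := by
        induction h2 with
        | refl => exact SimpleGraph.Reachable.refl _
        | tail _ h4 ih =>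
          refine (ih (mem_cl.2 ⟨h4.2.1, by assumption⟩)).trans h4.1.reachable
      exact (SimpleGraph.ConnectedComponent.sound h3).symm
    have h2 := Finset.card_le_card h1
    have h3 : hfin.toFinset.card + 1 ≤ (cl ω (blk Γ j) 1).card := hj
    omega
  intro h
  have := hInt.trans ((measure_mono hsub).trans h.le)
  have h5 : 0 < ENNReal.ofReal (th / 2) := ENNReal.ofReal_pos.2 (by linarith)
  exact absurd this (not_le.2 h5)

end blocks

/-- admissible parameters -/
lemma exists_params {l : ℝ} (hl : 1 < l) : ∃ k th u0 : ℝ, 0 < k ∧ k ≤ 1 / 2 ∧ 0 < th ∧ th ≤ 1 ∧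
    0 < u0 ∧ Real.exp (-u0) + 8 * k ^ 2 + th ≤ 1 ∧ (1 + k * th) * u0 / th < l := by
  obtain ⟨v, hv0, hv1, hv2⟩ : ∃ v : ℝ, 0 < v ∧ v ≤ 1 / 20 ∧ 1 + v < l * (1 - 17 / 2 * v) := by
    refine ⟨min (1 / 20) ((l - 1) / (20 * l)), ?_, min_le_left _ _, ?_⟩
    · apply lt_min (by norm_num)
      apply div_pos (by linarith) (by linarith)
    · set v := min (1 / 20) ((l - 1) / (20 * l))
      have h1 : v ≤ (l - 1) / (20 * l) := min_le_right _ _
      rw [le_div_iff₀ (by linarith)] at h1
      have h2 : v ≤ 1 / 20 := min_le_left _ _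
      have h3 : 0 < v := lt_min (by norm_num) (div_pos (by linarith) (by linarith))
      nlinarith
  have hth0 : 0 < v - v ^ 2 / 2 - 8 * v ^ 2 := by nlinarith
  refine ⟨v, v - v ^ 2 / 2 - 8 * v ^ 2, v, hv0, by linarith, hth0, by nlinarith, hv0, ?_, ?_⟩
  · have := exp_neg_le hv0.le
    linarith
  · rw [div_lt_iff₀ hth0]
    set th := v - v ^ 2 / 2 - 8 * v ^ 2 with hth
    have h1 : th ≤ 1 := by nlinarith
    have h2 : v * th ≤ v := by nlinarith
    have h3 : th = v * (1 - 17 / 2 * v) := by rw [hth]; ring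
    calc (1 + v * th) * v ≤ (1 + v) * v := by nlinarith
      _ < l * (1 - 17 / 2 * v) * v := by nlinarith
      _ = l * th := by rw [h3]; ring

section measure

/-- weights of the mixture -/
noncomputable def wseq (a : ℕ → ℝ≥0∞) (ha : ∑' j, a j ≤ 1) : PMF ℕ :=
  ⟨fun n => Nat.casesOn n (1 - ∑' j, a j) a, by
    have h : ∑' n : ℕ, (Nat.casesOn n (1 - ∑' j, a j) a : ℝ≥0∞) = 1 := by
      rw [tsum_eq_zero_add' ENNReal.summable]
      exact tsub_add_cancel_of_le ha
    have h2 : HasSum (fun n : ℕ => (Nat.casesOn n (1 - ∑' j, a j) a : ℝ≥0∞))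
        (∑' n : ℕ, (Nat.casesOn n (1 - ∑' j, a j) a : ℝ≥0∞)) := ENNReal.summable.hasSum
    rw [h] at h2
    exact h2⟩

lemma wseq_zero (a : ℕ → ℝ≥0∞) (ha : ∑' j, a j ≤ 1) : wseq a ha 0 = 1 - ∑' j, a j := rfl

lemma wseq_succ (a : ℕ → ℝ≥0∞) (ha : ∑' j, a j ≤ 1) (j : ℕ) : wseq a ha (j + 1) = a j := rfl

variable [Infinite Γ]

lemma nbs_nonempty (B : Finset Γ) : (nbs B).Nonempty := ⟨elt B, mem_nbs.2 (Or.inl rfl)⟩

/-- components of the mixture -/
noncomputable def comps (ν : GeneratingMeasure Γ) (n : ℕ) : PMF Γ :=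
  Nat.casesOn n ν.mass fun j => PMF.uniformOfFinset (nbs (blk Γ j)) (nbs_nonempty _)

/-- the mixture -/
noncomputable def gen (ν : GeneratingMeasure Γ) (a : ℕ → ℝ≥0∞) (ha : ∑' j, a j < 1) :
    GeneratingMeasure Γ where
  mass := (wseq a ha.le).bind (comps ν)
  symm g := by
    rw [PMF.bind_apply, PMF.bind_apply]
    refine tsum_congr fun n => ?_
    congr 1
    cases n with
    | zero => exact ν.symm g
    | succ j =>
      show PMF.uniformOfFinset (nbs (blk Γ j)) (nbs_nonempty _) g =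
        PMF.uniformOfFinset (nbs (blk Γ j)) (nbs_nonempty _) g⁻¹
      classical
      rw [PMF.uniformOfFinset_apply, PMF.uniformOfFinset_apply]
      have : g ∈ nbs (blk Γ j) ↔ g⁻¹ ∈ nbs (blk Γ j) := by
        rw [mem_nbs, mem_nbs, inv_inj, inv_eq_iff_eq_inv, or_comm]
      simp only [this]
  gen := by
    have : ν.mass.support ⊆ ((wseq a ha.le).bind (comps ν)).support := by
      intro g hg
      rw [PMF.mem_support_bind_iff]
      refine ⟨0, ?_, hg⟩
      rw [PMF.mem_support_iff, wseq_zero]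
      exact (tsub_pos_of_lt ha).ne'
    have h := Subgroup.closure_mono this
    rw [ν.gen] at h
    exact top_le_iff.1 h

lemma gen_mass (ν : GeneratingMeasure Γ) (a : ℕ → ℝ≥0∞) (ha : ∑' j, a j < 1) (j : ℕ) :
    a j ≤ ∑ n ∈ nbs (blk Γ j), (gen ν a ha).mass n := by
  have h1 : ∀ n, a j * PMF.uniformOfFinset (nbs (blk Γ j)) (nbs_nonempty _) n ≤
      (gen ν a ha).mass n := by
    intro n
    show _ ≤ ((wseq a ha.le).bind (comps ν)) n
    rw [PMF.bind_apply]
    exact ENNReal.le_tsum (f := fun i => wseq a ha.le i * comps ν i n) (j + 1)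
  refine le_trans ?_ (Finset.sum_le_sum fun n _ => h1 n)
  rw [← Finset.mul_sum]
  have h2 : ∑ n ∈ nbs (blk Γ j), PMF.uniformOfFinset (nbs (blk Γ j)) (nbs_nonempty _) n = 1 := by
    have h3 := PMF.tsum_coe (PMF.uniformOfFinset (nbs (blk Γ j)) (nbs_nonempty _))
    rw [tsum_eq_sum (s := nbs (blk Γ j))] at h3
    · exact h3
    · intro n hn
      exact PMF.uniformOfFinset_apply_of_notMem _ hn
  rw [h2, mul_one]

theorem upper (ν : GeneratingMeasure Γ) {l : ℝ} (hl : 1 < l) :
    ∃ μ : GeneratingMeasure Γ, criticalParameter μ ≤ ENNReal.ofReal l := by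
  obtain ⟨k, th, u0, hk, hk2, hth, hth1, hu, h0, hlt⟩ := exists_params hl
  set b : ℕ → ℝ := fun j => kap k j * useq k th u0 j with hb
  have hb0 : ∀ j, 0 ≤ b j := fun j => mul_nonneg (kap_pos hk j).le (useq_pos hk hth hu j).le
  set a : ℕ → ℝ≥0∞ := fun j => ENNReal.ofReal (b j / l) with ha
  have hl0 : 0 < l := by linarith
  have hpart : ∀ n, ∑ j ∈ Finset.range n, b j / l ≤ (1 + k * th) * u0 / th / l := by
    intro n
    rw [← Finset.sum_div]
    apply div_le_div_of_nonneg_right _ hl0.le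
    refine (sum_b hk hth hu n).trans ?_
    apply div_le_div_of_nonneg_right _ hth.le
    apply mul_le_mul_of_nonneg_left _ (by positivity)
    have := useq_pos hk hth hu n
    linarith
  have hasum : ∑' j, a j < 1 := by
    have hs : Summable fun j => b j / l :=
      summable_of_sum_range_le (fun j => div_nonneg (hb0 j) hl0.le) hpart
    rw [ha, ← ENNReal.ofReal_tsum_of_nonneg (fun j => div_nonneg (hb0 j) hl0.le) hs]
    rw [← ENNReal.ofReal_one]
    apply (ENNReal.ofReal_lt_ofReal_iff (by norm_num)).2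
    refine lt_of_le_of_lt (hs.tsum_le_of_sum_range_le hpart) ?_
    rw [div_lt_one hl0]
    exact hlt
  refine ⟨gen ν a hasum, ?_⟩
  set μ := gen ν a hasum with hμ
  apply sSup_le
  rintro s ⟨t, _, hP, rfl⟩
  by_contra hcon
  have ht : l ≤ (t : ℝ) := by
    by_contra hno
    apply hcon
    rw [← ENNReal.ofReal_coe_nnreal]
    exact ENNReal.ofReal_le_ofReal (not_le.1 hno).le
  refine perc (fun e : Pair Γ => poissonMeasure (t * weight μ e)) ?_
    (g := fun n => Real.exp (-(t * (μ.mass n).toReal))) (fun n => (Real.exp_pos _).le) ?_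
    hk hk2 hth hth1 hu ?_ h0 hP
  · rintro y ⟨e, he⟩
    induction e with | _ x z =>
    have : weight μ (sh y ⟨s(x, z), he⟩).1 = weight μ s(x, z) := by
      show weight μ (Sym2.map (y * ·) s(x, z)) = _
      rw [Sym2.map_mk]
      show (μ.mass ((y * x)⁻¹ * (y * z))).toNNReal = (μ.mass (x⁻¹ * z)).toNNReal
      congr 2
      group
    simp only [this]
  · intro x n hd
    rw [poissonMeasure_real_singleton]
    have : ((t * weight μ s(x, x * n) : ℝ≥0) : ℝ) = t * (μ.mass n).toReal := by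
      rw [NNReal.coe_mul]
      congr 1
      show ((μ.mass (x⁻¹ * (x * n))).toNNReal : ℝ) = _
      rw [inv_mul_cancel_left]
      rfl
    rw [this]
    simp
  · intro j
    rw [← Real.exp_sum]
    apply Real.exp_le_exp.mpr
    rw [Finset.sum_neg_distrib, neg_le_neg_iff, ← Finset.mul_sum]
    have h1 := gen_mass ν a hasum j
    have h2 : ENNReal.ofReal (b j / l) ≤ ENNReal.ofReal (∑ n ∈ nbs (blk Γ j), (μ.mass n).toReal) := by
      rw [ENNReal.ofReal_sum_of_nonneg fun _ _ => ENNReal.toReal_nonneg]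
      refine h1.trans (Finset.sum_le_sum fun n _ => ?_)
      rw [ENNReal.ofReal_toReal (PMF.apply_ne_top _ _)]
    have h3 : b j / l ≤ ∑ n ∈ nbs (blk Γ j), (μ.mass n).toReal :=
      (ENNReal.ofReal_le_ofReal_iff (Finset.sum_nonneg fun _ _ => ENNReal.toReal_nonneg)).1 h2
    calc b j = l * (b j / l) := by field_simp
      _ ≤ t * ∑ n ∈ nbs (blk Γ j), (μ.mass n).toReal :=
          mul_le_mul ht h3 (div_nonneg (hb0 j) hl0.le) (by positivity)

end measure

end Pool.Agent.R958.Grp
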