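import Mathlib
import Pool.Agent.R958.GrpB

/-!
The subcritical regime: no infinite component for `t < 1`.
-/

set_option autoImplicit false

open MeasureTheory ProbabilityTheory Set Filter
open scoped ENNReal NNReal Topology

namespace Pool.Agent.R958.Grp

open Pool.Agent.Results.MP_7c03a7_pr.DimGtOne

variable {Γ : Type*} [Group Γ]

/-- weight of a list of vertices following `x` -/
noncomputable def W (μ : GeneratingMeasure Γ) (t : ℝ≥0) : Γ → List Γ → ℝ≥0∞
  | _, [] => 1
  | x, y :: l => ((t * weight μ s(x, y) : ℝ≥0) : ℝ≥0∞) * W μ t y l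

lemma tsum_W (μ : GeneratingMeasure Γ) (t : ℝ≥0) (n : ℕ) : ∀ x : Γ,
    ∑' v : Fin n → Γ, W μ t x (List.ofFn v) = (t : ℝ≥0∞) ^ n := by
  induction n with
  | zero => intro x; simp [W]
  | succ n ih =>
    intro x
    rw [← (Fin.consEquiv (fun _ : Fin (n + 1) => Γ)).tsum_eq, ENNReal.tsum_prod']
    have h1 : ∀ y : Γ, ∑' v : Fin n → Γ,
        W μ t x (List.ofFn ((Fin.consEquiv (fun _ : Fin (n + 1) => Γ)) (y, v))) =
        ((t * weight μ s(x, y) : ℝ≥0) : ℝ≥0∞) * (t : ℝ≥0∞) ^ n := by
      intro y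
      rw [← ih y, ← ENNReal.tsum_mul_left]
      refine tsum_congr fun v => ?_
      have : List.ofFn ((Fin.consEquiv (fun _ : Fin (n + 1) => Γ)) (y, v)) = y :: List.ofFn v := by
        simp [Fin.consEquiv, List.ofFn_succ]
      rw [this, W]
    rw [tsum_congr h1, ENNReal.tsum_mul_right]
    have h2 : ∑' y, ((t * weight μ s(x, y) : ℝ≥0) : ℝ≥0∞) = t := by
      simp only [ENNReal.coe_mul, coe_weight]
      have h3 : ∑' y, μ.mass (x⁻¹ * y) = 1 :=
        ((Equiv.mulLeft x⁻¹).tsum_eq (fun y => μ.mass y)).trans μ.mass.tsum_coe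
      rw [ENNReal.tsum_mul_left, h3, mul_one]
    rw [h2, pow_succ']

lemma exists_edges (μ : GeneratingMeasure Γ) (t : ℝ≥0) (l : List Γ) : ∀ x : Γ, (x :: l).Nodup →
    ∃ S : Finset (Pair Γ), (∀ e ∈ S, ∀ z ∈ e.1, z ∈ x :: l) ∧
      (∀ ω : Pair Γ → ℕ, (x :: l).IsChain (openGraph ω).Adj → ∀ e ∈ S, ω e ≠ 0) ∧
      ∏ e ∈ S, ((t * weight μ e.1 : ℝ≥0) : ℝ≥0∞) = W μ t x l := by
  classical
  induction l with
  | nil => intro x _; exact ⟨∅, by simp, by simp, by simp [W]⟩
  | cons y l ih =>
    intro x hx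
    rw [List.nodup_cons] at hx
    obtain ⟨S, h1, h2, h3⟩ := ih y hx.2
    have hne : ¬ (s(x, y)).IsDiag := by
      rw [Sym2.mk_isDiag_iff]
      intro h
      exact hx.1 (h ▸ List.mem_cons_self)
    have hnot : (⟨s(x, y), hne⟩ : Pair Γ) ∉ S := by
      intro h
      exact hx.1 (h1 _ h x (Sym2.mem_mk_left x y))
    refine ⟨insert ⟨s(x, y), hne⟩ S, ?_, ?_, ?_⟩
    · intro e he z hz
      rcases Finset.mem_insert.1 he with rfl | he
      · rcases Sym2.mem_iff.1 hz with rfl | rfl
        · exact List.mem_cons_self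
        · exact List.mem_cons_of_mem _ List.mem_cons_self
      · exact List.mem_cons_of_mem _ (h1 e he z hz)
    · intro ω hω e he
      rw [List.isChain_cons_cons] at hω
      rcases Finset.mem_insert.1 he with rfl | he
      · exact hω.1.2.ne'
      · exact h2 ω hω.2 e he
    · rw [Finset.prod_insert hnot, h3, W]

lemma poisson_pos_le (r : ℝ≥0) : poissonMeasure r {n | n ≠ 0} ≤ r := by
  have h1 : {n : ℕ | n ≠ 0} = {0}ᶜ := by ext; simp
  rw [h1, prob_compl_eq_one_sub (measurableSet_singleton _), poissonMeasure_singleton]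
  simp only [pow_zero, Nat.factorial_zero, Nat.cast_one, mul_one, div_one]
  rw [← ENNReal.ofReal_one, ← ENNReal.ofReal_sub _ (Real.exp_pos _).le, ← ENNReal.ofReal_coe_nnreal]
  apply ENNReal.ofReal_le_ofReal
  have := Real.one_sub_le_exp_neg (r : ℝ)
  linarith

lemma chain_prob (μ : GeneratingMeasure Γ) (t : ℝ≥0) (x : Γ) (l : List Γ) (h : (x :: l).Nodup) :
    law μ t {ω | (x :: l).IsChain (openGraph ω).Adj} ≤ W μ t x l := by
  obtain ⟨S, _, h2, h3⟩ := exists_edges μ t l x h
  have hsub : {ω : Pair Γ → ℕ | (x :: l).IsChain (openGraph ω).Adj} ⊆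
      Set.pi S (fun _ => {n : ℕ | n ≠ 0}) := by
    intro ω hω e he
    exact h2 ω hω e he
  refine (measure_mono hsub).trans ?_
  rw [law, Measure.infinitePi_pi _ (fun _ _ => MeasurableSet.of_discrete), ← h3]
  exact Finset.prod_le_prod' fun e _ => poisson_pos_le _

lemma finite_cluster [Countable Γ] (μ : GeneratingMeasure Γ) {t : ℝ≥0} (ht : t < 1) (x : Γ) :
    ∀ᵐ ω ∂(law μ t), {y | (openGraph ω).Reachable x y}.Finite := by
  classical
  have key : ∑' y, law μ t {ω | (openGraph ω).Reachable x y} ≠ ∞ := by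
    have h1 : ∀ y, law μ t {ω | (openGraph ω).Reachable x y} ≤
        ∑' n : ℕ, ∑' v : Fin n → Γ,
          if (x :: List.ofFn v).getLast (List.cons_ne_nil _ _) = y then W μ t x (List.ofFn v) else 0 := by
      intro y
      have hsub : {ω : Pair Γ → ℕ | (openGraph ω).Reachable x y} ⊆
          ⋃ n : ℕ, ⋃ v : Fin n → Γ, {ω | (x :: List.ofFn v).getLast (List.cons_ne_nil _ _) = y ∧
            (x :: List.ofFn v).Nodup ∧ (x :: List.ofFn v).IsChain (openGraph ω).Adj} := by
        intro ω hω
        obtain ⟨p, hp⟩ := SimpleGraph.Reachable.exists_isPath hω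
        have hs : x :: p.support.tail = p.support := p.cons_tail_support
        rw [mem_iUnion]
        refine ⟨p.support.tail.length, ?_⟩
        rw [mem_iUnion]
        refine ⟨p.support.tail.get, ?_⟩
        rw [mem_ofPred_eq]
        simp only [List.ofFn_get, hs]
        exact ⟨p.getLast_support, hp.support_nodup, p.isChain_adj_support⟩
      refine (measure_mono hsub).trans ((measure_iUnion_le _).trans ?_)
      refine ENNReal.tsum_le_tsum fun n => (measure_iUnion_le _).trans ?_
      refine ENNReal.tsum_le_tsum fun v => ?_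
      by_cases hl : (x :: List.ofFn v).getLast (List.cons_ne_nil _ _) = y
      · rw [if_pos hl]
        by_cases hn : (x :: List.ofFn v).Nodup
        · refine (measure_mono ?_).trans (chain_prob μ t x _ hn)
          intro ω hω
          exact hω.2.2
        · refine le_trans (le_of_eq ?_) zero_le
          rw [measure_eq_zero_iff_ae_notMem]
          exact Eventually.of_forall fun ω hω => hn hω.2.1
      · rw [if_neg hl]
        refine le_of_eq ?_
        rw [measure_eq_zero_iff_ae_notMem]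
        exact Eventually.of_forall fun ω hω => hl hω.1
    have h2 : ∑' y, ∑' n : ℕ, ∑' v : Fin n → Γ,
        (if (x :: List.ofFn v).getLast (List.cons_ne_nil _ _) = y then W μ t x (List.ofFn v) else 0) =
        ∑' n : ℕ, (t : ℝ≥0∞) ^ n := by
      rw [ENNReal.tsum_comm]
      refine tsum_congr fun n => ?_
      rw [ENNReal.tsum_comm, ← tsum_W μ t n x]
      refine tsum_congr fun v => ?_
      rw [tsum_eq_single ((x :: List.ofFn v).getLast (List.cons_ne_nil _ _))
        (fun a ha => if_neg (Ne.symm ha)), if_pos rfl]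
    have h3 : ∑' n : ℕ, (t : ℝ≥0∞) ^ n ≠ ∞ := by
      rw [ENNReal.tsum_geometric]
      apply ENNReal.inv_ne_top.2
      have : (t : ℝ≥0∞) < 1 := by exact_mod_cast ht
      exact (tsub_pos_of_lt this).ne'
    refine ne_top_of_le_ne_top h3 ?_
    rw [← h2]
    exact ENNReal.tsum_le_tsum h1
  exact ae_finite_setOfPred_mem key

theorem lower [Countable Γ] (μ : GeneratingMeasure Γ) : 1 ≤ criticalParameter μ := by
  have h : ∀ t : ℝ≥0, 0 < t → t < 1 → (t : ℝ≥0∞) ≤ criticalParameter μ := by
    intro t h0 h1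
    refine le_sSup ⟨t, h0, ?_, rfl⟩
    have h2 : ∀ᵐ ω ∂(law μ t), ∀ x, {y | (openGraph ω).Reachable x y}.Finite :=
      ae_all_iff.2 fun x => finite_cluster μ h1 x
    refine measure_mono_null ?_ (ae_iff.1 h2)
    rintro ω ⟨C, hC⟩ hfin
    induction C using SimpleGraph.ConnectedComponent.ind with | _ x =>
    apply hC
    refine (hfin x).subset ?_
    intro y hy
    rw [SimpleGraph.ConnectedComponent.mem_supp_iff] at hy
    exact (SimpleGraph.ConnectedComponent.exact hy).symm
  refine le_of_forall_lt fun s hs => ?_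
  obtain ⟨r, hr1, hr2⟩ := ENNReal.lt_iff_exists_nnreal_btwn.1 hs
  have hr2' : r < 1 := by exact_mod_cast hr2
  have hr0 : 0 < r := by
    have : (0 : ℝ≥0∞) < r := lt_of_le_of_lt zero_le hr1
    exact_mod_cast this
  exact lt_of_lt_of_le hr1 (h r hr0 hr2')

end Pool.Agent.R958.Grp
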