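import Mathlib

/-!
Bootstrap percolation on Hamming tori: deterministic part.
-/

set_option autoImplicit false

open Finset

namespace Pool.Agent.R958.Ham

/-- The vertices of the Hamming torus. -/
abbrev V (n d : ℕ) : Type := Fin d → Fin n

/-- One step of bootstrap percolation with threshold `θ` on the Hamming torus: a vertex becomes
open when at least `θ` vertices at Hamming distance one from it are open. -/
def step {n d : ℕ} (θ : ℕ) (ω : V n d → Bool) : V n d → Bool :=
  fun v => ω v || decide (θ ≤ (univ.filter fun w => hammingDist v w = 1 ∧ ω w = true).card)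

/-- The vertex `v` is open in the final configuration started from `ω`. -/
def FinalOpen {n d : ℕ} (θ : ℕ) (ω : V n d → Bool) (v : V n d) : Prop :=
  ∃ j : ℕ, (step θ)^[j] ω v = true

/-- Some `i`-dimensional subgraph is open in the final configuration. -/
def SubgraphOpen {n d : ℕ} (θ i : ℕ) (ω : V n d → Bool) : Prop :=
  ∃ J : Finset (Fin d), J.card = i ∧ ∃ a : V n d, ∀ x : V n d, (∀ k, k ∉ J → x k = a k) →
    FinalOpen θ ω x

variable {n d : ℕ}

lemma step_of_true {θ : ℕ} {ω : V n d → Bool} {v : V n d} (h : ω v = true) :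
    step θ ω v = true := by simp [step, h]

lemma iter_mono {θ : ℕ} {ω : V n d → Bool} {v : V n d} {j k : ℕ} (hjk : j ≤ k)
    (h : (step θ)^[j] ω v = true) : (step θ)^[k] ω v = true := by
  induction k, hjk using Nat.le_induction with
  | base => exact h
  | succ k _ ih =>
    rw [Function.iterate_succ_apply']
    exact step_of_true ih

lemma final_of_init {θ : ℕ} {ω : V n d → Bool} {v : V n d} (h : ω v = true) :
    FinalOpen θ ω v := ⟨0, h⟩

lemma final_of_three {ω : V n d → Bool} {v a b c : V n d} (hab : a ≠ b) (hac : a ≠ c)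
    (hbc : b ≠ c) (ha : hammingDist v a = 1) (hb : hammingDist v b = 1) (hc : hammingDist v c = 1)
    (fa : FinalOpen 3 ω a) (fb : FinalOpen 3 ω b) (fc : FinalOpen 3 ω c) : FinalOpen 3 ω v := by
  classical
  obtain ⟨ja, ha'⟩ := fa
  obtain ⟨jb, hb'⟩ := fb
  obtain ⟨jc, hc'⟩ := fc
  set j := max ja (max jb jc)
  have h1 := iter_mono (le_max_left ja (max jb jc)) ha'
  have h2 := iter_mono ((le_max_left jb jc).trans (le_max_right ja (max jb jc))) hb'
  have h3 := iter_mono ((le_max_right jb jc).trans (le_max_right ja (max jb jc))) hc'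
  refine ⟨j + 1, ?_⟩
  rw [Function.iterate_succ_apply', step]
  rw [Bool.or_eq_true]
  right
  rw [decide_eq_true_iff]
  have hsub : ({a, b, c} : Finset (V n d)) ⊆
      univ.filter fun w => hammingDist v w = 1 ∧ (step 3)^[j] ω w = true := by
    intro x hx
    simp only [mem_insert, mem_singleton] at hx
    rw [mem_filter]
    rcases hx with rfl | rfl | rfl
    · exact ⟨mem_univ _, ha, h1⟩
    · exact ⟨mem_univ _, hb, h2⟩
    · exact ⟨mem_univ _, hc, h3⟩
  calc 3 = ({a, b, c} : Finset (V n d)).card := (card_eq_three.2 ⟨a, b, c, hab, hac, hbc, rfl⟩).symm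
    _ ≤ _ := card_le_card hsub

lemma final_subset {ω : V n d → Bool} {U : Set (V n d)} (h0 : ∀ v, ω v = true → v ∈ U)
    (hU : ∀ v a b, a ≠ b → hammingDist v a = 1 → hammingDist v b = 1 → a ∈ U → b ∈ U → v ∈ U)
    {v : V n d} (hv : FinalOpen 3 ω v) : v ∈ U := by
  obtain ⟨j, hj⟩ := hv
  induction j generalizing v with
  | zero => exact h0 v hj
  | succ j ih =>
    rw [Function.iterate_succ_apply', step, Bool.or_eq_true] at hj
    rcases hj with hj | hj
    · exact ih hj
    · rw [decide_eq_true_iff] at hj
      obtain ⟨a, ha, b, hb, hab⟩ := one_lt_card.1 (lt_of_lt_of_le (by norm_num : 1 < 3) hj)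
      rw [mem_filter] at ha hb
      exact hU v a b hab ha.2.1 hb.2.1 (ih ha.2.2) (ih hb.2.2)

/-- coordinates which are not constant on `K` -/
noncomputable def free (K : Finset (V n d)) : Finset (Fin d) := by
  classical exact univ.filter fun k => ∃ x ∈ K, ∃ y ∈ K, x k ≠ y k

lemma mem_free {K : Finset (V n d)} {k : Fin d} : k ∈ free K ↔ ∃ x ∈ K, ∃ y ∈ K, x k ≠ y k := by
  unfold free
  classical rw [mem_filter]
  simp

/-- the smallest subgraph containing `K` -/
def cube (K : Finset (V n d)) : Set (V n d) := {v | ∀ k, k ∉ free K → ∀ x ∈ K, v k = x k}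

lemma subset_cube {K : Finset (V n d)} {x : V n d} (hx : x ∈ K) : x ∈ cube K := by
  intro k hk y hy
  by_contra h
  exact hk (mem_free.2 ⟨x, hx, y, hy, h⟩)

lemma dist_one_eq {v a : V n d} (h : hammingDist v a = 1) {k l : Fin d} (hk : v k ≠ a k)
    (hl : v l ≠ a l) : k = l := by
  unfold hammingDist at h
  rw [card_eq_one] at h
  obtain ⟨m, hm⟩ := h
  have h1 : k ∈ univ.filter fun i => v i ≠ a i := by simp [hk]
  have h2 : l ∈ univ.filter fun i => v i ≠ a i := by simp [hl]
  rw [hm, mem_singleton] at h1 h2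
  rw [h1, h2]

lemma cube_closed {K : Finset (V n d)} {v a b : V n d} (hab : a ≠ b) (ha : hammingDist v a = 1)
    (hb : hammingDist v b = 1) (haK : a ∈ cube K) (hbK : b ∈ cube K) :
    v ∈ cube K := by
  intro k hk x hx
  by_contra hne
  have h1 : a k = x k := haK k hk x hx
  have h2 : b k = x k := hbK k hk x hx
  apply hab
  funext l
  by_cases hl : l = k
  · rw [hl, h1, h2]
  · have e1 : v l = a l := by
      by_contra h
      exact hl (dist_one_eq ha h (by rw [h1]; exact hne))
    have e2 : v l = b l := by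
      by_contra h
      exact hl (dist_one_eq hb h (by rw [h2]; exact hne))
    rw [← e1, ← e2]

lemma dim_union [DecidableEq (V n d)] {K L : Finset (V n d)} {a b : V n d} (haK : a ∈ cube K)
    (hbL : b ∈ cube L) :
    (free (K ∪ L)).card ≤ (free K).card + (free L).card + hammingDist a b := by
  classical
  have hsub : free (K ∪ L) ⊆ free K ∪ free L ∪ univ.filter fun k => a k ≠ b k := by
    intro k hk
    by_contra hcon
    rw [mem_union, mem_union, not_or, not_or] at hcon
    obtain ⟨⟨h1, h2⟩, h3⟩ := hcon
    have h3' : a k = b k := by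
      by_contra h; exact h3 (by simp [h])
    obtain ⟨x, hx, y, hy, hxy⟩ := mem_free.1 hk
    have key : ∀ z ∈ K ∪ L, z k = a k := by
      intro z hz
      rcases mem_union.1 hz with hz | hz
      · exact (haK k h1 z hz).symm
      · rw [h3']; exact (hbL k h2 z hz).symm
    exact hxy (by rw [key x hx, key y hy])
  calc (free (K ∪ L)).card ≤ (free K ∪ free L ∪ univ.filter fun k => a k ≠ b k).card :=
        card_le_card hsub
    _ ≤ (free K ∪ free L).card + (univ.filter fun k => a k ≠ b k).card := card_union_le _ _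
    _ ≤ (free K).card + (free L).card + (univ.filter fun k => a k ≠ b k).card := by
        have := card_union_le (free K) (free L)
        omega
    _ = _ := rfl

/-- a family of clusters covering `A` -/
structure Valid (A : Finset (V n d)) (F : Finset (Finset (V n d))) : Prop where
  good : ∀ K ∈ F, K.Nonempty ∧ K ⊆ A ∧ (free K).card + 2 ≤ 2 * K.card ∧ K.card ≤ 4
  disj : ∀ K ∈ F, ∀ L ∈ F, K ≠ L → Disjoint K L
  cover : ∀ a ∈ A, ∃ K ∈ F, a ∈ K

lemma exists_valid (A : Finset (V n d)) : ∃ F, Valid A F := by
  classical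
  refine ⟨A.image fun a => {a}, ?_, ?_, ?_⟩
  · intro K hK
    obtain ⟨a, ha, rfl⟩ := mem_image.1 hK
    refine ⟨singleton_nonempty a, singleton_subset_iff.2 ha, ?_, by simp⟩
    have : free ({a} : Finset (V n d)) = ∅ := by
      rw [eq_empty_iff_forall_notMem]
      intro k hk
      obtain ⟨x, hx, y, hy, hxy⟩ := mem_free.1 hk
      rw [mem_singleton] at hx hy
      exact hxy (by rw [hx, hy])
    rw [this]
    simp
  · intro K hK L hL hne
    obtain ⟨a, _, rfl⟩ := mem_image.1 hK
    obtain ⟨b, _, rfl⟩ := mem_image.1 hL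
    rw [disjoint_singleton]
    rintro rfl
    exact hne rfl
  · intro a ha
    exact ⟨{a}, mem_image.2 ⟨a, ha, rfl⟩, mem_singleton_self a⟩

lemma exists_separated {A : Finset (V n d)}
    (hA : ∀ K ⊆ A, (free K).card ≤ 14 → K.card ≤ 4) :
    ∃ F, Valid A F ∧ ∀ K ∈ F, ∀ L ∈ F, K ≠ L → ∀ a ∈ cube K, ∀ b ∈ cube L,
      2 < hammingDist a b := by
  classical
  obtain ⟨F, hF, hmin⟩ := exists_min_image (univ.filter fun F => Valid A F) (fun F => F.card)
    (by
      obtain ⟨F, hF⟩ := exists_valid A
      exact ⟨F, by simp [hF]⟩)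
  rw [mem_filter] at hF
  refine ⟨F, hF.2, ?_⟩
  intro K hK L hL hne a ha b hb
  by_contra hcon
  rw [not_lt] at hcon
  obtain ⟨hKn, hKA, hKd, hK4⟩ := hF.2.good K hK
  obtain ⟨hLn, hLA, hLd, hL4⟩ := hF.2.good L hL
  have hdisj := hF.2.disj K hK L hL hne
  have hcard : (K ∪ L).card = K.card + L.card := card_union_of_disjoint hdisj
  have hdim := dim_union ha hb
  have h4 : (K ∪ L).card ≤ 4 := hA _ (union_subset hKA hLA) (by omega)
  set F' := insert (K ∪ L) ((F.erase K).erase L) with hF'
  have hvalid : Valid A F' := by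
    refine ⟨?_, ?_, ?_⟩
    · intro M hM
      rcases mem_insert.1 hM with rfl | hM
      · exact ⟨hKn.mono subset_union_left, union_subset hKA hLA, by omega, h4⟩
      · exact hF.2.good M (mem_of_mem_erase (mem_of_mem_erase hM))
    · have key : ∀ M ∈ (F.erase K).erase L, Disjoint (K ∪ L) M := by
        intro M hM
        rw [mem_erase, mem_erase] at hM
        rw [disjoint_union_left]
        exact ⟨(hF.2.disj M hM.2.2 K hK hM.2.1).symm, (hF.2.disj M hM.2.2 L hL hM.1).symm⟩
      intro M hM N hN hMN
      rcases mem_insert.1 hM with rfl | hM' <;> rcases mem_insert.1 hN with rfl | hN'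
      · exact absurd rfl hMN
      · exact key N hN'
      · exact (key M hM').symm
      · exact hF.2.disj M (mem_of_mem_erase (mem_of_mem_erase hM')) N
          (mem_of_mem_erase (mem_of_mem_erase hN')) hMN
    · intro x hx
      obtain ⟨M, hM, hxM⟩ := hF.2.cover x hx
      by_cases hMK : M = K
      · exact ⟨K ∪ L, mem_insert_self _ _, mem_union_left _ (hMK ▸ hxM)⟩
      · by_cases hML : M = L
        · exact ⟨K ∪ L, mem_insert_self _ _, mem_union_right _ (hML ▸ hxM)⟩
        · exact ⟨M, mem_insert_of_mem (mem_erase.2 ⟨hML, mem_erase.2 ⟨hMK, hM⟩⟩), hxM⟩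
  have h5 := hmin F' (by simp [hvalid])
  have h6 : F'.card ≤ ((F.erase K).erase L).card + 1 := card_insert_le _ _
  have h7 : ((F.erase K).erase L).card = F.card - 1 - 1 := by
    rw [card_erase_of_mem (mem_erase.2 ⟨hne.symm, hL⟩), card_erase_of_mem hK]
  have h8 : 2 ≤ F.card := by
    have : ({K, L} : Finset _) ⊆ F := by
      intro x hx
      rw [mem_insert, mem_singleton] at hx
      rcases hx with rfl | rfl <;> assumption
    calc 2 = ({K, L} : Finset _).card := (card_pair hne).symm
      _ ≤ F.card := card_le_card this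
  omega

/-- A locally sparse initial configuration does not fill the torus. -/
theorem not_full (hn : 2 ≤ n) (hd : 7 ≤ d) {ω : V n d → Bool}
    (hω : ∀ K : Finset (V n d), (∀ x ∈ K, ω x = true) → (free K).card ≤ 14 → K.card ≤ 4) :
    ∃ v, ¬ FinalOpen 3 ω v := by
  classical
  obtain ⟨F, hF, hsep⟩ := exists_separated (A := univ.filter fun x => ω x = true)
    (fun K hK => hω K fun x hx => (mem_filter.1 (hK hx)).2)
  set U : Set (V n d) := {v | ∃ K ∈ F, v ∈ cube K} with hU
  have hsub : ∀ v, FinalOpen 3 ω v → v ∈ U := by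
    intro v hv
    refine final_subset ?_ ?_ hv
    · intro x hx
      obtain ⟨K, hK, hxK⟩ := hF.cover x (by simp [hx])
      exact ⟨K, hK, subset_cube hxK⟩
    · rintro x a b hab ha hb ⟨K, hK, haK⟩ ⟨L, hL, hbL⟩
      by_cases hKL : K = L
      · subst hKL
        exact ⟨K, hK, cube_closed hab ha hb haK hbL⟩
      · have h1 := hsep K hK L hL hKL a haK b hbL
        have h2 := hammingDist_triangle_left a b x
        omega
  rcases F.eq_empty_or_nonempty with hE | ⟨K, hK⟩
  · refine ⟨fun _ => ⟨0, by omega⟩, fun hv => ?_⟩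
    obtain ⟨K, hK, _⟩ := hsub _ hv
    rw [hE] at hK
    exact absurd hK (notMem_empty _)
  · obtain ⟨⟨x, hx⟩, _, hdim, hK4⟩ := hF.good K hK
    obtain ⟨k, hk⟩ : ∃ k : Fin d, k ∉ free K := by
      by_contra hcon
      push Not at hcon
      have : (free K).card = d := by
        rw [eq_univ_of_forall hcon, card_univ, Fintype.card_fin]
      omega
    have : Nontrivial (Fin n) := Fin.nontrivial_iff_two_le.2 hn
    obtain ⟨y, hy⟩ := exists_ne (x k)
    refine ⟨Function.update x k y, fun hv => ?_⟩
    obtain ⟨L, hL, hvL⟩ := hsub _ hv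
    by_cases hKL : K = L
    · subst hKL
      have := hvL k hk x hx
      rw [Function.update_self] at this
      exact hy this
    · have h1 := hsep K hK L hL hKL x (subset_cube hx) _ hvL
      have h2 : hammingDist x (Function.update x k y) ≤ 1 := by
        unfold hammingDist
        rw [card_le_one]
        intro a ha b hb
        rw [mem_filter] at ha hb
        have ea : a = k := by
          by_contra h; exact ha.2 (by rw [Function.update_of_ne h])
        have eb : b = k := by
          by_contra h; exact hb.2 (by rw [Function.update_of_ne h])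
        rw [ea, eb]
      omega

end Pool.Agent.R958.Ham
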