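import Mathlib
import Pool.Agent.R958.HamB

/-!
Bootstrap percolation on Hamming tori: bounds for the critical values.
-/

set_option autoImplicit false

open Finset MeasureTheory ProbabilityTheory
open scoped ENNReal

namespace Pool.Agent.R958.Ham

variable {n d : ℕ}

section upper

/-- the base points of parallel planes -/
def base (k0 k1 : Fin d) (z : Fin n) : Finset (V n d) :=
  Fintype.piFinset fun k => if k = k0 ∨ k = k1 then {z} else univ

lemma mem_base {k0 k1 : Fin d} {z : Fin n} {b : V n d} :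
    b ∈ base k0 k1 z ↔ b k0 = z ∧ b k1 = z := by
  unfold base
  rw [Fintype.mem_piFinset]
  constructor
  · intro h
    have h0 := h k0
    have h1 := h k1
    simp at h0 h1
    exact ⟨h0, h1⟩
  · rintro ⟨h0, h1⟩ k
    split_ifs with hk
    · rcases hk with rfl | rfl <;> simp [h0, h1]
    · exact mem_univ _

lemma card_base {k0 k1 : Fin d} (hk : k0 ≠ k1) (z : Fin n) :
    (base k0 k1 z).card = n ^ (d - 2) := by
  unfold base
  rw [Fintype.card_piFinset]
  have h1 : ∀ k : Fin d, (if k = k0 ∨ k = k1 then ({z} : Finset (Fin n)) else univ).card =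
      if k ∈ ({k0, k1} : Finset (Fin d))ᶜ then n else 1 := by
    intro k
    by_cases h : k = k0 ∨ k = k1
    · rw [if_pos h, if_neg, card_singleton]
      simp only [mem_compl, mem_insert, mem_singleton, not_not]
      exact h
    · rw [if_neg h, if_pos, card_univ, Fintype.card_fin]
      simp only [mem_compl, mem_insert, mem_singleton]
      exact h
  simp_rw [h1]
  rw [prod_ite_mem, univ_inter, prod_const, card_compl, card_pair hk, Fintype.card_fin]

theorem upper_bound (hd : 2 ≤ d) (hn : 4 ≤ n) {p : ℝ} (h0 : 0 ≤ p) (h1 : p ≤ 1) :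
    law n d p {ω | ¬ SubgraphOpen 3 2 ω} ≤ (1 - ENNReal.ofReal p ^ 4) ^ (n ^ (d - 2)) := by
  classical
  set k0 : Fin d := ⟨0, by omega⟩ with hk0
  set k1 : Fin d := ⟨1, by omega⟩ with hk1
  have hk : k0 ≠ k1 := by simp [hk0, hk1]
  set f : ℕ → Fin n := fun i => ⟨i % n, Nat.mod_lt _ (by omega)⟩ with hf
  have hfi : ∀ i j, i < 4 → j < 4 → i ≠ j → f i ≠ f j := by
    intro i j hi hj hij h
    have := congrArg Fin.val h
    simp only [hf] at this
    rw [Nat.mod_eq_of_lt (by omega), Nat.mod_eq_of_lt (by omega)] at this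
    exact hij this
  set K : V n d → Finset (V n d) := fun b =>
    {pt b k0 k1 (f 0) (f 0), pt b k0 k1 (f 0) (f 1), pt b k0 k1 (f 1) (f 2),
      pt b k0 k1 (f 2) (f 3)} with hK
  have hKcard : ∀ b ∈ base k0 k1 (f 0), (K b).card = 4 := by
    intro b _
    have a1 : pt b k0 k1 (f 0) (f 0) ≠ pt b k0 k1 (f 0) (f 1) :=
      pt_ne_col (hfi 0 1 (by norm_num) (by norm_num) (by norm_num))
    have a2 : pt b k0 k1 (f 0) (f 0) ≠ pt b k0 k1 (f 1) (f 2) :=
      pt_ne_col (hfi 0 2 (by norm_num) (by norm_num) (by norm_num))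
    have a3 : pt b k0 k1 (f 0) (f 0) ≠ pt b k0 k1 (f 2) (f 3) :=
      pt_ne_col (hfi 0 3 (by norm_num) (by norm_num) (by norm_num))
    have a4 : pt b k0 k1 (f 0) (f 1) ≠ pt b k0 k1 (f 1) (f 2) :=
      pt_ne_col (hfi 1 2 (by norm_num) (by norm_num) (by norm_num))
    have a5 : pt b k0 k1 (f 0) (f 1) ≠ pt b k0 k1 (f 2) (f 3) :=
      pt_ne_col (hfi 1 3 (by norm_num) (by norm_num) (by norm_num))
    have a6 : pt b k0 k1 (f 1) (f 2) ≠ pt b k0 k1 (f 2) (f 3) :=
      pt_ne_col (hfi 2 3 (by norm_num) (by norm_num) (by norm_num))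
    simp only [hK]
    rw [card_insert_of_notMem, card_insert_of_notMem, card_insert_of_notMem, card_singleton]
    · simpa using a6
    · simp only [mem_insert, mem_singleton, not_or]; exact ⟨a4, a5⟩
    · simp only [mem_insert, mem_singleton, not_or]; exact ⟨a1, a2, a3⟩
  have hoff : ∀ b, ∀ x ∈ K b, ∀ k, k ≠ k0 → k ≠ k1 → x k = b k := by
    intro b x hx k h0 h1
    simp only [hK, mem_insert, mem_singleton] at hx
    rcases hx with rfl | rfl | rfl | rfl <;>
      simp only [pt, Function.update_of_ne h0, Function.update_of_ne h1]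
  have hdisj : ∀ b ∈ base k0 k1 (f 0), ∀ b' ∈ base k0 k1 (f 0), b ≠ b' → Disjoint (K b) (K b') := by
    intro b hb b' hb' hne
    rw [disjoint_left]
    intro x hx hx'
    apply hne
    rw [mem_base] at hb hb'
    funext k
    by_cases e0 : k = k0
    · rw [e0, hb.1, hb'.1]
    by_cases e1 : k = k1
    · rw [e1, hb.2, hb'.2]
    rw [← hoff b x hx k e0 e1, ← hoff b' x hx' k e0 e1]
  rw [← card_base hk (f 0), ← law_none h0 h1 hKcard hdisj]
  apply measure_mono
  intro ω hω b _ hall
  apply hω
  refine ⟨{k0, k1}, card_pair hk, b, fun x hx => ?_⟩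
  rw [eq_pt hx]
  have hfo : ∀ y ∈ K b, FinalOpen 3 ω y := fun y hy => final_of_init (hall y hy)
  exact plane_open hk (hfi 0 1 (by norm_num) (by norm_num) (by norm_num))
    (hfi 0 2 (by norm_num) (by norm_num) (by norm_num))
    (hfi 1 2 (by norm_num) (by norm_num) (by norm_num))
    (hfi 0 1 (by norm_num) (by norm_num) (by norm_num))
    (hfi 0 2 (by norm_num) (by norm_num) (by norm_num))
    (hfi 1 2 (by norm_num) (by norm_num) (by norm_num))
    (hfi 2 3 (by norm_num) (by norm_num) (by norm_num))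
    (hfo _ (by simp [hK])) (hfo _ (by simp [hK])) (hfo _ (by simp [hK])) (hfo _ (by simp [hK])) _ _

end upper

section lower

/-- a subgraph as a finset -/
def cubeF (J : Finset (Fin d)) (a : V n d) : Finset (V n d) :=
  Fintype.piFinset fun k => if k ∈ J then univ else {a k}

lemma card_cubeF (J : Finset (Fin d)) (a : V n d) : (cubeF J a).card = n ^ J.card := by
  unfold cubeF
  rw [Fintype.card_piFinset]
  have h1 : ∀ k : Fin d, (if k ∈ J then univ else ({a k} : Finset (Fin n))).card =
      if k ∈ J then n else 1 := by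
    intro k
    split_ifs <;> simp
  simp_rw [h1]
  rw [prod_ite_mem, univ_inter, prod_const]

/-- the bad sets -/
noncomputable def bad (n d : ℕ) : Finset (Finset (V n d)) := by
  classical exact univ.filter fun K => K.card = 5 ∧ (free K).card ≤ 14

lemma mem_bad {K : Finset (V n d)} : K ∈ bad n d ↔ K.card = 5 ∧ (free K).card ≤ 14 := by
  unfold bad
  classical rw [mem_filter]
  simp

lemma card_bad (hd : 14 ≤ d) : (bad n d).card ≤ 2 ^ d * n ^ (d + 56) := by
  classical
  have hsub : bad n d ⊆ (powersetCard 14 (univ : Finset (Fin d))).biUnion fun J =>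
      (univ : Finset (V n d)).biUnion fun a => (powersetCard 4 (cubeF J a)).image (insert a) := by
    intro K hK
    rw [mem_bad] at hK
    obtain ⟨J, hJ1, hJ2, hJ3⟩ := exists_subsuperset_card_eq (subset_univ (free K)) hK.2
      (by rw [card_univ, Fintype.card_fin]; exact hd)
    obtain ⟨a, ha⟩ : K.Nonempty := card_pos.1 (by omega)
    rw [mem_biUnion]
    refine ⟨J, mem_powersetCard.2 ⟨hJ2, hJ3⟩, ?_⟩
    rw [mem_biUnion]
    refine ⟨a, mem_univ _, mem_image.2 ⟨K.erase a, mem_powersetCard.2 ⟨?_, ?_⟩, insert_erase ha⟩⟩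
    · intro x hx
      unfold cubeF
      rw [Fintype.mem_piFinset]
      intro k
      split_ifs with hk
      · exact mem_univ _
      · rw [mem_singleton]
        by_contra hne
        exact hk (hJ1 (mem_free.2 ⟨x, mem_of_mem_erase hx, a, ha, hne⟩))
    · rw [card_erase_of_mem ha]; omega
  refine (card_le_card hsub).trans ?_
  have h1 : ∀ J ∈ powersetCard 14 (univ : Finset (Fin d)),
      ((univ : Finset (V n d)).biUnion fun a =>
        (powersetCard 4 (cubeF J a)).image (insert a)).card ≤ n ^ d * n ^ 56 := by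
    intro J hJ
    rw [mem_powersetCard] at hJ
    have h2 : ∀ a ∈ (univ : Finset (V n d)),
        ((powersetCard 4 (cubeF J a)).image (insert a)).card ≤ n ^ 56 := by
      intro a _
      refine card_image_le.trans ?_
      rw [card_powersetCard, card_cubeF, hJ.2]
      refine (Nat.choose_le_pow _ _).trans (le_of_eq ?_)
      rw [← pow_mul]
    refine (card_biUnion_le_card_mul _ _ _ h2).trans (le_of_eq ?_)
    rw [card_univ, Fintype.card_fun, Fintype.card_fin, Fintype.card_fin]
  refine (card_biUnion_le_card_mul _ _ _ h1).trans ?_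
  rw [card_powersetCard, card_univ, Fintype.card_fin, pow_add]
  exact Nat.mul_le_mul_right _ (Nat.choose_le_two_pow _ _)

theorem lower_bound (hd : 14 ≤ d) (hn : 2 ≤ n) {p : ℝ} (h0 : 0 ≤ p) (h1 : p ≤ 1) :
    law n d p {ω | SubgraphOpen 3 d ω} ≤ ((2 ^ d * n ^ (d + 56) : ℕ) : ℝ≥0∞) * ENNReal.ofReal p ^ 5 := by
  classical
  have hsub : {ω : V n d → Bool | SubgraphOpen 3 d ω} ⊆
      ⋃ K ∈ bad n d, {ω | ∀ x ∈ K, ω x = true} := by
    intro ω hω
    obtain ⟨J, hJ, a, ha⟩ := hω
    have hJu : J = univ := by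
      rw [← card_eq_iff_eq_univ, hJ, Fintype.card_fin]
    by_contra hcon
    obtain ⟨v, hv⟩ := not_full (ω := ω) hn (by omega) (by
      intro K hK hdim
      by_contra h5
      rw [not_le] at h5
      obtain ⟨L, hL1, hL2⟩ := exists_subset_card_eq (s := K) (n := 5) (by omega)
      apply hcon
      rw [Set.mem_iUnion₂]
      refine ⟨L, mem_bad.2 ⟨hL2, ?_⟩, fun x hx => hK x (hL1 hx)⟩
      refine (card_le_card ?_).trans hdim
      intro k hk
      obtain ⟨x, hx, y, hy, hxy⟩ := mem_free.1 hk
      exact mem_free.2 ⟨x, hL1 hx, y, hL1 hy, hxy⟩)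
    exact hv (ha v (fun k hk => absurd (hJu ▸ mem_univ k) hk))
  refine (measure_mono hsub).trans ((measure_biUnion_finset_le _ _).trans ?_)
  have h2 : ∀ K ∈ bad n d, law n d p {ω | ∀ x ∈ K, ω x = true} = ENNReal.ofReal p ^ 5 := by
    intro K hK
    rw [law_all h0 h1, (mem_bad.1 hK).1]
  rw [sum_congr rfl h2, sum_const, nsmul_eq_mul]
  gcongr
  exact card_bad hd

end lower

section exist

/-- the probability as a polynomial -/
noncomputable def poly (S : Finset (V n d → Bool)) (p : ℝ) : ℝ :=
  ∑ ω ∈ S, ∏ x : V n d, if ω x = true then p else 1 - p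

lemma law_poly (S : Finset (V n d → Bool)) {p : ℝ} (h0 : 0 ≤ p) (h1 : p ≤ 1) :
    law n d p (S : Set (V n d → Bool)) = ENNReal.ofReal (poly S p) := by
  have := siteLaw_prob h0 h1
  have hnn : ∀ (ω : V n d → Bool) (x : V n d), 0 ≤ (if ω x = true then p else 1 - p) := by
    intro ω x; split_ifs <;> linarith
  rw [← sum_measure_singleton, poly, ENNReal.ofReal_sum_of_nonneg
    (fun ω _ => prod_nonneg fun x _ => hnn ω x)]
  refine sum_congr rfl fun ω _ => ?_
  rw [law, Measure.pi_singleton, ENNReal.ofReal_prod_of_nonneg (fun x _ => hnn ω x)]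
  refine prod_congr rfl fun x _ => ?_
  cases h : ω x
  · rw [siteLaw_false]; simp
  · rw [siteLaw_true]; simp

lemma poly_cont (S : Finset (V n d → Bool)) : Continuous (poly S) := by
  unfold poly
  refine continuous_finsetSum _ fun ω _ => continuous_finsetProd _ fun x _ => ?_
  split_ifs <;> fun_prop

theorem exists_critical {θ i : ℕ} (hθ : 1 ≤ θ) (hi : i ≤ d) (hn : 1 ≤ n) :
    ∃ p, IsCritical n d θ i p := by
  classical
  set S : Finset (V n d → Bool) := univ.filter fun ω => SubgraphOpen θ i ω with hS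
  have hSset : {ω : V n d → Bool | SubgraphOpen θ i ω} = (S : Set (V n d → Bool)) := by
    ext ω; simp [hS]
  have hf0 : poly S 0 = 0 := by
    refine sum_eq_zero fun ω hω => ?_
    rw [hS, mem_filter] at hω
    obtain ⟨_, J, _, a, ha⟩ := hω
    have : ∃ x, ω x = true := by
      by_contra hcon
      push Not at hcon
      have hω0 : ω = fun _ => false := by
        funext x
        simpa using hcon x
      have hstep : step θ (fun _ : V n d => false) = fun _ => false := by
        funext v
        simp only [step, Bool.false_or, Bool.false_eq_true, and_false, filter_false, card_empty,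
          decide_eq_false_iff_not]
        omega
      have hit : ∀ j, (step θ)^[j] (fun _ : V n d => false) = fun _ => false := by
        intro j
        induction j with
        | zero => rfl
        | succ j ih => rw [Function.iterate_succ_apply', ih, hstep]
      obtain ⟨j, hj⟩ := ha a (fun _ _ => rfl)
      rw [hω0, hit j] at hj
      exact absurd hj (by simp)
    obtain ⟨x, hx⟩ := this
    exact prod_eq_zero (mem_univ x) (by simp [hx])
  have hf1 : 1 ≤ poly S 1 := by
    have hmem : (fun _ : V n d => true) ∈ S := by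
      rw [hS, mem_filter]
      obtain ⟨J, _, hJ⟩ := exists_subset_card_eq (s := (univ : Finset (Fin d))) (n := i)
        (by rw [card_univ, Fintype.card_fin]; exact hi)
      exact ⟨mem_univ _, J, hJ, fun _ => ⟨0, by omega⟩, fun x _ => final_of_init rfl⟩
    have h1 : (∏ x : V n d, if (fun _ : V n d => true) x = true then (1:ℝ) else 1 - 1) = 1 := by
      simp
    refine le_trans (le_of_eq h1.symm) ?_
    refine single_le_sum (f := fun ω : V n d → Bool => ∏ x : V n d, if ω x = true then (1:ℝ) else 1 - 1)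
      (fun ω _ => prod_nonneg fun x _ => ?_) hmem
    split_ifs <;> norm_num
  have hivt := intermediate_value_Icc (zero_le_one (α := ℝ)) (poly_cont S).continuousOn
  obtain ⟨p, hp, hpe⟩ := hivt (show (1 / 2 : ℝ) ∈ Set.Icc (poly S 0) (poly S 1) by
    rw [hf0]; exact ⟨by norm_num, by linarith⟩)
  refine ⟨p, hp.1, hp.2, ?_⟩
  rw [hSset, law_poly S hp.1 hp.2, hpe]
  rw [ENNReal.ofReal_div_of_pos (by norm_num)]
  simp

end exist

section final

lemma crit_two (hd : 2 ≤ d) (hn : 4 ≤ n) {p : ℝ} (hp : IsCritical n d 3 2 p) :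
    0 < p ∧ p ^ 4 * (n : ℝ) ^ (d - 2) ≤ 1 := by
  obtain ⟨h0, h1, h2⟩ := hp
  have hprob : IsProbabilityMeasure (law n d p) := by
    have := siteLaw_prob h0 h1
    unfold law; infer_instance
  have h3 := upper_bound hd hn h0 h1
  have h4 : law n d p {ω | ¬ SubgraphOpen 3 2 ω} = 1 / 2 := by
    have e : {ω : V n d → Bool | ¬ SubgraphOpen 3 2 ω} = {ω | SubgraphOpen 3 2 ω}ᶜ := rfl
    rw [e, prob_compl_eq_one_sub (Set.toFinite _).measurableSet, h2]
    simp
  have h5 : (1 - ENNReal.ofReal p ^ 4) ^ (n ^ (d - 2)) =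
      ENNReal.ofReal ((1 - p ^ 4) ^ (n ^ (d - 2))) := by
    have hp4 : p ^ 4 ≤ 1 := pow_le_one₀ h0 h1
    rw [ENNReal.ofReal_pow (by linarith), ENNReal.ofReal_sub _ (by positivity), ENNReal.ofReal_one,
      ENNReal.ofReal_pow h0]
  rw [h4, h5] at h3
  have h6 : (1:ℝ) / 2 ≤ (1 - p ^ 4) ^ (n ^ (d - 2)) := by
    have : ENNReal.ofReal (1 / 2) ≤ ENNReal.ofReal ((1 - p ^ 4) ^ (n ^ (d - 2))) := by
      refine le_trans (le_of_eq ?_) h3
      rw [ENNReal.ofReal_div_of_pos (by norm_num)]
      simp
    refine (ENNReal.ofReal_le_ofReal_iff ?_).1 this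
    have hp4 : p ^ 4 ≤ 1 := pow_le_one₀ h0 h1
    exact pow_nonneg (by linarith) _
  have h7 : (1 - p ^ 4) ^ (n ^ (d - 2)) ≤ Real.exp (-(p ^ 4 * (n : ℝ) ^ (d - 2))) := by
    have hp4 : p ^ 4 ≤ 1 := pow_le_one₀ h0 h1
    calc (1 - p ^ 4) ^ (n ^ (d - 2)) ≤ (Real.exp (-(p ^ 4))) ^ (n ^ (d - 2)) := by
          apply pow_le_pow_left₀ (by linarith)
          exact Real.one_sub_le_exp_neg _
      _ = Real.exp (-(p ^ 4 * (n : ℝ) ^ (d - 2))) := by
          rw [← Real.exp_nat_mul]
          congr 1
          push_cast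
          ring
  constructor
  · rcases h0.lt_or_eq with h | h
    · exact h
    · exfalso
      rw [← h] at h2
      have h8 : law n d 0 {ω | SubgraphOpen 3 2 ω} ≤ law n d 0 {ω | ¬ ∀ x, ω x = false} := by
        apply measure_mono
        intro ω hω hcon
        obtain ⟨J, _, a, ha⟩ := hω
        have hω0 : ω = fun _ => false := funext hcon
        have hstep : step 3 (fun _ : V n d => false) = fun _ => false := by
          funext v
          simp [step]
        have hit : ∀ j, (step 3)^[j] (fun _ : V n d => false) = fun _ => false := by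
          intro j
          induction j with
          | zero => rfl
          | succ j ih => rw [Function.iterate_succ_apply', ih, hstep]
        obtain ⟨j, hj⟩ := ha a (fun _ _ => rfl)
        rw [hω0, hit j] at hj
        exact absurd hj (by simp)
      have h9 : law n d 0 {ω : V n d → Bool | ¬ ∀ x, ω x = false} = 0 := by
        have hsub : {ω : V n d → Bool | ¬ ∀ x, ω x = false} ⊆
            ⋃ x : V n d, {ω | ∀ y ∈ ({x} : Finset (V n d)), ω y = true} := by
          intro ω hω
          simp only [Set.mem_ofPred_eq, not_forall] at hω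
          obtain ⟨x, hx⟩ := hω
          rw [Set.mem_iUnion]
          exact ⟨x, by simpa using hx⟩
        refine measure_mono_null hsub (measure_iUnion_null fun x => ?_)
        rw [law_all le_rfl zero_le_one]
        simp
      rw [h2, h9] at h8
      simp at h8
  · by_contra hcon
    rw [not_le] at hcon
    have h8 : Real.exp (-(p ^ 4 * (n : ℝ) ^ (d - 2))) < Real.exp (-1) :=
      Real.exp_lt_exp.mpr (by linarith)
    have h9 : Real.exp (-1) < 1 / 2 := by
      have := Real.exp_neg_one_lt_d9
      linarith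
    linarith

lemma crit_top (hd : 14 ≤ d) (hn : 2 ≤ n) {q : ℝ} (hq : IsCritical n d 3 d q) :
    0 < q ∧ 1 ≤ 2 ^ (d + 1) * (n : ℝ) ^ (d + 56) * q ^ 5 := by
  obtain ⟨h0, h1, h2⟩ := hq
  have h3 := lower_bound hd hn h0 h1
  rw [h2] at h3
  have h4 : (1:ℝ) / 2 ≤ (2 ^ d * n ^ (d + 56)) * q ^ 5 := by
    have : ENNReal.ofReal (1 / 2) ≤ ENNReal.ofReal ((2 ^ d * n ^ (d + 56)) * q ^ 5) := by
      refine le_trans (le_of_eq ?_) (h3.trans (le_of_eq ?_))
      · rw [ENNReal.ofReal_div_of_pos (by norm_num)]
        simp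
      · rw [ENNReal.ofReal_mul (by positivity), ENNReal.ofReal_pow h0]
        congr 1
        rw [← ENNReal.ofReal_natCast]
        push_cast
        rfl
    exact (ENNReal.ofReal_le_ofReal_iff (by positivity)).1 this
  have h5 : 1 ≤ 2 ^ (d + 1) * (n : ℝ) ^ (d + 56) * q ^ 5 := by
    rw [pow_succ]
    linarith
  refine ⟨?_, h5⟩
  rcases h0.lt_or_eq with h | h
  · exact h
  · rw [← h] at h5
    norm_num at h5

/-- The gap between the critical values for a plane and for the whole torus, threshold three. -/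
theorem gap (hd : 235 ≤ d) : ∀ᶠ n : ℕ in Filter.atTop,
    (∃ p, IsCritical n d 3 2 p) ∧ (∃ q, IsCritical n d 3 d q) ∧
    ∀ p q, IsCritical n d 3 2 p → IsCritical n d 3 d q →
      ((d : ℝ) - 234) / 40 ≤ Real.logb n q - Real.logb n p := by
  have hlim : Filter.Tendsto (fun n : ℕ => ((d : ℝ) + 1) / 5 * Real.log 2 / Real.log n)
      Filter.atTop (nhds 0) := by
    apply Filter.Tendsto.div_atTop tendsto_const_nhds
    exact Real.tendsto_log_atTop.comp tendsto_natCast_atTop_atTop
  have hdr : (235:ℝ) ≤ d := by exact_mod_cast hd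
  have hpos : (0:ℝ) < ((d : ℝ) - 234) / 40 := by linarith
  filter_upwards [hlim.eventually (gt_mem_nhds hpos), Filter.eventually_ge_atTop 4] with n hn1 hn
  refine ⟨exists_critical (by norm_num) (by omega) (by omega),
    exists_critical (by norm_num) le_rfl (by omega), ?_⟩
  intro p q hp hq
  obtain ⟨hp0, hp1⟩ := crit_two (by omega) hn hp
  obtain ⟨hq0, hq1⟩ := crit_top (by omega) (by omega) hq
  have hnr : (1:ℝ) < n := by
    have : (4:ℝ) ≤ n := by exact_mod_cast hn
    linarith
  have hlog : 0 < Real.log n := Real.log_pos hnr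
  have hn0 : (0:ℝ) < n := by linarith
  have e1 : 4 * Real.log p + ((d : ℝ) - 2) * Real.log n ≤ 0 := by
    have h := Real.log_le_log (by positivity) hp1
    rw [Real.log_one, Real.log_mul (by positivity) (by positivity), Real.log_pow, Real.log_pow] at h
    have hc : ((d - 2 : ℕ) : ℝ) = (d : ℝ) - 2 := by
      rw [Nat.cast_sub (by omega)]; norm_num
    rw [hc] at h
    exact_mod_cast h
  have e2 : 0 ≤ ((d : ℝ) + 1) * Real.log 2 + ((d : ℝ) + 56) * Real.log n + 5 * Real.log q := by
    have h := Real.log_le_log one_pos hq1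
    rw [Real.log_one, Real.log_mul (by positivity) (by positivity),
      Real.log_mul (by positivity) (by positivity), Real.log_pow, Real.log_pow, Real.log_pow] at h
    push_cast at h
    exact h
  rw [Real.logb, Real.logb, ← sub_div, le_div_iff₀ hlog]
  rw [div_lt_iff₀ hlog] at hn1
  nlinarith

end final

end Pool.Agent.R958.Ham
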