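import Pool.Agent.R437.Met.Tors
import Pool.Agent.R349.PerConst

/-!
# Numbers and the periods of families with symplectic monodromy near a given point
(uses the covering argument of `Pool.Agent.R437.Met.Tors` and the comparison `good_of` of `Pool.Agent.R349.PerConst`)
-/

set_option autoImplicit false
set_option linter.unusedSectionVars false

open NumberField Filter Matrix

namespace Pool.Agent.R958.PN

open Pool.Agent.Y890.MV Pool.Agent.Y890.SM Pool.Agent.R349.PC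
open Pool.Agent.Y124 (Cov)

variable {X : Type} [Fintype X] [DecidableEq X] {ι : Type} [Fintype ι] [DecidableEq ι] {n : ι → ℕ}

theorem cover [Nonempty X] (F : SympFam X n) (k : ℕ) (hk : 0 < k) (ε : ℝ) (hε : 0 < ε) :
    ∃ (D : ℕ) (C T₀ : ℝ), 0 ≤ C ∧ ∀ (K : Type) [Field K] [NumberField K],
      Module.finrank ℚ K ≤ k → ∀ (io : K →+* ℂ) (ξ : Fin k → ℂ) (T : ℝ), T₀ ≤ T →
        Cov D ⌊C * T ^ ε⌋₊ ((fun (e : X → K) j => io (e j)) '' F.Exceptional k K io ξ T) := by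
  classical
  have hf : ∀ q, AnalyticOnNhd ℂ (F.f q) F.U := fun q => F.an q.1 q.2.1 q.2.2
  obtain ⟨D, C, T₀, hC, hT₀, H⟩ := excT_cov F.conn F.isOpen F.nonempty hf F.tor (InnerM F.U k) (innerM_compact _ _)
    (innerM_sub _ hk) k (Fin k) k (k : ℝ) ε hε
  refine ⟨D, 2 * C, T₀, by positivity, fun K _ _ hK io ξ T hT0 => ?_⟩
  have h1 := (H K hK io ξ T hT0).union (H K hK io (fun a : Fin k => tpi ^ (a : ℕ)) T hT0)
  rw [← Set.image_union] at h1
  refine h1.mono le_rfl ?_ (Set.image_mono (F.exceptional_sub k hk K io ξ T))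
  have h2 : (0 : ℝ) ≤ C * T ^ ε := by
    have : (0 : ℝ) < T := by linarith
    positivity
  apply Nat.le_floor
  push_cast
  have h3 := Nat.floor_le h2
  linarith

/-- one number `z` -/
theorem near1 [Nonempty X] (F : SympFam X n) (K : Type) [Field K] [NumberField K] (io : K →+* ℂ) (z : ℂ)
    (τ : ℝ) (hτ : 0 < τ) :
    ∃ E : Set (X → ℂ),
      dimH E ≤ ENNReal.ofReal (2 * (Module.finrank ℚ K : ℝ) * ((Fintype.card X : ℝ) - 1) / τ) ∧
      ∀ ξ ∈ F.U, ξ ∉ E → ∀ (k : ℕ) (C : ℝ), ∃ T₁ : ℝ, ∀ T : ℝ, T₁ ≤ T → ∀ s : X → K,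
        (∀ j, Y120.HtLe K T (s j) ∧ ‖ξ j - io (s j)‖ ≤ C * T ^ (-τ)) →
          (fun j => io (s j)) ∈ F.U ∧ Good F k K io T z (fun j => io (s j)) := by
  classical
  obtain ⟨E, hE, h⟩ := R437.Met.Tors.near K io F.U F.isOpen
    (fun k T s => ¬ F.Generic k K io (fun a : Fin k => z ^ (a : ℕ)) T (fun j => io (s j)))
    (fun k T T' s hT1 hTT' hbad hgen => hbad fun c' hc' => hgen c' fun l a φ => (hc' l a φ).trans
      (pow_le_pow_left₀ (by linarith) hTT' k))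
    (max (Module.finrank ℚ K) 1)
    (fun k ε hk hε => by
      obtain ⟨D, C, T₀, hC, H⟩ := cover F k (lt_of_lt_of_le one_pos ((le_max_right _ _).trans hk)) ε hε
      exact ⟨D, C, T₀, hC, fun T hT => H K ((le_max_left _ _).trans hk) io (fun a : Fin k => z ^ (a : ℕ)) T hT⟩)
    τ hτ
  refine ⟨E, hE, fun ξ hξ hξE k C => ?_⟩
  obtain ⟨k₀, hk₀⟩ := h ξ hξ hξE
  obtain ⟨T₁, hT₁⟩ := hk₀ (max k₀ (2 * k + 4)) (le_max_left _ _) C
  obtain ⟨r, hr, hrU⟩ := Metric.isOpen_iff.1 F.isOpen ξ hξ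
  obtain ⟨T₂, hT₂⟩ := R437.Met.Near.small (C := |C|) hτ hr
  refine ⟨max (max T₁ T₂) (max 0 (4 * (((Fintype.card (Ix n → Fin (k + 1)) : ℕ) : ℝ) ^ 2 + k + 2))),
    fun T hT s hs => ?_⟩
  have hTa : T₁ ≤ T := ((le_max_left _ _).trans (le_max_left _ _)).trans hT
  have hTb : T₂ ≤ T := ((le_max_right _ _).trans (le_max_left _ _)).trans hT
  have hT0 : 0 ≤ T := ((le_max_left _ _).trans (le_max_right _ _)).trans hT
  have hTc : 4 * (((Fintype.card (Ix n → Fin (k + 1)) : ℕ) : ℝ) ^ 2 + k + 2) ≤ T :=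
    ((le_max_right _ _).trans (le_max_right _ _)).trans hT
  have hd : dist ξ (fun j => io (s j)) ≤ |C| * T ^ (-τ) := by
    rw [dist_pi_le_iff (by positivity)]
    intro j
    rw [dist_eq_norm]
    exact (hs j).2.trans (mul_le_mul_of_nonneg_right (le_abs_self C) (by positivity))
  have hin : (fun j => io (s j)) ∈ F.U := by
    apply hrU
    rw [Metric.mem_ball, dist_comm]
    exact hd.trans_lt (hT₂ T hTb)
  exact ⟨hin, good_of F (le_max_right _ _) io hTc z s hin (not_not.1 (hT₁ T hTa s hs))⟩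

/-- countably many numbers `z` at once, and all `τ > 0` at once if there is one parameter -/
theorem near [Nonempty X] (F : SympFam X n) (K : Type) [Field K] [NumberField K] (io : K →+* ℂ) (Z : Set ℂ)
    (hZ : Z.Countable) :
    (∀ τ : ℝ, 0 < τ → ∃ E : Set (X → ℂ),
      dimH E ≤ ENNReal.ofReal (2 * (Module.finrank ℚ K : ℝ) * ((Fintype.card X : ℝ) - 1) / τ) ∧
      ∀ ξ ∈ F.U, ξ ∉ E → ∀ z ∈ Z, ∀ (k : ℕ) (C : ℝ), ∃ T₁ : ℝ, ∀ T : ℝ, T₁ ≤ T → ∀ s : X → K,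
        (∀ j, Y120.HtLe K T (s j) ∧ ‖ξ j - io (s j)‖ ≤ C * T ^ (-τ)) →
          (fun j => io (s j)) ∈ F.U ∧ Good F k K io T z (fun j => io (s j))) ∧
    (Fintype.card X = 1 → ∃ E : Set (X → ℂ), dimH E = 0 ∧
      ∀ ξ ∈ F.U, ξ ∉ E → ∀ z ∈ Z, ∀ (k : ℕ) (τ C : ℝ), 0 < τ → ∃ T₁ : ℝ, ∀ T : ℝ, T₁ ≤ T → ∀ s : X → K,
        (∀ j, Y120.HtLe K T (s j) ∧ ‖ξ j - io (s j)‖ ≤ C * T ^ (-τ)) →
          (fun j => io (s j)) ∈ F.U ∧ Good F k K io T z (fun j => io (s j))) := by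
  classical
  have key : ∀ τ : ℝ, 0 < τ → ∃ E : Set (X → ℂ),
      dimH E ≤ ENNReal.ofReal (2 * (Module.finrank ℚ K : ℝ) * ((Fintype.card X : ℝ) - 1) / τ) ∧
      ∀ ξ ∈ F.U, ξ ∉ E → ∀ z ∈ Z, ∀ (k : ℕ) (C : ℝ), ∃ T₁ : ℝ, ∀ T : ℝ, T₁ ≤ T → ∀ s : X → K,
        (∀ j, Y120.HtLe K T (s j) ∧ ‖ξ j - io (s j)‖ ≤ C * T ^ (-τ)) →
          (fun j => io (s j)) ∈ F.U ∧ Good F k K io T z (fun j => io (s j)) := by
    intro τ hτ
    choose E hE h using fun z : ℂ => near1 F K io z τ hτ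
    refine ⟨⋃ z ∈ Z, E z, ?_, fun ξ hξ hξE z hz k C => ?_⟩
    · rw [dimH_bUnion hZ]
      exact iSup₂_le fun z _ => hE z
    · refine h z ξ hξ (fun hmem => hξE ?_) k C
      exact Set.mem_iUnion₂.2 ⟨z, hz, hmem⟩
  refine ⟨key, fun hX => ?_⟩
  have h1 := fun m : ℕ => key (1 / ((m : ℝ) + 1)) (by positivity)
  choose E hE hE' using h1
  refine ⟨⋃ m, E m, ?_, fun ξ hξ hξE z hz k τ C hτ => ?_⟩
  · refine le_antisymm ?_ bot_le
    rw [dimH_iUnion]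
    refine iSup_le fun m => (hE m).trans (le_of_eq ?_)
    rw [hX]
    simp
  · obtain ⟨m, hm⟩ := exists_nat_one_div_lt hτ
    obtain ⟨T₁, hT₁⟩ := hE' m ξ hξ (fun hmem => hξE (Set.mem_iUnion.2 ⟨m, hmem⟩)) z hz k |C|
    refine ⟨max T₁ 1, fun T hT s hs => hT₁ T ((le_max_left _ _).trans hT) s fun j => ⟨(hs j).1, ?_⟩⟩
    have hT1 : 1 ≤ T := (le_max_right _ _).trans hT
    refine (hs j).2.trans ?_
    exact mul_le_mul (le_abs_self C) (R437.Met.Fam.pow_mono (by linarith) hT1) (by positivity) (abs_nonneg C)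

end Pool.Agent.R958.PN
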