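import Pool.Agent.R437.Met.Tors
import Pool.Agent.R349.Sect

/-!
# Relations between the sections of an abelian scheme near a given point of the base
(uses the structure `Sect` and the lemmas of `Pool.Agent.R349.Sect`, and the covering argument of
`Pool.Agent.R437.Met.Tors`)
-/

set_option autoImplicit false
set_option linter.unusedSectionVars false

open NumberField Filter

namespace Pool.Agent.R958.SN

open Pool.Agent.Y890.MV Pool.Agent.Y890.VH Pool.Agent.R349.MVB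
open Pool.Agent.Y124 (Cov)

variable {X G H R : Type} [Fintype X] [DecidableEq X] [Nonempty X] [Fintype G] [DecidableEq G] [Fintype H]
  [DecidableEq H] [Fintype R] [DecidableEq R]

/-- **Relations between sections, all points.** -/
theorem cover (S : Sect X G H R) (k : ℕ) (hk : 0 < k) (ε : ℝ) (hε : 0 < ε) :
    ∃ (D : ℕ) (C T₀ : ℝ), 0 ≤ C ∧ ∀ (K : Type) [Field K] [NumberField K], Module.finrank ℚ K ≤ k →
      ∀ (io : K →+* ℂ) (T : ℝ), T₀ ≤ T →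
        Cov D ⌊C * T ^ ε⌋₊ ((fun (s : X → K) j => io (s j)) '' S.Dep k K io T) := by
  classical
  obtain ⟨T₁, hT₁, hsize⟩ := S.size k hk
  obtain ⟨D, C, T₀, hC, hT₀, H0⟩ := excP_cov S.conn S.isOpen S.nonempty S.an S.reg (InnerM S.U k)
    (innerM_compact _ _) (innerM_sub _ hk) (fun (ρ : G) (i : H ⊕ R) => MvPolynomial.X (ρ, i)) k
    ((k + 1 : ℕ) : ℝ) ε hε
  refine ⟨D, C, max T₀ T₁, hC, fun K _ _ hK io T hT => ?_⟩
  have hTT := (le_max_left _ _).trans hT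
  have hT2 : 2 ≤ T := hT₀.trans hTT
  refine (H0 K hK io T hTT).mono le_rfl le_rfl (Set.image_mono ?_)
  rintro s ⟨h2, h3, a, m, ha0, ha, hrel⟩
  refine ⟨h2, h3, fun i => Sum.elim (fun j => -(m j : 𝓞 K)) (fun κ => (a κ : 𝓞 K)) i, ?_, ?_, ?_⟩
  · have hm := hsize T ((le_max_right _ _).trans hT) _ h3 a m ha hrel
    rintro (j | κ) φ
    · show ‖φ ((-(m j : 𝓞 K) : 𝓞 K) : K)‖ ≤ _
      have e1 : ((-(m j : 𝓞 K) : 𝓞 K) : K) = -(m j : K) := by push_cast; rfl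
      rw [e1, map_neg, norm_neg, map_intCast, ← Complex.ofReal_intCast, Complex.norm_real, Real.norm_eq_abs,
        Real.rpow_natCast]
      exact hm j
    · show ‖φ (((a κ : 𝓞 K) : 𝓞 K) : K)‖ ≤ _
      have e1 : (((a κ : 𝓞 K) : 𝓞 K) : K) = (a κ : K) := by rfl
      rw [e1, map_intCast, ← Complex.ofReal_intCast, Complex.norm_real, Real.norm_eq_abs,
        Real.rpow_natCast]
      exact (ha κ).trans (pow_le_pow_right₀ (by linarith) (by omega))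
  · intro ρ
    rw [Fintype.sum_sum_type]
    have e1 : ∀ j : H, io ((-(m j : 𝓞 K) : 𝓞 K) : K) = -(m j : ℂ) := by
      intro j
      have e1 : ((-(m j : 𝓞 K) : 𝓞 K) : K) = -(m j : K) := by push_cast; rfl
      rw [e1, map_neg, map_intCast]
    have e2 : ∀ κ : R, io (((a κ : 𝓞 K) : 𝓞 K) : K) = (a κ : ℂ) := by
      intro κ
      have e1 : (((a κ : 𝓞 K) : 𝓞 K) : K) = (a κ : K) := by rfl
      rw [e1, map_intCast]
    have h5 := hrel ρ
    have e3 : ∑ j : H, io ((Sum.elim (fun j => -(m j : 𝓞 K)) (fun κ => (a κ : 𝓞 K)) (Sum.inl j) : 𝓞 K) : K) *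
        MvPolynomial.eval (fun y => allf S.ω S.l y fun j => io (s j)) (MvPolynomial.X (ρ, (Sum.inl j : H ⊕ R))) =
        - ∑ j, (m j : ℂ) * S.ω ρ j (fun j => io (s j)) := by
      rw [← Finset.sum_neg_distrib]
      refine Finset.sum_congr rfl fun j _ => ?_
      rw [MvPolynomial.eval_X]
      show io ((-(m j : 𝓞 K) : 𝓞 K) : K) * S.ω ρ j (fun j => io (s j)) = _
      rw [e1]
      ring
    have e4 : ∑ κ : R, io ((Sum.elim (fun j => -(m j : 𝓞 K)) (fun κ => (a κ : 𝓞 K)) (Sum.inr κ) : 𝓞 K) : K) *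
        MvPolynomial.eval (fun y => allf S.ω S.l y fun j => io (s j)) (MvPolynomial.X (ρ, (Sum.inr κ : H ⊕ R))) =
        ∑ κ, (a κ : ℂ) * S.l ρ κ (fun j => io (s j)) := by
      refine Finset.sum_congr rfl fun κ _ => ?_
      rw [MvPolynomial.eval_X]
      show io (((a κ : 𝓞 K) : 𝓞 K) : K) * S.l ρ κ (fun j => io (s j)) = _
      rw [e2]
    rw [e3, e4, h5]
    ring
  · rintro ⟨P, hP1, hP2⟩
    refine ha0 (S.no_gen P (fun x hx ρ => ?_) (innerM_sub _ hk h3) a m (fun κ => ?_) (fun j => ?_))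
    · have h6 := hP2 x hx ρ
      simp only [MvPolynomial.eval_X] at h6
      exact h6
    · rw [hP1]
      show io (((a κ : 𝓞 K) : 𝓞 K) : K) = _
      have e1 : (((a κ : 𝓞 K) : 𝓞 K) : K) = (a κ : K) := by rfl
      rw [e1, map_intCast]
    · rw [hP1]
      show io ((-(m j : 𝓞 K) : 𝓞 K) : K) = _
      have e1 : ((-(m j : 𝓞 K) : 𝓞 K) : K) = -(m j : K) := by push_cast; rfl
      rw [e1, map_neg, map_intCast]

/-- **Relations between sections near a given point.** -/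
theorem near (S : Sect X G H R) (K : Type) [Field K] [NumberField K] (io : K →+* ℂ) (τ : ℝ) (hτ : 0 < τ) :
    ∃ E : Set (X → ℂ),
      dimH E ≤ ENNReal.ofReal (2 * (Module.finrank ℚ K : ℝ) * ((Fintype.card X : ℝ) - 1) / τ) ∧
      ∀ ξ ∈ S.U, ξ ∉ E → ∃ k₀ : ℕ, ∀ k : ℕ, k₀ ≤ k → ∀ C : ℝ, ∃ T₁ : ℝ, ∀ T : ℝ, T₁ ≤ T → ∀ s : X → K,
        (∀ j, Y120.HtLe K T (s j) ∧ ‖ξ j - io (s j)‖ ≤ C * T ^ (-τ)) →
          ∀ (a : R → ℤ) (m : H → ℤ), a ≠ 0 → (∀ κ, |(a κ : ℝ)| ≤ T ^ k) →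
            ¬ ∀ ρ, ∑ κ, (a κ : ℂ) * S.l ρ κ (fun j => io (s j)) = ∑ j, (m j : ℂ) * S.ω ρ j (fun j => io (s j)) := by
  classical
  obtain ⟨E, hE, h⟩ := R437.Met.Tors.near K io S.U S.isOpen
    (fun k T s => ∃ (a : R → ℤ) (m : H → ℤ), a ≠ 0 ∧ (∀ κ, |(a κ : ℝ)| ≤ T ^ k) ∧
      ∀ ρ, ∑ κ, (a κ : ℂ) * S.l ρ κ (fun j => io (s j)) = ∑ j, (m j : ℂ) * S.ω ρ j (fun j => io (s j)))
    (fun k T T' s hT1 hTT' ⟨a, m, h1, h2, h3⟩ => ⟨a, m, h1, fun κ => (h2 κ).trans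
      (pow_le_pow_left₀ (by linarith) hTT' k), h3⟩)
    (max (Module.finrank ℚ K) 1)
    (fun k ε hk hε => by
      obtain ⟨D, C, T₀, hC, H⟩ := cover S k (lt_of_lt_of_le one_pos ((le_max_right _ _).trans hk)) ε hε
      exact ⟨D, C, T₀, hC, fun T hT => H K ((le_max_left _ _).trans hk) io T hT⟩)
    τ hτ
  refine ⟨E, hE, fun ξ hξ hξE => ?_⟩
  obtain ⟨k₀, hk₀⟩ := h ξ hξ hξE
  refine ⟨k₀, fun k hk C => ?_⟩
  obtain ⟨T₁, hT₁⟩ := hk₀ k hk C
  exact ⟨T₁, fun T hT s hs a m ha ha' hrel => hT₁ T hT s hs ⟨a, m, ha, ha', hrel⟩⟩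

/-- **Torsion values of the combinations of the sections near a given point.** -/
theorem tors (S : Sect X G H R) (K : Type) [Field K] [NumberField K] (io : K →+* ℂ) (τ : ℝ) (hτ : 0 < τ) :
    ∃ E : Set (X → ℂ),
      dimH E ≤ ENNReal.ofReal (2 * (Module.finrank ℚ K : ℝ) * ((Fintype.card X : ℝ) - 1) / τ) ∧
      ∀ ξ ∈ S.U, ξ ∉ E → ∀ (k : ℕ) (C : ℝ), ∃ T₁ : ℝ, ∀ T : ℝ, T₁ ≤ T → ∀ s : X → K,
        (∀ j, Y120.HtLe K T (s j) ∧ ‖ξ j - io (s j)‖ ≤ C * T ^ (-τ)) →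
          ∀ a : R → ℤ, a ≠ 0 → (∀ κ, |(a κ : ℝ)| ≤ T ^ k) →
            addOrderOf (∑ κ, a κ • S.val κ fun j => io (s j)) = 0 ∨
              T ^ k < addOrderOf (∑ κ, a κ • S.val κ fun j => io (s j)) := by
  classical
  obtain ⟨E, hE, h⟩ := near S K io τ hτ
  refine ⟨E, hE, fun ξ hξ hξE k C => ?_⟩
  obtain ⟨k₀, hk₀⟩ := h ξ hξ hξE
  obtain ⟨T₁, hT₁⟩ := hk₀ (max k₀ (2 * k)) (le_max_left _ _) C
  refine ⟨max T₁ 1, fun T hT s hs a ha0 ha => ?_⟩
  have hT1 : 1 ≤ T := (le_max_right _ _).trans hT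
  set N := addOrderOf (∑ κ, a κ • S.val κ fun j => io (s j)) with hN
  rcases Nat.eq_zero_or_pos N with hN0 | hpos
  · exact Or.inl hN0
  · refine Or.inr ?_
    by_contra hle
    rw [not_lt] at hle
    have hNa : ∑ κ, (fun κ => (N : ℤ) * a κ) κ • S.val κ (fun j => io (s j)) = 0 := by
      have h4 : N • (∑ κ, a κ • S.val κ fun j => io (s j)) = 0 := addOrderOf_nsmul_eq_zero _
      rw [← natCast_zsmul, Finset.smul_sum] at h4
      rw [← h4]
      exact Finset.sum_congr rfl fun κ _ => by rw [mul_smul]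
    obtain ⟨m, hm⟩ := S.val_eq _ _ hNa
    refine hT₁ T ((le_max_left _ _).trans hT) s hs (fun κ => (N : ℤ) * a κ) m ?_ (fun κ => ?_) hm
    · intro h5
      apply ha0
      funext κ
      have h6 := congrFun h5 κ
      simp only [Pi.zero_apply, mul_eq_zero, Nat.cast_eq_zero] at h6
      rcases h6 with h7 | h7
      · exact absurd h7 hpos.ne'
      · exact h7
    · push_cast
      rw [abs_mul, Nat.abs_cast]
      calc (N : ℝ) * |(a κ : ℝ)| ≤ T ^ k * T ^ k := mul_le_mul hle (ha κ) (abs_nonneg _) (by positivity)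
        _ = T ^ (2 * k) := by rw [two_mul, pow_add]
        _ ≤ T ^ (max k₀ (2 * k)) := pow_le_pow_right₀ hT1 (le_max_right _ _)

end Pool.Agent.R958.SN
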