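import Mathlib

/-!
Stable multi-matchings of marked Poisson processes: heavy-tailed numbers of stubs
give an infinite component.
-/

set_option autoImplicit false

open MeasureTheory ProbabilityTheory Set Filter
open scoped ENNReal NNReal Topology

namespace Pool.Agent.R958.Stub

variable {Ω E : Type*}

/-- The number of indices `n` with `x n ∈ A`. -/
noncomputable def count (x : ℕ → E) (A : Set E) : ℕ∞ := {n | x n ∈ A}.encard

/-- `X 0, X 1, …` is a (measurable) enumeration of the points of a Poisson process of intensity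
one (with respect to `volume`) on `E`, and `D 0, D 1, …` are independent marks with law `μ`,
independent of the points; `D n` is the mark of the point `X n`. -/
structure IsMarkedPoisson [MeasurableSpace Ω] [MeasureSpace E] (P : Measure Ω)
    (X : ℕ → Ω → E) (D : ℕ → Ω → ℕ) (μ : Measure ℕ) : Prop where
  measurable_point : ∀ n, Measurable (X n)
  measurable_mark : ∀ n, Measurable (D n)
  distinct : ∀ᵐ ω ∂P, Function.Injective (fun n => X n ω)
  count_law : ∀ A : Set E, MeasurableSet A → volume A ≠ ∞ → ∀ k : ℕ,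
    P {ω | count (fun n => X n ω) A = k} =
      ENNReal.ofReal (Real.exp (-(volume A).toReal) * (volume A).toReal ^ k / k.factorial)
  count_indep : ∀ (m : ℕ) (A : Fin m → Set E), (∀ i, MeasurableSet (A i)) →
    Pairwise (fun i j => Disjoint (A i) (A j)) →
    iIndepFun (fun i ω => count (fun n => X n ω) (A i)) P
  mark_law : ∀ n, P.map (D n) = μ
  mark_indep : iIndepFun D P
  point_mark_indep : IndepFun (fun ω n => X n ω) (fun ω n => D n ω) P

/-- In the graph `G` on the points `x 0, x 1, …` with `D i` stubs at `x i`, the point `x i` is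
willing to link to `x j`: it has fewer than `D i` edges, or an edge longer than the distance
between `x i` and `x j`. -/
def Willing [Dist E] (x : ℕ → E) (D : ℕ → ℕ) (G : SimpleGraph ℕ) (i j : ℕ) : Prop :=
  (G.neighborSet i).encard < D i ∨ ∃ k, G.Adj i k ∧ dist (x i) (x j) < dist (x i) (x k)

section det

variable [Dist E]

lemma willing_of_large {x : ℕ → E} {D : ℕ → ℕ} {G : SimpleGraph ℕ} {i j : ℕ} (hij : i ≠ j)
    (hadj : ¬ G.Adj i j) {F : Set ℕ} (hF : F.Finite)
    (hiF : ∀ k, dist (x i) (x k) ≤ dist (x i) (x j) → k ∈ F) (hD : F.encard ≤ D i) :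
    Willing x D G i j := by
  by_contra hw
  unfold Willing at hw
  push Not at hw
  obtain ⟨h1, h2⟩ := hw
  have hsub : G.neighborSet i ⊆ F \ {j} := by
    intro k hk
    refine ⟨hiF k (h2 k hk), ?_⟩
    intro hkj
    rw [mem_singleton_iff] at hkj
    subst hkj
    exact hadj hk
  have hj : j ∈ F := hiF j le_rfl
  have hlt : (F \ {j}).encard < F.encard := by
    apply Set.Finite.encard_lt_encard (hF.subset sdiff_subset)
    refine ⟨sdiff_subset, fun h => ?_⟩
    exact (h hj).2 rfl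
  have h3 := encard_le_encard hsub
  exact absurd (lt_of_lt_of_le (lt_of_le_of_lt (h1.trans h3) hlt) hD) (lt_irrefl _)

lemma adj_of_large {x : ℕ → E} {D : ℕ → ℕ} {G : SimpleGraph ℕ}
    (hst : ∀ i j, i ≠ j → ¬ G.Adj i j → ¬ (Willing x D G i j ∧ Willing x D G j i))
    {i j : ℕ} (hij : i ≠ j) {F : Set ℕ} (hF : F.Finite)
    (hiF : ∀ k, dist (x i) (x k) ≤ dist (x i) (x j) → k ∈ F)
    (hjF : ∀ k, dist (x j) (x k) ≤ dist (x j) (x i) → k ∈ F)
    (hDi : F.encard ≤ D i) (hDj : F.encard ≤ D j) : G.Adj i j := by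
  by_contra h
  exact hst i j hij h ⟨willing_of_large hij h hF hiF hDi,
    willing_of_large hij.symm (fun h' => h h'.symm) hF hjF hDj⟩

end det

lemma infinite_component {G : SimpleGraph ℕ} {D : ℕ → ℕ} {m : ℕ → ℕ} (hm : Tendsto m atTop atTop)
    {v : ℕ → ℕ} {k0 : ℕ} (hv : ∀ k, k0 ≤ k → m k ≤ D (v k))
    (hadj : ∀ k, k0 ≤ k → v k ≠ v (k + 1) → G.Adj (v k) (v (k + 1))) :
    ∃ c : G.ConnectedComponent, c.supp.Infinite := by
  refine ⟨G.connectedComponentMk (v k0), ?_⟩
  have hmem : ∀ k, k0 ≤ k → v k ∈ (G.connectedComponentMk (v k0)).supp := by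
    intro k hk
    induction k, hk using Nat.le_induction with
    | base => rfl
    | succ n hn ih =>
      rw [SimpleGraph.ConnectedComponent.mem_supp_iff] at ih ⊢
      rw [← ih]
      by_cases he : v n = v (n + 1)
      · rw [he]
      · exact (SimpleGraph.ConnectedComponent.sound (hadj n hn he).reachable).symm
  intro hfin
  -- the values `D (v k)` would be bounded
  obtain ⟨B, hB⟩ := (hfin.image D).bddAbove
  obtain ⟨k, hk1, hk2⟩ := ((tendsto_atTop.mp hm (B + 1)).and (eventually_ge_atTop k0)).exists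
  have := hB (mem_image_of_mem D (hmem k hk2))
  have := hv k hk2
  omega

section prob

variable [MeasurableSpace Ω] [MeasurableSpace E] {P : Measure Ω} {X : ℕ → Ω → E} {D : ℕ → Ω → ℕ}

lemma measurable_fiber (hX : ∀ n, Measurable (X n)) {A : Set E} (hA : MeasurableSet A)
    (s : Finset ℕ) : MeasurableSet {ω | {n | X n ω ∈ A} = (s : Set ℕ)} := by
  have : {ω | {n | X n ω ∈ A} = (s : Set ℕ)} = ⋂ n, {ω | X n ω ∈ A ↔ n ∈ s} := by
    ext ω
    simp only [mem_ofPred_eq, Set.ext_iff, Finset.mem_coe, mem_iInter]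
  rw [this]
  refine MeasurableSet.iInter (fun n => ?_)
  by_cases hn : n ∈ s
  · have : {ω | X n ω ∈ A ↔ n ∈ s} = X n ⁻¹' A := by
      ext ω; simp [hn]
    rw [this]
    exact hX n hA
  · have : {ω | X n ω ∈ A ↔ n ∈ s} = (X n ⁻¹' A)ᶜ := by
      ext ω; simp [hn]
    rw [this]
    exact (hX n hA).compl

omit [MeasurableSpace E] in
lemma count_eq_iff {x : ℕ → E} {A : Set E} {k : ℕ} :
    count x A = k ↔ ∃ s : {s : Finset ℕ // s.card = k}, {n | x n ∈ A} = (s.1 : Set ℕ) := by
  unfold count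
  constructor
  · intro h
    have hfin : {n | x n ∈ A}.Finite := by
      rw [← encard_ne_top_iff, h]
      exact ENat.natCast_ne_top k
    refine ⟨⟨hfin.toFinset, ?_⟩, by simp⟩
    rw [hfin.encard_eq_coe_toFinset_card] at h
    exact_mod_cast h
  · rintro ⟨⟨s, hs⟩, h⟩
    rw [h, encard_coe_eq_coe_finsetCard, hs]

lemma measure_count_eq (hX : ∀ n, Measurable (X n)) {A : Set E} (hA : MeasurableSet A) (k : ℕ) :
    P {ω | count (fun n => X n ω) A = k} =
      ∑' s : {s : Finset ℕ // s.card = k}, P {ω | {n | X n ω ∈ A} = (s.1 : Set ℕ)} := by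
  rw [← measure_iUnion]
  · congr 1
    ext ω
    simp only [mem_ofPred_eq, mem_iUnion]
    exact count_eq_iff
  · intro s t hst
    rw [Function.onFun, Set.disjoint_left]
    intro ω h1 h2
    apply hst
    simp only [mem_ofPred_eq] at h1 h2
    rw [h1] at h2
    exact Subtype.ext (Finset.coe_injective h2)
  · exact fun s => measurable_fiber hX hA s.1

lemma measurable_count_eq (hX : ∀ n, Measurable (X n)) {A : Set E} (hA : MeasurableSet A) (k : ℕ) :
    MeasurableSet {ω | count (fun n => X n ω) A = k} := by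
  have : {ω | count (fun n => X n ω) A = k} =
      ⋃ s : {s : Finset ℕ // s.card = k}, {ω | {n | X n ω ∈ A} = (s.1 : Set ℕ)} := by
    ext ω
    simp only [mem_ofPred_eq, mem_iUnion]
    exact count_eq_iff
  rw [this]
  exact MeasurableSet.iUnion (fun s => measurable_fiber hX hA s.1)

end prob

section poisson

lemma tsum_poisson {l r : ℝ} (hl : 0 ≤ l) (hr : 0 ≤ r) :
    ∑' k : ℕ, ENNReal.ofReal (Real.exp (-l) * l ^ k / k.factorial) * ENNReal.ofReal r ^ k =
      ENNReal.ofReal (Real.exp (l * (r - 1))) := by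
  have h1 : ∀ k : ℕ, ENNReal.ofReal (Real.exp (-l) * l ^ k / k.factorial) * ENNReal.ofReal r ^ k =
      ENNReal.ofReal (Real.exp (-l) * ((l * r) ^ k / k.factorial)) := by
    intro k
    rw [← ENNReal.ofReal_pow hr, ← ENNReal.ofReal_mul (by positivity)]
    congr 1
    rw [mul_pow]
    ring
  simp_rw [h1]
  have hs : HasSum (fun k : ℕ => Real.exp (-l) * ((l * r) ^ k / k.factorial))
      (Real.exp (-l) * Real.exp (l * r)) := by
    have := NormedSpace.expSeries_div_hasSum_exp (l * r)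
    rw [← Real.exp_eq_exp_ℝ] at this
    exact this.mul_left _
  rw [← ENNReal.ofReal_tsum_of_nonneg (fun k => by positivity) hs.summable, hs.tsum_eq,
    ← Real.exp_add]
  congr 2
  ring

variable [MeasurableSpace Ω] [MeasureSpace E] {P : Measure Ω} [IsProbabilityMeasure P]
  {X : ℕ → Ω → E} {D : ℕ → Ω → ℕ} {μ : Measure ℕ}

lemma count_top (h : IsMarkedPoisson P X D μ) {A : Set E} (hA : MeasurableSet A)
    (hv : volume A ≠ ∞) : P {ω | count (fun n => X n ω) A = ⊤} = 0 := by
  have h1 : P (⋃ k : ℕ, {ω | count (fun n => X n ω) A = k}) = 1 := by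
    rw [measure_iUnion]
    · simp_rw [h.count_law A hA hv]
      have := tsum_poisson (l := (volume A).toReal) (r := 1) ENNReal.toReal_nonneg zero_le_one
      simpa using this
    · intro i j hij
      rw [Function.onFun, Set.disjoint_left]
      intro ω h1 h2
      apply hij
      simp only [mem_ofPred_eq] at h1 h2
      rw [h1] at h2
      exact_mod_cast h2
    · exact fun k => measurable_count_eq h.measurable_point hA k
  have h2 : MeasurableSet (⋃ k : ℕ, {ω | count (fun n => X n ω) A = k}) :=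
    MeasurableSet.iUnion fun k => measurable_count_eq h.measurable_point hA k
  have h3 : P (⋃ k : ℕ, {ω | count (fun n => X n ω) A = k})ᶜ = 0 := by
    rw [prob_compl_eq_zero_iff h2]
    exact h1
  refine measure_mono_null ?_ h3
  intro ω hω
  simp only [mem_ofPred_eq, mem_compl_iff, mem_iUnion, not_exists] at hω ⊢
  intro k
  rw [hω]
  exact (ENat.natCast_ne_top k).symm

lemma count_tail (h : IsMarkedPoisson P X D μ) {A : Set E} (hA : MeasurableSet A)
    (hv : volume A ≠ ∞) (m : ℕ) :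
    P {ω | (m : ℕ∞) < count (fun n => X n ω) A} ≤
      ENNReal.ofReal (Real.exp (volume A).toReal / 2 ^ m) := by
  have hsub : {ω | (m : ℕ∞) < count (fun n => X n ω) A} ⊆
      {ω | count (fun n => X n ω) A = ⊤} ∪
        ⋃ k : {k : ℕ // m < k}, {ω | count (fun n => X n ω) A = k.1} := by
    intro ω hω
    simp only [mem_ofPred_eq] at hω
    by_cases ht : count (fun n => X n ω) A = ⊤
    · exact Or.inl ht
    · obtain ⟨k, hk⟩ := ENat.ne_top_iff_exists.mp ht
      refine Or.inr (mem_iUnion.mpr ⟨⟨k, ?_⟩, hk.symm⟩)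
      rw [← hk] at hω
      exact_mod_cast hω
  have h1 := (measure_mono (μ := P) hsub).trans (measure_union_le _ _)
  rw [count_top h hA hv, zero_add] at h1
  refine (h1.trans (measure_iUnion_le _)).trans ?_
  have h2 : ∑' k : {k : ℕ // m < k}, P {ω | count (fun n => X n ω) A = k.1} ≤
      ∑' k : {k : ℕ // m < k}, ENNReal.ofReal (Real.exp (-(volume A).toReal) *
        (volume A).toReal ^ k.1 / k.1.factorial) * ENNReal.ofReal 2 ^ k.1 *
          ENNReal.ofReal (1 / 2 ^ m) := by
    refine ENNReal.tsum_le_tsum (fun k => ?_)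
    rw [h.count_law A hA hv, mul_assoc]
    refine le_mul_of_one_le_right zero_le ?_
    rw [← ENNReal.ofReal_pow (by norm_num), ← ENNReal.ofReal_mul (by positivity),
      ENNReal.one_le_ofReal, mul_one_div, le_div_iff₀ (by positivity), one_mul]
    exact pow_le_pow_right₀ (by norm_num) k.2.le
  refine h2.trans ?_
  refine (ENNReal.tsum_comp_le_tsum_of_injective (f := (Subtype.val : {k : ℕ // m < k} → ℕ))
    Subtype.val_injective (fun k : ℕ => ENNReal.ofReal (Real.exp (-(volume A).toReal) *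
        (volume A).toReal ^ k / k.factorial) * ENNReal.ofReal 2 ^ k *
          ENNReal.ofReal (1 / 2 ^ m))).trans ?_
  rw [ENNReal.tsum_mul_right, tsum_poisson ENNReal.toReal_nonneg (by norm_num),
    ← ENNReal.ofReal_mul (by positivity)]
  apply ENNReal.ofReal_le_ofReal
  rw [mul_one_div]
  norm_num

/-- The probability that no point of `A` has a mark at least `m`. -/
lemma no_large (h : IsMarkedPoisson P X D μ) [IsProbabilityMeasure μ] {A : Set E}
    (hA : MeasurableSet A) (hv : volume A ≠ ∞) (m : ℕ) :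
    P {ω | ∀ n, X n ω ∈ A → D n ω < m} ≤
      ENNReal.ofReal (Real.exp (-((volume A).toReal * (μ (Ici m)).toReal))) := by
  set r : ℝ := (μ (Iio m)).toReal with hr
  have hr0 : 0 ≤ r := ENNReal.toReal_nonneg
  have hrq : r - 1 = -(μ (Ici m)).toReal := by
    have : μ (Ici m) = 1 - μ (Iio m) := by
      rw [← compl_Iio, prob_compl_eq_one_sub measurableSet_Iio]
    rw [this, ENNReal.toReal_sub_of_le prob_le_one ENNReal.one_ne_top, ENNReal.toReal_one]
    ring
  have hkey : ∀ s : Finset ℕ, P ({ω | {n | X n ω ∈ A} = (s : Set ℕ)} ∩ {ω | ∀ n ∈ s, D n ω < m}) =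
      P {ω | {n | X n ω ∈ A} = (s : Set ℕ)} * ENNReal.ofReal r ^ s.card := by
    intro s
    have hind := h.point_mark_indep
    rw [indepFun_iff_measure_inter_preimage_eq_mul] at hind
    have hS : MeasurableSet {x : ℕ → E | {n | x n ∈ A} = (s : Set ℕ)} :=
      measurable_fiber (X := fun n (x : ℕ → E) => x n) (fun n => measurable_pi_apply n) hA s
    have hT : MeasurableSet {d : ℕ → ℕ | ∀ n ∈ s, d n < m} := by
      have : {d : ℕ → ℕ | ∀ n ∈ s, d n < m} = ⋂ n ∈ s, (fun d : ℕ → ℕ => d n) ⁻¹' Iio m := by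
        ext d; simp
      rw [this]
      exact Finset.measurableSet_biInter s (fun n _ => measurable_pi_apply n measurableSet_Iio)
    have h1 := hind _ _ hS hT
    have h2 : P {ω | ∀ n ∈ s, D n ω < m} = ENNReal.ofReal r ^ s.card := by
      have h3 := h.mark_indep.measure_inter_preimage_eq_mul s (sets := fun _ => Iio m)
        (fun _ _ => measurableSet_Iio)
      have h4 : {ω | ∀ n ∈ s, D n ω < m} = ⋂ n ∈ s, D n ⁻¹' Iio m := by
        ext ω; simp
      rw [h4, h3, Finset.prod_congr rfl (g := fun _ => ENNReal.ofReal r), Finset.prod_const]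
      intro n _
      rw [← Measure.map_apply (h.measurable_mark n) measurableSet_Iio, h.mark_law n, hr,
        ENNReal.ofReal_toReal (measure_ne_top _ _)]
    rw [← h2]
    exact h1
  have hsub : {ω | ∀ n, X n ω ∈ A → D n ω < m} ⊆ {ω | count (fun n => X n ω) A = ⊤} ∪
      ⋃ s : Finset ℕ, ({ω | {n | X n ω ∈ A} = (s : Set ℕ)} ∩ {ω | ∀ n ∈ s, D n ω < m}) := by
    intro ω hω
    by_cases ht : count (fun n => X n ω) A = ⊤
    · exact Or.inl ht
    · obtain ⟨k, hk⟩ := ENat.ne_top_iff_exists.mp ht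
      obtain ⟨s, hs⟩ := count_eq_iff.mp hk.symm
      refine Or.inr (mem_iUnion.mpr ⟨s.1, hs, ?_⟩)
      intro n hn
      apply hω n
      have : n ∈ (s.1 : Set ℕ) := hn
      rw [← hs] at this
      exact this
  have h1 := (measure_mono (μ := P) hsub).trans (measure_union_le _ _)
  rw [count_top h hA hv, zero_add] at h1
  refine (h1.trans (measure_iUnion_le _)).trans ?_
  simp_rw [hkey]
  rw [← (Equiv.sigmaFiberEquiv (Finset.card : Finset ℕ → ℕ)).tsum_eq, ENNReal.tsum_sigma']
  have h5 : ∀ k : ℕ, ∑' s : {s : Finset ℕ // s.card = k},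
      P {ω | {n | X n ω ∈ A} = (((Equiv.sigmaFiberEquiv (Finset.card : Finset ℕ → ℕ))
        ⟨k, s⟩ : Finset ℕ) : Set ℕ)} *
        ENNReal.ofReal r ^ ((Equiv.sigmaFiberEquiv (Finset.card : Finset ℕ → ℕ)) ⟨k, s⟩).card =
      ENNReal.ofReal (Real.exp (-(volume A).toReal) * (volume A).toReal ^ k / k.factorial) *
        ENNReal.ofReal r ^ k := by
    intro k
    rw [← h.count_law A hA hv k, measure_count_eq h.measurable_point hA k, ← ENNReal.tsum_mul_right]
    refine tsum_congr (fun s => ?_)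
    simp only [Equiv.sigmaFiberEquiv_apply]
    rw [s.2]
  rw [tsum_congr h5, tsum_poisson ENNReal.toReal_nonneg hr0, hrq, mul_neg]

end poisson

section main

variable [MeasurableSpace Ω] [NormedAddCommGroup E] [NormedSpace ℝ E] [FiniteDimensional ℝ E]
  [Nontrivial E] [MeasureSpace E] [BorelSpace E] [(volume : Measure E).IsAddHaarMeasure]
  {P : Measure Ω} [IsProbabilityMeasure P]
  {X : ℕ → Ω → E} {D : ℕ → Ω → ℕ} {μ : Measure ℕ} [IsProbabilityMeasure μ]

theorem heavy_percolates (h : IsMarkedPoisson P X D μ) {c : ℝ} (hc : 0 < c)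
    (hμ : ∀ n : ℕ, 1 ≤ n → c / √n ≤ (μ (Ici n)).toReal) :
    ∀ᵐ ω ∂P, ∀ G : SimpleGraph ℕ,
      (∀ i j, i ≠ j → ¬ G.Adj i j → ¬ (Willing (fun n => X n ω) (fun n => D n ω) G i j ∧
        Willing (fun n => X n ω) (fun n => D n ω) G j i)) →
      ∃ C : G.ConnectedComponent, C.supp.Infinite := by
  set d := Module.finrank ℝ E with hd
  have hd1 : 1 ≤ d := Module.finrank_pos
  set v : ℝ := (volume (Metric.ball (0:E) 1)).toReal with hvdef
  have hvtop : volume (Metric.ball (0:E) 1) ≠ ∞ := measure_ball_lt_top.ne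
  have hv : 0 < v := ENNReal.toReal_pos (Metric.measure_ball_pos volume _ one_pos).ne' hvtop
  have hball : ∀ r : ℝ, 0 ≤ r → (volume (Metric.ball (0:E) r)).toReal = r ^ d * v := by
    intro r hr
    rw [Measure.addHaar_ball volume _ hr, ENNReal.toReal_mul, ENNReal.toReal_ofReal (by positivity)]
  obtain ⟨R, hR⟩ := exists_nat_ge (3 * v * 8 ^ d)
  have hRpos : 0 < R := by
    have : (0:ℝ) < R := lt_of_lt_of_le (by positivity) hR
    exact_mod_cast this
  have hRpos' : (0:ℝ) < R := by exact_mod_cast hRpos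
  set m : ℕ → ℕ := fun k => R * (2 ^ k) ^ d with hmdef
  have hN1 : ∀ k : ℕ, (2:ℝ) ^ k ≤ (2 ^ k) ^ d := fun k =>
    le_self_pow₀ (one_le_pow₀ (by norm_num)) (by omega)
  have hm1 : ∀ k, 1 ≤ m k := fun k => Nat.mul_pos hRpos (by positivity)
  have hmk : ∀ k, 2 ^ k ≤ m k := by
    intro k
    have h1 : (2 ^ k) ≤ (2 ^ k) ^ d := Nat.le_self_pow (by omega) _
    calc 2 ^ k ≤ (2 ^ k) ^ d := h1
      _ ≤ R * (2 ^ k) ^ d := Nat.le_mul_of_pos_left _ hRpos
  have hmono : ∀ k, m k ≤ m (k + 1) := by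
    intro k
    apply Nat.mul_le_mul_left
    apply Nat.pow_le_pow_left
    exact Nat.pow_le_pow_right (by norm_num) (by omega)
  have hmt : Tendsto m atTop atTop := by
    apply tendsto_atTop_mono hmk
    exact tendsto_pow_atTop_atTop_of_one_lt (by norm_num)
  have hA : ∀ k, P {ω | ∀ n, X n ω ∈ Metric.ball (0:E) (2 ^ k) → D n ω < m k} ≤
      ENNReal.ofReal (2 * R / (v ^ 2 * c ^ 2) * (1 / 2) ^ k) := by
    intro k
    refine (no_large h measurableSet_ball measure_ball_lt_top.ne (m k)).trans ?_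
    apply ENNReal.ofReal_le_ofReal
    rw [hball _ (by positivity)]
    set t : ℝ := (2 ^ k) ^ d * v * (μ (Ici (m k))).toReal with ht
    have hmp : (0:ℝ) < m k := by exact_mod_cast hm1 k
    have hq : c / √(m k) ≤ (μ (Ici (m k))).toReal := hμ _ (hm1 k)
    have hq0 : 0 < c / √(m k) := div_pos hc (Real.sqrt_pos.mpr hmp)
    have hN0 : (0:ℝ) < (2 ^ k) ^ d := by positivity
    have ht1 : (2 ^ k) ^ d * v * (c / √(m k)) ≤ t := mul_le_mul_of_nonneg_left hq (by positivity)
    have ht0 : 0 < t := lt_of_lt_of_le (by positivity) ht1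
    have ht2 : v ^ 2 * c ^ 2 * (2 ^ k) ^ d / R ≤ t ^ 2 := by
      have h1 : ((2 ^ k) ^ d * v * (c / √(m k))) ^ 2 ≤ t ^ 2 :=
        pow_le_pow_left₀ (by positivity) ht1 2
      have h2 : ((2 ^ k) ^ d * v * (c / √(m k))) ^ 2 = v ^ 2 * c ^ 2 * (2 ^ k) ^ d / R := by
        rw [mul_pow, div_pow, Real.sq_sqrt hmp.le, hmdef]
        push_cast
        field_simp
      rw [← h2]; exact h1
    have ht3 : v ^ 2 * c ^ 2 * 2 ^ k / R ≤ t ^ 2 := by
      refine le_trans ?_ ht2
      gcongr
      exact hN1 k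
    have h3 : t ^ 2 / 2 ≤ Real.exp t := by
      have := Real.quadratic_le_exp_of_nonneg ht0.le
      linarith
    have h4 : Real.exp (-t) ≤ 2 / t ^ 2 := by
      rw [Real.exp_neg, inv_le_comm₀ (Real.exp_pos t) (by positivity), inv_div]
      exact h3
    refine h4.trans ?_
    have h5 : 2 / t ^ 2 ≤ 2 / (v ^ 2 * c ^ 2 * 2 ^ k / R) :=
      div_le_div_of_nonneg_left (by norm_num) (by positivity) ht3
    refine h5.trans (le_of_eq ?_)
    rw [one_div, inv_pow]
    field_simp
  have hC : ∀ k, P {ω | ((m k : ℕ) : ℕ∞) < count (fun n => X n ω) (Metric.ball (0:E) (8 * 2 ^ k))} ≤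
      ENNReal.ofReal ((7 / 10) ^ k) := by
    intro k
    refine (count_tail h measurableSet_ball measure_ball_lt_top.ne (m k)).trans ?_
    apply ENNReal.ofReal_le_ofReal
    rw [hball _ (by positivity)]
    have h1 : (8 * 2 ^ k) ^ d * v ≤ (m k : ℝ) * (1 / 3) := by
      rw [hmdef]
      push_cast
      rw [mul_pow]
      have : 3 * v * 8 ^ d * (2 ^ k) ^ d ≤ R * (2 ^ k) ^ d := by
        gcongr
      nlinarith
    have h2 : Real.exp ((8 * 2 ^ k) ^ d * v) ≤ (14 / 10) ^ m k := by
      calc Real.exp ((8 * 2 ^ k) ^ d * v) ≤ Real.exp ((m k : ℝ) * (1 / 3)) := Real.exp_le_exp.mpr h1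
        _ = Real.exp (1 / 3) ^ m k := by rw [Real.exp_nat_mul]
        _ ≤ (14 / 10) ^ m k := by
          apply pow_le_pow_left₀ (Real.exp_pos _).le
          have h3 : Real.exp (1 / 3) ^ 3 ≤ (14 / 10 : ℝ) ^ 3 := by
            rw [← Real.exp_nat_mul]
            have : ((3:ℕ):ℝ) * (1 / 3) = 1 := by norm_num
            rw [this]
            have := Real.exp_one_lt_d9
            norm_num
            linarith
          exact le_of_pow_le_pow_left₀ (by norm_num) (by norm_num) h3
    calc Real.exp ((8 * 2 ^ k) ^ d * v) / 2 ^ m k ≤ (14 / 10) ^ m k / 2 ^ m k := by gcongr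
      _ = (7 / 10) ^ m k := by rw [← div_pow]; norm_num
      _ ≤ (7 / 10) ^ k := by
        apply pow_le_pow_of_le_one (by norm_num) (by norm_num)
        exact (Nat.lt_two_pow_self.le).trans (hmk k)
  have hsum : ∑' k, P ({ω | ∀ n, X n ω ∈ Metric.ball (0:E) (2 ^ k) → D n ω < m k} ∪
      {ω | ((m k : ℕ) : ℕ∞) < count (fun n => X n ω) (Metric.ball (0:E) (8 * 2 ^ k))}) ≠ ∞ := by
    have h1 : ∑' k, P ({ω | ∀ n, X n ω ∈ Metric.ball (0:E) (2 ^ k) → D n ω < m k} ∪
      {ω | ((m k : ℕ) : ℕ∞) < count (fun n => X n ω) (Metric.ball (0:E) (8 * 2 ^ k))}) ≤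
        ∑' k, (ENNReal.ofReal (2 * R / (v ^ 2 * c ^ 2) * (1 / 2) ^ k) +
          ENNReal.ofReal ((7 / 10) ^ k)) :=
      ENNReal.tsum_le_tsum fun k => (measure_union_le _ _).trans (add_le_add (hA k) (hC k))
    refine ne_top_of_le_ne_top ?_ h1
    rw [ENNReal.tsum_add]
    apply ENNReal.add_ne_top.mpr
    constructor
    · rw [← ENNReal.ofReal_tsum_of_nonneg (fun k => by positivity)
        ((summable_geometric_of_lt_one (by norm_num) (by norm_num)).mul_left _)]
      exact ENNReal.ofReal_ne_top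
    · rw [← ENNReal.ofReal_tsum_of_nonneg (fun k => by positivity)
        (summable_geometric_of_lt_one (by norm_num) (by norm_num))]
      exact ENNReal.ofReal_ne_top
  filter_upwards [ae_eventually_notMem hsum] with ω hω G hG
  obtain ⟨k0, hk0⟩ := eventually_atTop.mp hω
  have hex : ∀ k, k0 ≤ k → ∃ n, X n ω ∈ Metric.ball (0:E) (2 ^ k) ∧ m k ≤ D n ω := by
    intro k hk
    have h1 := hk0 k hk
    simp only [mem_union, mem_ofPred_eq, not_or, not_forall, not_lt] at h1
    obtain ⟨⟨n, hn1, hn2⟩, _⟩ := h1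
    exact ⟨n, hn1, hn2⟩
  have hcnt : ∀ k, k0 ≤ k →
      count (fun n => X n ω) (Metric.ball (0:E) (8 * 2 ^ k)) ≤ ((m k : ℕ) : ℕ∞) := by
    intro k hk
    have h1 := hk0 k hk
    simp only [mem_union, mem_ofPred_eq, not_or, not_lt] at h1
    exact h1.2
  choose! u hu using hex
  refine infinite_component (D := fun n => D n ω) hmt (v := u) (k0 := k0)
    (fun k hk => (hu k hk).2) ?_
  intro k hk hne
  have hk' : k0 ≤ k + 1 := by omega
  have hF : ({n | X n ω ∈ Metric.ball (0:E) (8 * 2 ^ k)}).encard ≤ ((m k : ℕ) : ℕ∞) := hcnt k hk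
  have hx : ‖X (u k) ω‖ < 2 ^ k := by
    have := (hu k hk).1
    rwa [mem_ball_zero_iff] at this
  have hy : ‖X (u (k + 1)) ω‖ < 2 * 2 ^ k := by
    have := (hu (k + 1) hk').1
    rw [mem_ball_zero_iff, pow_succ] at this
    linarith
  have hxy : dist (X (u k) ω) (X (u (k + 1)) ω) < 3 * 2 ^ k := by
    rw [dist_eq_norm]
    have := norm_sub_le (X (u k) ω) (X (u (k + 1)) ω)
    linarith
  refine adj_of_large (x := fun n => X n ω) (D := fun n => D n ω) hG hne
    (F := {n | X n ω ∈ Metric.ball (0:E) (8 * 2 ^ k)}) ?_ ?_ ?_ ?_ ?_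
  · rw [← encard_ne_top_iff]
    exact ne_top_of_le_ne_top (ENat.natCast_ne_top _) hF
  · intro n hn
    rw [mem_ofPred_eq, mem_ball_zero_iff]
    have h1 : ‖X n ω‖ ≤ ‖X (u k) ω‖ + dist (X (u k) ω) (X n ω) := by
      rw [dist_comm, dist_eq_norm]
      have := norm_add_le (X (u k) ω) (X n ω - X (u k) ω)
      simpa using this
    have h2 : (0:ℝ) < 2 ^ k := by positivity
    linarith
  · intro n hn
    rw [mem_ofPred_eq, mem_ball_zero_iff]
    have h1 : ‖X n ω‖ ≤ ‖X (u (k + 1)) ω‖ + dist (X (u (k + 1)) ω) (X n ω) := by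
      rw [dist_comm, dist_eq_norm]
      have := norm_add_le (X (u (k + 1)) ω) (X n ω - X (u (k + 1)) ω)
      simpa using this
    have h2 : (0:ℝ) < 2 ^ k := by positivity
    have h3 := dist_comm (X (u (k + 1)) ω) (X (u k) ω)
    linarith
  · exact hF.trans (by exact_mod_cast (hu k hk).2)
  · exact hF.trans (by exact_mod_cast (hmono k).trans (hu (k + 1) hk').2)

end main

/-- The law giving mass `(1/2)^(j+1)` to `2 * 4^j`. -/
noncomputable def heavy : Measure ℕ :=
  Measure.sum fun j : ℕ => (2⁻¹ : ℝ≥0∞) ^ (j + 1) • Measure.dirac (2 * 4 ^ j)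

lemma heavy_apply (s : Set ℕ) :
    heavy s = ∑' j : ℕ, (2⁻¹ : ℝ≥0∞) ^ (j + 1) * s.indicator 1 (2 * 4 ^ j) := by
  rw [heavy, Measure.sum_apply _ (MeasurableSet.of_discrete)]
  simp [Measure.dirac_apply' _ (MeasurableSet.of_discrete (s := s))]

instance : IsProbabilityMeasure heavy := by
  refine ⟨?_⟩
  rw [heavy_apply]
  simp only [indicator_univ, Pi.one_apply, mul_one]
  rw [ENNReal.tsum_geometric_add_one, ENNReal.one_sub_inv_two, inv_inv]
  exact ENNReal.inv_mul_cancel (by norm_num) (by norm_num)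

lemma heavy_small : heavy {n | n < 2} = 0 := by
  rw [heavy_apply, ENNReal.tsum_eq_zero]
  intro j
  have : (2 * 4 ^ j : ℕ) ∉ {n : ℕ | n < 2} := by
    simp only [mem_ofPred_eq, not_lt]
    exact Nat.le_mul_of_pos_right _ (by positivity)
  rw [indicator_of_notMem this, mul_zero]

lemma heavy_tail (n : ℕ) (hn : 1 ≤ n) : (1 / 4) / √n ≤ (heavy (Ici n)).toReal := by
  set j := Nat.log 4 n
  have h1 : 4 ^ j ≤ n := Nat.pow_log_le_self 4 (by omega)
  have h2 : n < 4 ^ (j + 1) := Nat.lt_pow_succ_log_self (by norm_num) n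
  have h3 : (2⁻¹ : ℝ≥0∞) ^ (j + 1 + 1) ≤ heavy (Ici n) := by
    rw [heavy_apply]
    refine le_trans ?_ (ENNReal.le_tsum (j + 1))
    have : (2 * 4 ^ (j + 1) : ℕ) ∈ Ici n := by
      rw [mem_Ici]; omega
    rw [indicator_of_mem this, Pi.one_apply, mul_one]
  have h4 := ENNReal.toReal_mono (measure_ne_top _ _) h3
  refine le_trans ?_ h4
  rw [ENNReal.toReal_pow, ENNReal.toReal_inv, ENNReal.toReal_ofNat]
  have h5 : (2:ℝ) ^ j ≤ √n := by
    apply Real.le_sqrt_of_sq_le
    rw [← pow_mul, mul_comm, pow_mul]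
    norm_num
    exact_mod_cast h1
  have h6 : (0:ℝ) < 2 ^ j := by positivity
  rw [div_le_iff₀ (lt_of_lt_of_le h6 h5), inv_pow, pow_add, pow_add]
  have h7 : (1:ℝ) / 4 = (2 ^ j * 2 ^ 1 * 2 ^ 1)⁻¹ * 2 ^ j := by
    field_simp
    norm_num
  rw [h7]
  exact mul_le_mul_of_nonneg_left h5 (by positivity)

/-- The mixture `p δ_1 + (1 - p) ν`. -/
noncomputable def mixLaw (p : ℝ) (ν : Measure ℕ) : Measure ℕ :=
  ENNReal.ofReal p • Measure.dirac 1 + ENNReal.ofReal (1 - p) • ν

lemma mixLaw_prob {p : ℝ} (hp0 : 0 ≤ p) (hp1 : p ≤ 1) (ν : Measure ℕ) [IsProbabilityMeasure ν] :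
    IsProbabilityMeasure (mixLaw p ν) := by
  refine ⟨?_⟩
  simp only [mixLaw, Measure.coe_add, Measure.coe_smul, Pi.add_apply, Pi.smul_apply,
    measure_univ, smul_eq_mul, mul_one]
  rw [← ENNReal.ofReal_add hp0 (by linarith)]
  simp

lemma mixLaw_tail {p : ℝ} (hp0 : 0 ≤ p) (hp1 : p < 1) {ν : Measure ℕ} [IsProbabilityMeasure ν]
    {c : ℝ} (hν : ∀ n : ℕ, 1 ≤ n → c / √n ≤ (ν (Ici n)).toReal) (n : ℕ) (hn : 1 ≤ n) :
    ((1 - p) * c) / √n ≤ (mixLaw p ν (Ici n)).toReal := by
  have := mixLaw_prob hp0 hp1.le ν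
  have h1 : ENNReal.ofReal (1 - p) * ν (Ici n) ≤ mixLaw p ν (Ici n) := by
    simp only [mixLaw, Measure.coe_add, Measure.coe_smul, Pi.add_apply, Pi.smul_apply,
      smul_eq_mul]
    exact le_add_self
  have h2 := ENNReal.toReal_mono (measure_ne_top _ _) h1
  rw [ENNReal.toReal_mul, ENNReal.toReal_ofReal (by linarith)] at h2
  refine le_trans ?_ h2
  rw [mul_div_assoc]
  exact mul_le_mul_of_nonneg_left (hν n hn) (by linarith)

end Pool.Agent.R958.Stub
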